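import Pool.Agent.Lib.MP_939ffc_anC.Poly1

open MeasureTheory Set Metric Filter Topology
open scoped ENNReal NNReal Pointwise
open Pool.Agent.Lib.MP_deb14e_an Pool.Agent.MPdeb14eM

namespace BM939

/-- Approximation by polyhedra from outside. PROOF: the set `K = frontier ((1 + ε) • Ω) = (1 + ε) • frontier Ω` is
compact; each of its points `(1 + ε) • x` has an `a ∈ A` with `⟨a, (1 + ε) • x⟩ ≥ 1 + ε > 1`, so finitely many of the
open sets `{z | 1 < ⟨a, z⟩}`, `a ∈ S`, cover it; so `poly S ∩ K = ∅`, and as `poly S` is convex (preconnected) and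
contains `0 ∈ (1 + ε) • Ω`, it is a subset of the open set `(1 + ε) • Ω`
(`IsPreconnected.subset_of_...frontier`, or the segment from `0`). -/
theorem exists_poly {n : ℕ} {Ω : Set (E n)} (hΩ : ConvexDomain Ω) (h0 : (0 : E n) ∈ Ω) {A : Set (E n)}
    (hA : ∀ a ∈ A, ∀ y ∈ Ω, (inner ℝ a y : ℝ) < 1)
    (hA' : ∀ x ∈ frontier Ω, ∃ a ∈ A, 1 ≤ (inner ℝ a x : ℝ)) {ε : ℝ} (hε : 0 < ε) :
    ∃ S : Finset (E n), (∀ a ∈ S, a ∈ A) ∧ Ω ⊆ poly S ∧ poly S ⊆ (1 + ε) • Ω := by
  classical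
  obtain ⟨hne, hbd, hop, hconv⟩ := hΩ
  have hε1 : (1 + ε) ≠ 0 := by positivity
  have hopS : IsOpen ((1 + ε) • Ω) := hop.smul₀ hε1
  have hbdS : Bornology.IsBounded ((1 + ε) • Ω) := hbd.smul₀ (1 + ε)
  have hK : IsCompact (frontier ((1 + ε) • Ω)) := by
    apply Metric.isCompact_of_isClosed_isBounded isClosed_frontier
    exact (hbdS.closure).subset frontier_subset_closure
  have hfr : ∀ z ∈ frontier ((1 + ε) • Ω), ∃ x ∈ frontier Ω, z = (1 + ε) • x := by
    intro z hz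
    have h1 : frontier ((1 + ε) • Ω) = (1 + ε) • frontier Ω := by
      rw [frontier, frontier, closure_smul₀' hε1, interior_smul₀ hε1, Set.smul_set_sdiff₀ hε1]
    rw [h1] at hz
    obtain ⟨x, hx, rfl⟩ := hz
    exact ⟨x, hx, rfl⟩
  have hcov : ∀ z ∈ frontier ((1 + ε) • Ω), ∃ a ∈ A, 1 < (inner ℝ a z : ℝ) := by
    intro z hz
    obtain ⟨x, hx, rfl⟩ := hfr z hz
    obtain ⟨a, ha, hax⟩ := hA' x hx
    refine ⟨a, ha, ?_⟩
    rw [real_inner_smul_right]
    nlinarith
  obtain ⟨T, hT⟩ := hK.elim_finite_subcover (fun a : A => {z : E n | 1 < (inner ℝ (a : E n) z : ℝ)})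
    (fun a => isOpen_lt continuous_const (continuous_const.inner continuous_id))
    (by
      intro z hz
      obtain ⟨a, ha, haz⟩ := hcov z hz
      exact Set.mem_iUnion.2 ⟨⟨a, ha⟩, haz⟩)
  refine ⟨T.image (fun a : A => (a : E n)), ?_, ?_, ?_⟩
  · intro a ha
    obtain ⟨b, _, rfl⟩ := Finset.mem_image.1 ha
    exact b.2
  · intro y hy a ha
    obtain ⟨b, _, rfl⟩ := Finset.mem_image.1 ha
    exact hA _ b.2 y hy
  · have hpre : IsPreconnected (poly (T.image (fun a : A => (a : E n)))) :=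
      (convex_poly _).isPreconnected
    have hdisj : poly (T.image (fun a : A => (a : E n))) ∩ frontier ((1 + ε) • Ω) = ∅ := by
      ext z
      simp only [Set.mem_inter_iff, Set.mem_empty_iff_false, iff_false, not_and]
      intro hz hzf
      obtain ⟨a, haT, haz⟩ := Set.mem_iUnion₂.1 (hT hzf)
      have h1 := hz (a : E n) (Finset.mem_image.2 ⟨a, haT, rfl⟩)
      have h2 : 1 < (inner ℝ (a : E n) z : ℝ) := haz
      linarith
    have h0S : (0 : E n) ∈ (1 + ε) • Ω := ⟨0, h0, by simp⟩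
    by_contra hsub
    obtain ⟨z, hz, hzn⟩ := Set.not_subset.1 hsub
    have hzf : z ∉ frontier ((1 + ε) • Ω) := by
      intro hzf
      have h3 : z ∈ poly (T.image (fun a : A => (a : E n))) ∩ frontier ((1 + ε) • Ω) := ⟨hz, hzf⟩
      rw [hdisj] at h3
      exact h3
    have hcl : ∀ w ∈ poly (T.image (fun a : A => (a : E n))), w ∉ (1 + ε) • Ω →
        w ∉ closure ((1 + ε) • Ω) := by
      intro w hw hwn hwc
      have h3 : w ∈ poly (T.image (fun a : A => (a : E n))) ∩ frontier ((1 + ε) • Ω) := by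
        refine ⟨hw, hwc, ?_⟩
        rw [hopS.interior_eq]
        exact hwn
      rw [hdisj] at h3
      exact h3
    obtain ⟨w, hw⟩ := hpre ((1 + ε) • Ω) (closure ((1 + ε) • Ω))ᶜ hopS isClosed_closure.isOpen_compl
      (by
        intro w hw
        by_cases hwO : w ∈ (1 + ε) • Ω
        · exact Or.inl hwO
        · exact Or.inr (hcl w hw hwO))
      ⟨0, zero_mem_poly _, h0S⟩ ⟨z, hz, hcl z hz hzn⟩
    exact hw.2.2 (subset_closure hw.2.1)

end BM939
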