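import Pool.Agent.Lib.MP_939ffc_anC.Defs
import Pool.Agent.Lib.MP_deb14e_anM.NP

open MeasureTheory Set Metric Filter Topology
open scoped ENNReal NNReal Pointwise
open Pool.Agent.Lib.MP_deb14e_an Pool.Agent.MPdeb14eM

namespace BM939

private theorem Proj_uniq {V : Type*} [NormedAddCommGroup V] [InnerProductSpace ℝ V] {x v w : V}
    (h1 : inner ℝ (x - v) (w - v) ≤ 0) (h2 : inner ℝ (x - w) (v - w) ≤ 0) : v = w := by
  have h3 : inner ℝ (x - v) (w - v) + inner ℝ (x - w) (v - w) = inner ℝ (w - v) (w - v) := by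
    have e1 : v - w = -(w - v) := by abel
    have e2 : w - v = (x - v) - (x - w) := by abel
    rw [e1, inner_neg_right, ← sub_eq_add_neg, ← inner_sub_left, ← e2]
  have h4 : inner ℝ (w - v) (w - v) ≤ (0 : ℝ) := by linarith
  have h5 : w - v = 0 := by
    rw [real_inner_self_eq_norm_sq] at h4
    have h6 : ‖w - v‖ = 0 := by nlinarith [norm_nonneg (w - v)]
    exact norm_eq_zero.1 h6
  exact (sub_eq_zero.1 h5).symm

private theorem Proj_front {V : Type*} [NormedAddCommGroup V] [InnerProductSpace ℝ V]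
    [FiniteDimensional ℝ V] {B : Set V} (hB : Bornology.IsBounded B) {a ν : V}
    (ha : a ∈ closure B) (hν : ν ≠ 0) : ∃ t : ℝ, 0 ≤ t ∧ a + t • ν ∈ frontier B := by
  have hcont : Continuous fun t : ℝ => a + t • ν := by fun_prop
  obtain ⟨S, hS⟩ : ∃ S : Set ℝ, S = {t : ℝ | 0 ≤ t ∧ a + t • ν ∈ closure B} := ⟨_, rfl⟩
  have hν0 : 0 < ‖ν‖ := norm_pos_iff.2 hν
  obtain ⟨R, hR⟩ := hB.closure.exists_norm_le
  have hSc : IsCompact S := by
    refine Metric.isCompact_of_isClosed_isBounded ?_ ?_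
    · rw [hS]
      exact (isClosed_le continuous_const continuous_id).inter (isClosed_closure.preimage hcont)
    · refine (isBounded_iff_forall_norm_le).2 ⟨(R + ‖a‖) / ‖ν‖, fun t ht => ?_⟩
      rw [hS] at ht
      rw [le_div_iff₀ hν0, Real.norm_eq_abs, abs_of_nonneg ht.1]
      have h1 := hR _ ht.2
      have h2 : ‖t • ν‖ = t * ‖ν‖ := by rw [norm_smul, Real.norm_eq_abs, abs_of_nonneg ht.1]
      have h3 : ‖t • ν‖ ≤ ‖a + t • ν‖ + ‖a‖ := by
        have h4 : t • ν = (a + t • ν) - a := by abel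
        calc ‖t • ν‖ = ‖(a + t • ν) - a‖ := by rw [← h4]
          _ ≤ _ := norm_sub_le _ _
      linarith
  have hSne : S.Nonempty := ⟨0, by rw [hS]; exact ⟨le_rfl, by simpa using ha⟩⟩
  obtain ⟨t₀, ht₀, hmax⟩ := hSc.exists_isGreatest hSne
  have ht₀' := ht₀
  rw [hS] at ht₀'
  refine ⟨t₀, ht₀'.1, ht₀'.2, fun hint => ?_⟩
  have h1 : (fun t : ℝ => a + t • ν) ⁻¹' interior B ∈ 𝓝 t₀ :=
    (isOpen_interior.preimage hcont).mem_nhds hint
  obtain ⟨ε, hε, hball⟩ := Metric.mem_nhds_iff.1 h1
  have h2 : t₀ + ε / 2 ∈ ball t₀ ε := by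
    rw [mem_ball, Real.dist_eq, add_sub_cancel_left, abs_of_pos (half_pos hε)]
    linarith
  have h3 : a + (t₀ + ε / 2) • ν ∈ interior B := hball h2
  have h4 : t₀ + ε / 2 ∈ S := by
    rw [hS]
    exact ⟨by linarith [ht₀'.1], subset_closure (interior_subset h3)⟩
  have h5 := hmax h4
  linarith

/-- `exists_proj` with the additional information that the projection is the identity on `A`. -/
private theorem Proj_exists {V : Type*} [NormedAddCommGroup V] [InnerProductSpace ℝ V]
    [FiniteDimensional ℝ V] {A : Set V} (hA : Convex ℝ A) (hc : IsClosed A) (hne : A.Nonempty) :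
    ∃ f : V → V, LipschitzWith 1 f ∧ (∀ x ∈ A, f x = x) ∧
      ∀ B : Set V, Bornology.IsBounded B → A ⊆ closure B → frontier A ⊆ f '' frontier B := by
  have hex : ∀ x : V, ∃ v ∈ A, ∀ w ∈ A, inner ℝ (x - v) (w - v) ≤ 0 := fun x => by
    obtain ⟨v, hv, h⟩ := exists_norm_eq_iInf_of_complete_convex hne hc.isComplete hA x
    exact ⟨v, hv, (norm_eq_iInf_iff_real_inner_le_zero hA hv).1 h⟩
  choose f hfA hf using hex
  have huniq : ∀ x v, v ∈ A → (∀ w ∈ A, inner ℝ (x - v) (w - v) ≤ 0) → f x = v := fun x v hv h =>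
    Proj_uniq (hf x v hv) (h _ (hfA x))
  have hlip : LipschitzWith 1 f := by
    refine LipschitzWith.of_dist_le_mul fun x y => ?_
    rw [dist_eq_norm, dist_eq_norm, NNReal.coe_one, one_mul]
    have h1 := hf x (f y) (hfA y)
    have h2 := hf y (f x) (hfA x)
    have h3 : inner ℝ (f x - f y) (f x - f y) ≤ inner ℝ (x - y) (f x - f y) := by
      have e1 : f y - f x = -(f x - f y) := by abel
      rw [e1, inner_neg_right] at h1
      have e2 : inner ℝ (x - y) (f x - f y) - inner ℝ (f x - f y) (f x - f y) =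
          inner ℝ (x - f x) (f x - f y) - inner ℝ (y - f y) (f x - f y) := by
        rw [← inner_sub_left, ← inner_sub_left]
        congr 1
        abel
      linarith
    have h4 := real_inner_le_norm (x - y) (f x - f y)
    rw [real_inner_self_eq_norm_sq] at h3
    by_contra hcon
    push Not at hcon
    have h5 : 0 < ‖f x - f y‖ := lt_of_le_of_lt (norm_nonneg _) hcon
    nlinarith
  have hid : ∀ x ∈ A, f x = x := fun x hx =>
    huniq x x hx fun w _ => by rw [sub_self, inner_zero_left]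
  refine ⟨f, hlip, hid, fun B hB hAB x hx => ?_⟩
  have hcomp : IsCompact (frontier B) := Metric.isCompact_of_isClosed_isBounded isClosed_frontier
    (hB.closure.subset frontier_subset_closure)
  have himg : IsClosed (f '' frontier B) := (hcomp.image hlip.continuous).isClosed
  have hsub : f '' Aᶜ ⊆ f '' frontier B := by
    rintro _ ⟨y, hy, rfl⟩
    have hν : y - f y ≠ 0 := fun h => hy (by rw [sub_eq_zero.1 h]; exact hfA y)
    obtain ⟨t, ht, hb⟩ := Proj_front hB (hAB (hfA y)) hν
    refine ⟨_, hb, huniq _ _ (hfA y) fun w hw => ?_⟩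
    rw [add_sub_cancel_left, real_inner_smul_left]
    exact mul_nonpos_of_nonneg_of_nonpos ht (hf y w hw)
  have hxA : x ∈ A := hc.frontier_subset hx
  have hxc : x ∈ closure Aᶜ := by
    rw [frontier_eq_closure_inter_closure] at hx
    exact hx.2
  have hfx : f x = x := hid x hxA
  have h1 : f x ∈ closure (f '' Aᶜ) :=
    image_closure_subset_closure_image hlip.continuous ⟨x, hxc, rfl⟩
  have h2 : closure (f '' Aᶜ) ⊆ f '' frontier B := closure_minimal hsub himg
  rw [hfx] at h1
  exact h2 h1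

/-- PROOF: `exists_proj` (NP.lean) for `closure Ω` gives a `1`-Lipschitz `f` with `frontier Ω ⊆ f '' frontier Ω'`
(see the proof of `hausdorff_frontier_mono` in Mono.lean); if `exists_proj` does not give `f 0 = 0` (so that
`‖f x‖ ≤ ‖x‖`), add this to a copy of its proof. Then for a measurable `A ⊆ frontier Ω`,
`μH A ≤ μH (f ⁻¹' A ∩ frontier Ω')` since `A ⊆ f '' (...)` (`LipschitzWith.hausdorffMeasure_image_le`), so
`μH.restrict (frontier Ω) ≤ (μH.restrict (frontier Ω')).map f`, and `lintegral_map`, `‖f x‖ ^ p ≤ ‖x‖ ^ p`. -/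
theorem bd_mono {m p : ℕ} {Ω Ω' : Set (E (m + 1))} (hΩ : ConvexDomain Ω) (hΩ' : ConvexDomain Ω')
    (h0 : (0 : E (m + 1)) ∈ Ω) (h : Ω ⊆ Ω') : bd p Ω ≤ bd p Ω' := by
  obtain ⟨hne, -, ho, hc⟩ := hΩ
  have h1 : frontier (closure Ω) = frontier Ω := by
    have h2 : interior (closure Ω) = interior Ω :=
      hc.interior_closure_eq_interior_of_nonempty_interior (by rwa [ho.interior_eq])
    rw [frontier, closure_closure, h2, frontier]
  obtain ⟨f, hf, hfid, hf2⟩ := Proj_exists hc.closure isClosed_closure hne.closure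
  have hf0 : f 0 = 0 := hfid 0 (subset_closure h0)
  have hfn : ∀ x, ‖f x‖ ≤ ‖x‖ := by
    intro x
    have h2 := hf.dist_le_mul x 0
    rwa [hf0, dist_zero_right, dist_zero_right, NNReal.coe_one, one_mul] at h2
  have h3 : frontier Ω ⊆ f '' frontier Ω' := by
    rw [← h1]
    exact hf2 Ω' hΩ'.2.1 (closure_mono h)
  have hfm : Measurable f := hf.continuous.measurable
  have hgm : Measurable fun x : E (m + 1) => ENNReal.ofReal (‖x‖ ^ p) := by fun_prop
  unfold bd
  have hle : (Measure.hausdorffMeasure (m : ℝ) : Measure (E (m + 1))).restrict (frontier Ω) ≤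
      ((Measure.hausdorffMeasure (m : ℝ) : Measure (E (m + 1))).restrict (frontier Ω')).map f := by
    refine Measure.le_iff.2 fun A hA => ?_
    rw [Measure.map_apply hfm hA, Measure.restrict_apply hA,
      Measure.restrict_apply (hfm hA)]
    have h4 : A ∩ frontier Ω ⊆ f '' (f ⁻¹' A ∩ frontier Ω') := by
      rintro x ⟨hxA, hx⟩
      obtain ⟨y, hy, rfl⟩ := h3 hx
      exact ⟨y, ⟨hxA, hy⟩, rfl⟩
    refine (measure_mono h4).trans ?_
    simpa using hf.hausdorffMeasure_image_le (Nat.cast_nonneg m) (f ⁻¹' A ∩ frontier Ω')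
  refine (lintegral_mono' hle le_rfl).trans ?_
  rw [lintegral_map hgm hfm]
  refine lintegral_mono fun x => ENNReal.ofReal_le_ofReal ?_
  exact pow_le_pow_left₀ (norm_nonneg _) (hfn x) p

end BM939
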