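import Pool.Agent.Lib.MP_939ffc_anC.Defs

open MeasureTheory Set Metric Filter Topology
open scoped ENNReal NNReal Pointwise
open Pool.Agent.Lib.MP_deb14e_an Pool.Agent.MPdeb14eM

namespace BM939

private lemma scale0_gen {N : ℕ} (μ : Measure (E N)) (k : ENNReal) {c : ℝ} (hc : 0 < c)
    (hk : ∀ s : Set (E N), μ (c • s) = k * μ s) (p : ℕ) (A : Set (E N)) :
    ∫⁻ x in c • A, ENNReal.ofReal (‖x‖ ^ p) ∂μ =
      k * (ENNReal.ofReal (c ^ p) * ∫⁻ x in A, ENNReal.ofReal (‖x‖ ^ p) ∂μ) := by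
  let f : E N ≃ᵐ E N := (Homeomorph.smulOfNeZero c hc.ne').toMeasurableEquiv
  have hf : ∀ x, f x = c • x := fun x => rfl
  have him : ∀ s : Set (E N), f '' s = c • s := fun s => rfl
  have hμ : μ = k • μ.map f := by
    ext s hs
    rw [Measure.smul_apply, smul_eq_mul, f.map_apply, ← hk, ← him,
      Set.image_preimage_eq s f.surjective]
  have hpre : f ⁻¹' (c • A) = A := by
    rw [← him, Set.preimage_image_eq A f.injective]
  calc ∫⁻ x in c • A, ENNReal.ofReal (‖x‖ ^ p) ∂μ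
      = ∫⁻ x in c • A, ENNReal.ofReal (‖x‖ ^ p) ∂(k • μ.map f) := by rw [← hμ]
    _ = k * ∫⁻ x in c • A, ENNReal.ofReal (‖x‖ ^ p) ∂(μ.map f) := by
        rw [Measure.restrict_smul, lintegral_smul_measure, smul_eq_mul]
    _ = k * ∫⁻ x in A, ENNReal.ofReal (‖f x‖ ^ p) ∂μ := by
        rw [f.measurableEmbedding.restrict_map, hpre, lintegral_map_equiv]
    _ = k * ∫⁻ x in A, ENNReal.ofReal (c ^ p) * ENNReal.ofReal (‖x‖ ^ p) ∂μ := by
        congr 1
        apply lintegral_congr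
        intro x
        rw [hf, norm_smul, Real.norm_of_nonneg hc.le, mul_pow,
          ENNReal.ofReal_mul (pow_nonneg hc.le p)]
    _ = k * (ENNReal.ofReal (c ^ p) * ∫⁻ x in A, ENNReal.ofReal (‖x‖ ^ p) ∂μ) := by
        rw [lintegral_const_mul' _ _ ENNReal.ofReal_ne_top]

/-- `frontier (c • Ω) = c • frontier Ω`, `Measure.hausdorffMeasure_smul₀`, and the homothety is a measurable
equivalence. -/
theorem bd_smul {m p : ℕ} (Ω : Set (E (m + 1))) {c : ℝ} (hc : 0 < c) :
    bd p (c • Ω) = ENNReal.ofReal (c ^ (m + p)) * bd p Ω := by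
  have hfr : frontier (c • Ω) = c • frontier Ω :=
    ((Homeomorph.smulOfNeZero c hc.ne').image_frontier Ω).symm
  have hk : ∀ s : Set (E (m + 1)),
      (Measure.hausdorffMeasure (m : ℝ) : Measure (E (m + 1))) (c • s)
        = ENNReal.ofReal (c ^ m) * (Measure.hausdorffMeasure (m : ℝ) : Measure (E (m + 1))) s := by
    intro s
    rw [Measure.hausdorffMeasure_smul₀ (Nat.cast_nonneg m) hc.ne' s]
    have e : ‖c‖₊ ^ (m : ℝ) = Real.toNNReal (c ^ m) := by
      rw [NNReal.rpow_natCast, Real.toNNReal_pow hc.le]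
      congr 1
      exact (Real.nnnorm_of_nonneg hc.le).trans (Real.toNNReal_of_nonneg hc.le).symm
    rw [e]
    rfl
  unfold bd
  rw [hfr, scale0_gen _ _ hc hk, ← mul_assoc, ← ENNReal.ofReal_mul (pow_nonneg hc.le m), ← pow_add]

theorem mom_smul {n p : ℕ} (Ω : Set (E n)) {c : ℝ} (hc : 0 < c) :
    mom p (c • Ω) = ENNReal.ofReal (c ^ (n + p)) * mom p Ω := by
  have hk : ∀ s : Set (E n), (volume : Measure (E n)) (c • s)
      = ENNReal.ofReal (c ^ n) * (volume : Measure (E n)) s := by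
    intro s
    rw [Measure.addHaar_smul, finrank_euclideanSpace, Fintype.card_fin,
      abs_of_nonneg (pow_nonneg hc.le n)]
  unfold mom
  rw [scale0_gen _ _ hc hk, ← mul_assoc, ← ENNReal.ofReal_mul (pow_nonneg hc.le n), ← pow_add]

end BM939
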