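import Pool.Agent.Lib.MP_939ffc_anC.Poly4
import Pool.Agent.Lib.MP_939ffc_anC.Approx
import Pool.Agent.Lib.MP_939ffc_anC.Proj
import Pool.Agent.Lib.MP_939ffc_anC.Scale0

open MeasureTheory Set Metric Filter Topology
open scoped ENNReal NNReal Pointwise
open Pool.Agent.Lib.MP_deb14e_an Pool.Agent.MPdeb14eM

namespace BM939

private theorem lower_strict {n : ℕ} {Ω : Set (E n)} (ho : IsOpen Ω) {u : E n} (hu : ‖u‖ = 1)
    (h : ∀ y ∈ Ω, (inner ℝ u y : ℝ) ≤ 1) {y : E n} (hy : y ∈ Ω) : (inner ℝ u y : ℝ) < 1 := by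
  obtain ⟨δ, hδ, hb⟩ := Metric.isOpen_iff.1 ho y hy
  have h1 : y + (δ / 2) • u ∈ Ω := by
    refine hb ?_
    rw [mem_ball, dist_eq_norm, add_sub_cancel_left, norm_smul, hu, mul_one, Real.norm_eq_abs,
      abs_of_pos (by positivity)]
    linarith
  have h2 := h _ h1
  rw [inner_add_right, inner_smul_right, real_inner_self_eq_norm_sq, hu] at h2
  nlinarith

private theorem lower_smul_domain {n : ℕ} {Ω : Set (E n)} (hΩ : ConvexDomain Ω) {c : ℝ}
    (hc : 0 < c) : ConvexDomain (c • Ω) := by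
  obtain ⟨h1, h2, h3, h4⟩ := hΩ
  exact ⟨h1.smul_set, h2.smul₀ c, h3.smul₀ hc.ne', h4.smul c⟩

/-- PROOF: `A = {a | ‖a‖ = 1 ∧ ∀ y ∈ Ω, ⟨a, y⟩ < 1}` (for open `Ω` and `a ≠ 0`, `≤` gives `<`); `exists_poly`,
`le_bd_poly`, and `bd 0 (poly S) ≤ bd 0 ((1 + ε) • Ω) = (1 + ε)^m bd 0 Ω` (`bd_mono`, `bd_smul`); `ε → 0`. -/
theorem le_bd {m : ℕ} {Ω : Set (E (m + 1))} (hΩ : ConvexDomain Ω) (hC : Circumscribed Ω 0 1) :
    ENNReal.ofReal (kap m * (m + 1)) * mom 0 Ω ≤ bd 0 Ω := by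
  obtain ⟨hball, hsup⟩ := hC
  have h0 : (0 : E (m + 1)) ∈ Ω := hball (mem_ball_self one_pos)
  have key : ∀ ε : ℝ, 0 < ε → ENNReal.ofReal (kap m * (m + 1)) * mom 0 Ω
      ≤ ENNReal.ofReal ((1 + ε) ^ (m + 0)) * bd 0 Ω := by
    intro ε hε
    have hc : 0 < 1 + ε := by linarith
    obtain ⟨S, hSA, hS1, hS2⟩ := exists_poly hΩ h0
      (A := {a : E (m + 1) | ‖a‖ = 1 ∧ ∀ y ∈ Ω, (inner ℝ a y : ℝ) < 1})
      (fun a ha => ha.2) (fun x hx => by
        obtain ⟨u, hu, hux, huy⟩ := hsup x hx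
        rw [sub_zero] at hux
        refine ⟨u, ⟨hu, fun y hy => ?_⟩, hux.ge⟩
        refine lower_strict hΩ.2.2.1 hu (fun z hz => ?_) hy
        have := huy z hz
        rwa [sub_zero] at this) hε
    have hdom := lower_smul_domain hΩ hc
    have hbdd : Bornology.IsBounded (poly S) := hdom.2.1.subset hS2
    have hP : ConvexDomain (poly S) :=
      ⟨⟨0, zero_mem_poly S⟩, hbdd, isOpen_poly S, convex_poly S⟩
    calc ENNReal.ofReal (kap m * (m + 1)) * mom 0 Ω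
        ≤ ENNReal.ofReal (kap m * (m + 1)) * mom 0 (poly S) := by
          refine mul_le_mul_right ?_ _
          exact lintegral_mono_set hS1
      _ ≤ bd 0 (poly S) := le_bd_poly S (fun a ha => (hSA a ha).1) hbdd
      _ ≤ bd 0 ((1 + ε) • Ω) := bd_mono hP hdom (zero_mem_poly S) hS2
      _ = ENNReal.ofReal ((1 + ε) ^ (m + 0)) * bd 0 Ω := bd_smul Ω hc
  have hcont : Tendsto (fun ε : ℝ => ENNReal.ofReal ((1 + ε) ^ (m + 0))) (𝓝[>] 0) (𝓝 1) := by
    have h1 : Continuous fun ε : ℝ => ENNReal.ofReal ((1 + ε) ^ (m + 0)) := by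
      exact ENNReal.continuous_ofReal.comp (by fun_prop)
    have h2 := (h1.tendsto 0).mono_left (nhdsWithin_le_nhds (s := Ioi (0 : ℝ)))
    simpa using h2
  have hlim := ENNReal.Tendsto.mul_const (b := bd 0 Ω) hcont (Or.inl one_ne_zero)
  rw [one_mul] at hlim
  refine ge_of_tendsto hlim ?_
  filter_upwards [self_mem_nhdsWithin] with ε hε
  exact key ε hε

end BM939
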