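import Pool.Agent.Lib.MP_939ffc_anC.Upper
import Pool.Agent.Lib.MP_939ffc_anC.Lower
import Pool.Agent.Lib.MP_deb14e_anM.Mono

open MeasureTheory Set Metric Filter Topology
open scoped ENNReal NNReal Pointwise
open Pool.Agent.Lib.MP_deb14e_an Pool.Agent.MPdeb14eM

namespace BM939

private theorem ball_mom_zero (n : ℕ) : mom 0 (ball (0 : E n) 1) = ENNReal.ofReal (vb n) := by
  unfold mom vb
  rw [ENNReal.ofReal_toReal measure_ball_lt_top.ne]
  simp

private theorem ball_domain (n : ℕ) : ConvexDomain (ball (0 : E n) 1) :=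
  ⟨⟨0, mem_ball_self one_pos⟩, isBounded_ball, isOpen_ball, convex_ball _ _⟩

private theorem ball_circ (n : ℕ) : Circumscribed (ball (0 : E n) 1) 0 1 := by
  refine ⟨Subset.rfl, fun x hx => ?_⟩
  rw [frontier_ball _ one_ne_zero, mem_sphere, dist_zero_right] at hx
  refine ⟨x, hx, ?_, fun y hy => ?_⟩
  · rw [sub_zero, real_inner_self_eq_norm_sq, hx, one_pow]
  · rw [mem_ball, dist_zero_right] at hy
    rw [sub_zero]
    refine (real_inner_le_norm x y).trans ?_
    rw [hx, one_mul]
    exact hy.le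

private theorem kap_nonneg' (m : ℕ) : 0 ≤ kap m := div_nonneg ENNReal.toReal_nonneg (vb_pos m).le

/-- The surface area of the unit ball: `bd_le` with `p = 0` and `le_bd` (the ball is circumscribed about itself). -/
theorem bd_ball {m : ℕ} : bd 0 (ball (0 : E (m + 1)) 1) = ENNReal.ofReal (kap m * (m + 1) * vb (m + 1)) := by
  have hk : 0 ≤ kap m * (m + 1) := mul_nonneg (kap_nonneg' m) (by positivity)
  rw [ENNReal.ofReal_mul hk, ← ball_mom_zero]
  refine le_antisymm ?_ (le_bd (ball_domain _) (ball_circ _))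
  have h := bd_le (p := 0) (ball_domain (m + 1)) Subset.rfl
  rwa [Nat.cast_zero, add_zero] at h

end BM939
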