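import Pool.Agent.Lib.MP_939ffc_anC.Defs
import Pool.Agent.Lib.MP_deb14e_anM.Mono

open MeasureTheory Set Metric Filter Topology
open scoped ENNReal NNReal Pointwise
open Pool.Agent.Lib.MP_deb14e_an Pool.Agent.MPdeb14eM

namespace BM939

private theorem ball1_inner {m : ℕ} (x₀ : E (m + 1)) (d : ℝ) :
    ∫ x in sphere (0 : E (m + 1)) 1, inner ℝ x x₀ ∂(Measure.hausdorffMeasure d) = 0 := by
  have h1 : MeasurePreserving (IsometryEquiv.neg (E (m + 1))) (Measure.hausdorffMeasure d)
      (Measure.hausdorffMeasure d) := IsometryEquiv.measurePreserving_hausdorffMeasure _ d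
  have h2 := h1.setIntegral_preimage_emb
    (IsometryEquiv.neg (E (m + 1))).toHomeomorph.measurableEmbedding
    (fun x => inner ℝ x x₀) (sphere (0 : E (m + 1)) 1)
  have h3 : (IsometryEquiv.neg (E (m + 1))) ⁻¹' (sphere (0 : E (m + 1)) 1) =
      sphere (0 : E (m + 1)) 1 := by
    ext x
    simp
  rw [h3] at h2
  have h4 : ∫ x in sphere (0 : E (m + 1)) 1, inner ℝ ((IsometryEquiv.neg (E (m + 1))) x) x₀
      ∂(Measure.hausdorffMeasure d) =
      -∫ x in sphere (0 : E (m + 1)) 1, inner ℝ x x₀ ∂(Measure.hausdorffMeasure d) := by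
    rw [← integral_neg]
    refine integral_congr_ae (Eventually.of_forall fun x => ?_)
    show inner ℝ (-x) x₀ = -inner ℝ x x₀
    exact inner_neg_left _ _
  rw [h4] at h2
  linarith

/-- The momentum of the unit ball about `x₀` is at least its perimeter. PROOF: `‖x‖ = 1` on the frontier; the
isometry `x ↦ -x` preserves the measure and the sphere, so the integral of `‖x - x₀‖ ^ 2` is the integral of
`(‖x - x₀‖ ^ 2 + ‖x + x₀‖ ^ 2) / 2 = 1 + ‖x₀‖ ^ 2` (or: the integral of `⟨x, x₀⟩` is zero). -/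
theorem momentum_ball_ge {m : ℕ} (x₀ : E (m + 1)) :
    perimeter (m + 1) (ball (0 : E (m + 1)) 1) ≤ momentum (ball (0 : E (m + 1)) 1) x₀ := by
  have hball : ConvexDomain (ball (0 : E (m + 1)) 1) :=
    ⟨⟨0, mem_ball_self one_pos⟩, isBounded_ball, isOpen_ball, convex_ball _ _⟩
  have hfr : frontier (ball (0 : E (m + 1)) 1) = sphere (0 : E (m + 1)) 1 :=
    frontier_ball _ one_ne_zero
  have hfin := frontier_lt_top hball
  rw [perimeter_eq, momentum]
  have hm : (((m + 1 : ℕ) : ℝ) - 1) = m := by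
    push_cast
    ring
  rw [hm, hfr] at *
  refine mul_le_mul_of_nonneg_left ?_ (hausdorffConst_pos (Nat.cast_nonneg m)).le
  have hms : MeasurableSet (sphere (0 : E (m + 1)) 1) := isClosed_sphere.measurableSet
  have hint : ∀ f : E (m + 1) → ℝ, Continuous f → IntegrableOn f (sphere (0 : E (m + 1)) 1)
      (Measure.hausdorffMeasure (m : ℝ)) := by
    intro f hf
    obtain ⟨M, hM⟩ := (isCompact_sphere (0 : E (m + 1)) 1).exists_bound_of_continuousOn
      hf.continuousOn
    refine IntegrableOn.of_bound hfin hf.aestronglyMeasurable M ?_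
    exact (ae_restrict_iff' hms).2 (Eventually.of_forall hM)
  have h1 : ∫ x in sphere (0 : E (m + 1)) 1, (1 - 2 * inner ℝ x x₀)
      ∂(Measure.hausdorffMeasure (m : ℝ)) =
      (Measure.hausdorffMeasure (m : ℝ) (sphere (0 : E (m + 1)) 1)).toReal := by
    rw [integral_sub (hint _ continuous_const) (hint _ (by fun_prop)), integral_const_mul,
      ball1_inner, mul_zero, sub_zero, setIntegral_const]
    simp [Measure.real]
  rw [← h1]
  refine setIntegral_mono_on (hint _ (by fun_prop)) (hint _ (by fun_prop)) hms fun x hx => ?_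
  have h2 : ‖x‖ = 1 := mem_sphere_zero_iff_norm.1 hx
  have h3 := norm_sub_sq_real x x₀
  rw [h2] at h3
  nlinarith [sq_nonneg ‖x₀‖]

end BM939
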