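import Pool.Agent.Lib.MP_939ffc_anC.Defs

open MeasureTheory Set Metric Filter Topology
open scoped ENNReal NNReal Pointwise
open Pool.Agent.Lib.MP_deb14e_an Pool.Agent.MPdeb14eM

namespace BM939

/-- Here `√(1 - z^2)^2 = 1 - z^2` on the range of integration: polynomials. -/
theorem delta_two {R : ℝ} (hR : 1 < R) :
    delta 2 R = (9 * R ^ 4 + 20 * R ^ 3 + 6 * R ^ 2 - 12 * R - 7) / (30 * R) := by
  have hR0 : 0 < R := by linarith
  have hRne : R ≠ 0 := hR0.ne'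
  have hinv : 1 / R < 1 := by
    rw [div_lt_one hR0]
    exact hR
  have hinv0 : 0 < 1 / R := by positivity
  obtain ⟨q, hq⟩ : ∃ q, q = R ^ 2 - 1 := ⟨_, rfl⟩
  have hq0 : 0 < q := by rw [hq]; nlinarith
  have hqne : q ≠ 0 := hq0.ne'
  have h1 : (∫ z in (-1 : ℝ)..(1 / R), (√(1 - z ^ 2) ^ 2 * (R ^ 2 - z ^ 2)
      - ((2 : ℕ) : ℝ) / (((2 : ℕ) : ℝ) + 2) * √(1 - z ^ 2) ^ (2 + 2))) =
      ∫ z in (-1 : ℝ)..(1 / R), ((R ^ 2 - 1 / 2) - R ^ 2 * z ^ 2 + z ^ 4 / 2) := by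
    refine intervalIntegral.integral_congr fun z hz => ?_
    rw [uIcc_of_le (by linarith)] at hz
    have hz1 : 0 ≤ 1 - z ^ 2 := by nlinarith [hz.1, hz.2]
    have e1 : √(1 - z ^ 2) ^ 2 = 1 - z ^ 2 := Real.sq_sqrt hz1
    have e2 : √(1 - z ^ 2) ^ (2 + 2) = (1 - z ^ 2) ^ 2 := by
      rw [pow_add, e1]
      ring
    simp only [e1, e2]
    push_cast
    ring
  have h2 : (∫ z in (-1 : ℝ)..(1 / R), ((R ^ 2 - 1 / 2) - R ^ 2 * z ^ 2 + z ^ 4 / 2)) =
      ((R ^ 2 - 1 / 2) * (1 / R) - R ^ 2 * (1 / R) ^ 3 / 3 + (1 / R) ^ 5 / 10) -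
      ((R ^ 2 - 1 / 2) * (-1) - R ^ 2 * (-1) ^ 3 / 3 + (-1) ^ 5 / 10) := by
    refine intervalIntegral.integral_eq_sub_of_hasDerivAt
      (f := fun z : ℝ => (R ^ 2 - 1 / 2) * z - R ^ 2 * z ^ 3 / 3 + z ^ 5 / 10) (fun z _ => ?_) ?_
    · have d1 : HasDerivAt (fun z : ℝ => (R ^ 2 - 1 / 2) * z) ((R ^ 2 - 1 / 2) * 1) z :=
        (hasDerivAt_id z).const_mul _
      have d2 : HasDerivAt (fun z : ℝ => R ^ 2 * z ^ 3 / 3) (R ^ 2 * (3 * z ^ 2) / 3) z := by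
        have := ((hasDerivAt_pow 3 z).const_mul (R ^ 2)).div_const 3
        simpa using this
      have d3 : HasDerivAt (fun z : ℝ => z ^ 5 / 10) (5 * z ^ 4 / 10) z := by
        have := (hasDerivAt_pow 5 z).div_const 10
        simpa using this
      refine ((d1.sub d2).add d3).congr_deriv ?_
      ring
    · exact (by fun_prop : Continuous fun z : ℝ =>
        (R ^ 2 - 1 / 2) - R ^ 2 * z ^ 2 + z ^ 4 / 2).intervalIntegrable _ _
  have h3 : (∫ z in (1 / R)..R, (((R - z) / √(R ^ 2 - 1)) ^ 2 * (R ^ 2 - z ^ 2)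
      - ((2 : ℕ) : ℝ) / (((2 : ℕ) : ℝ) + 2) * ((R - z) / √(R ^ 2 - 1)) ^ (2 + 2))) =
      ∫ z in (1 / R)..R, ((2 * R * (R - z) ^ 3 - (R - z) ^ 4) / q - (R - z) ^ 4 / (2 * q ^ 2)) := by
    refine intervalIntegral.integral_congr fun z _ => ?_
    have e0 : √(R ^ 2 - 1) ^ 2 = q := by
      rw [← hq]
      exact Real.sq_sqrt hq0.le
    have e1 : ((R - z) / √(R ^ 2 - 1)) ^ 2 = (R - z) ^ 2 / q := by
      rw [div_pow, e0]
    have e2 : ((R - z) / √(R ^ 2 - 1)) ^ (2 + 2) = (R - z) ^ 4 / q ^ 2 := by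
      rw [pow_add, e1]
      field_simp
    simp only [e1, e2]
    push_cast
    field_simp
    ring
  have h4 : (∫ z in (1 / R)..R,
      ((2 * R * (R - z) ^ 3 - (R - z) ^ 4) / q - (R - z) ^ 4 / (2 * q ^ 2))) =
      (-((R * (R - R) ^ 4 / 2 - (R - R) ^ 5 / 5) / q) + (R - R) ^ 5 / (10 * q ^ 2)) -
      (-((R * (R - 1 / R) ^ 4 / 2 - (R - 1 / R) ^ 5 / 5) / q) +
        (R - 1 / R) ^ 5 / (10 * q ^ 2)) := by
    refine intervalIntegral.integral_eq_sub_of_hasDerivAt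
      (f := fun z : ℝ => -((R * (R - z) ^ 4 / 2 - (R - z) ^ 5 / 5) / q) +
        (R - z) ^ 5 / (10 * q ^ 2)) (fun z _ => ?_) ?_
    · have d0 : HasDerivAt (fun z : ℝ => R - z) (-1) z := by
        simpa using (hasDerivAt_id z).const_sub R
      have d1 : HasDerivAt (fun z : ℝ => (R - z) ^ 4) (4 * (R - z) ^ 3 * (-1)) z := by
        simpa using d0.fun_pow 4
      have d2 : HasDerivAt (fun z : ℝ => (R - z) ^ 5) (5 * (R - z) ^ 4 * (-1)) z := by
        simpa using d0.fun_pow 5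
      have d3 : HasDerivAt (fun z : ℝ => R * (R - z) ^ 4 / 2)
          (R * (4 * (R - z) ^ 3 * (-1)) / 2) z := (d1.const_mul R).div_const 2
      have d4 : HasDerivAt (fun z : ℝ => (R - z) ^ 5 / 5) (5 * (R - z) ^ 4 * (-1) / 5) z :=
        d2.div_const 5
      have d5 : HasDerivAt (fun z : ℝ => (R - z) ^ 5 / (10 * q ^ 2))
          (5 * (R - z) ^ 4 * (-1) / (10 * q ^ 2)) z := d2.div_const _
      refine ((((d3.sub d4).div_const q).neg).add d5).congr_deriv ?_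
      field_simp
      ring
    · exact (by fun_prop : Continuous fun z : ℝ =>
        (2 * R * (R - z) ^ 3 - (R - z) ^ 4) / q - (R - z) ^ 4 / (2 * q ^ 2)).intervalIntegrable _ _
  rw [delta, h1, h2, h3, h4]
  have e1 : R - 1 / R = q / R := by
    rw [hq]
    field_simp
  rw [e1, sub_self]
  have e2 : R ^ 2 = q + 1 := by rw [hq]; ring
  field_simp
  rw [hq]
  ring

end BM939
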