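import Pool.Agent.Lib.MP_939ffc_anC.Defs

open MeasureTheory Set Metric Filter Topology
open scoped ENNReal NNReal Pointwise
open Pool.Agent.Lib.MP_deb14e_an Pool.Agent.MPdeb14eM

namespace BM939

/-- The cone part of `delta` in closed form (substitute `w = R - z`; `L = (R^2-1)/R`). -/
theorem cone_part {m : ℕ} {R : ℝ} (hR : 1 < R) :
    ∫ z in (1 / R)..R, (((R - z) / √(R ^ 2 - 1)) ^ m * (R ^ 2 - z ^ 2)
      - (m : ℝ) / (m + 2) * ((R - z) / √(R ^ 2 - 1)) ^ (m + 2)) =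
    √(R ^ 2 - 1) ^ (m + 4) / R ^ (m + 1) *
      (2 / ((m : ℝ) + 2) - (R ^ 2 - 1 + (m : ℝ) / (m + 2)) / (R ^ 2 * (m + 3))) := by
  have hR0 : (0 : ℝ) < R := by linarith
  have hs2 : 0 < R ^ 2 - 1 := by nlinarith
  set s : ℝ := √(R ^ 2 - 1) with hs
  have hs0 : 0 < s := Real.sqrt_pos.2 hs2
  have hsq : s ^ 2 = R ^ 2 - 1 := Real.sq_sqrt hs2.le
  have hs0' : s ≠ 0 := hs0.ne'
  have hR0' : R ≠ 0 := hR0.ne'
  have hm2 : (m : ℝ) + 2 ≠ 0 := by positivity
  have hm3 : (m : ℝ) + 3 ≠ 0 := by positivity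
  have e1 : ∀ z : ℝ, ((R - z) / s) ^ m * (R ^ 2 - z ^ 2)
      - (m : ℝ) / (m + 2) * ((R - z) / s) ^ (m + 2) =
      (fun w : ℝ => 2 * R / s ^ m * w ^ (m + 1)
        - (1 / s ^ m + (m : ℝ) / (m + 2) / s ^ (m + 2)) * w ^ (m + 2)) (R - z) := by
    intro z
    have h1 : R ^ 2 - z ^ 2 = 2 * R * (R - z) - (R - z) ^ 2 := by ring
    rw [h1]
    generalize R - z = w
    simp only [div_pow]
    field_simp
    ring
  rw [intervalIntegral.integral_congr (fun z _ => e1 z)]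
  rw [intervalIntegral.integral_comp_sub_left (a := 1 / R) (b := R)
    (fun w : ℝ => 2 * R / s ^ m * w ^ (m + 1)
        - (1 / s ^ m + (m : ℝ) / (m + 2) / s ^ (m + 2)) * w ^ (m + 2)) R]
  have hi1 : IntervalIntegrable (fun w : ℝ => 2 * R / s ^ m * w ^ (m + 1)) volume (R - R)
      (R - 1 / R) := (by fun_prop : Continuous fun w : ℝ => 2 * R / s ^ m * w ^ (m + 1)).intervalIntegrable _ _
  have hi2 : IntervalIntegrable (fun w : ℝ => (1 / s ^ m + (m : ℝ) / (m + 2) / s ^ (m + 2)) * w ^ (m + 2))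
      volume (R - R) (R - 1 / R) :=
    (by fun_prop : Continuous fun w : ℝ =>
      (1 / s ^ m + (m : ℝ) / (m + 2) / s ^ (m + 2)) * w ^ (m + 2)).intervalIntegrable _ _
  rw [intervalIntegral.integral_sub hi1 hi2, intervalIntegral.integral_const_mul,
    intervalIntegral.integral_const_mul, integral_pow, integral_pow]
  have hL : R - 1 / R = s ^ 2 / R := by
    rw [hsq]
    field_simp
  rw [hL, sub_self]
  have hz1 : (0 : ℝ) ^ (m + 1 + 1) = 0 := by simp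
  have hz2 : (0 : ℝ) ^ (m + 2 + 1) = 0 := by simp
  rw [hz1, hz2, ← hsq]
  push_cast
  have hm11 : (m : ℝ) + 1 + 1 ≠ 0 := by positivity
  have hm21 : (m : ℝ) + 2 + 1 ≠ 0 := by positivity
  have e11 : (m : ℝ) + 1 + 1 = m + 2 := by ring
  have e21 : (m : ℝ) + 2 + 1 = m + 3 := by ring
  rw [e11, e21]
  simp only [div_pow]
  field_simp
  ring

end BM939
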