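import Pool.Agent.Lib.MP_939ffc_anC.Defs

open MeasureTheory Set Metric Filter Topology
open scoped ENNReal NNReal Pointwise
open Pool.Agent.Lib.MP_deb14e_an Pool.Agent.MPdeb14eM

namespace BM939

/-- The volume of the spike, divided by the volume of the unit ball of `ℝ^m`. -/
noncomputable def hh (m : ℕ) (R : ℝ) : ℝ := ∫ t in (1 : ℝ)..R, √(1 - 1 / t ^ 2) ^ m / ((m : ℝ) + 1)

theorem calcN2_sqrt {x : ℝ} (hx : 1 < x) : √(1 - 1 / x ^ 2) = √(x ^ 2 - 1) / x := by
  have hx0 : 0 < x := by linarith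
  have h1 : 1 - 1 / x ^ 2 = (x ^ 2 - 1) / x ^ 2 := by
    field_simp
  rw [h1, Real.sqrt_div' _ (by positivity), Real.sqrt_sq hx0.le]

theorem hh_eq {m : ℕ} {R : ℝ} (hR : 1 ≤ R) :
    hh m R = √(R ^ 2 - 1) ^ (m + 2) / (R ^ (m + 1) * ((m : ℝ) + 1)) - ∫ z in (1 / R)..1, √(1 - z ^ 2) ^ m := by
  have hg : Continuous fun z : ℝ => √(1 - z ^ 2) ^ m := by fun_prop
  have hm : (0 : ℝ) < (m : ℝ) + 1 := by positivity
  set P : ℝ → ℝ := fun x => ∫ z in (0 : ℝ)..x, √(1 - z ^ 2) ^ m with hP
  have hPd : ∀ x, HasDerivAt P (√(1 - x ^ 2) ^ m) x := fun x =>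
    (hg.integral_hasStrictDerivAt 0 x).hasDerivAt
  have hPc : Continuous P := continuous_iff_continuousAt.2 fun x => (hPd x).continuousAt
  have hint : ∀ a : ℝ, ∫ z in a..1, √(1 - z ^ 2) ^ m = P 1 - P a := by
    intro a
    rw [hP]
    exact (intervalIntegral.integral_interval_sub_left (hg.intervalIntegrable _ _)
      (hg.intervalIntegrable _ _)).symm
  set f : ℝ → ℝ := fun x => √(x ^ 2 - 1) ^ (m + 2) / (x ^ (m + 1) * ((m : ℝ) + 1)) -
    (P 1 - P (1 / x)) with hf
  have hcont : ContinuousOn f (Icc 1 R) := by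
    apply ContinuousOn.sub
    · apply ContinuousOn.div
      · fun_prop
      · fun_prop
      · intro x hx
        have : 0 < x := by linarith [hx.1]
        positivity
    · apply ContinuousOn.sub continuousOn_const
      apply hPc.comp_continuousOn
      apply ContinuousOn.div continuousOn_const continuousOn_id
      intro x hx
      have : 0 < x := by linarith [hx.1]
      exact this.ne'
  have hderiv : ∀ x ∈ Ioo (1 : ℝ) R, HasDerivAt f (√(1 - 1 / x ^ 2) ^ m / ((m : ℝ) + 1)) x := by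
    intro x hx
    have hx0 : 0 < x := by linarith [hx.1]
    have hpos : 0 < x ^ 2 - 1 := by nlinarith [hx.1]
    set s := √(x ^ 2 - 1) with hs
    have hs0 : 0 < s := Real.sqrt_pos.2 hpos
    have hss : s ^ 2 = x ^ 2 - 1 := Real.sq_sqrt hpos.le
    have d1 : HasDerivAt (fun y : ℝ => y ^ 2 - 1) (2 * x) x := by
      have := ((hasDerivAt_id x).pow 2).sub_const 1
      simpa using this
    have d2 : HasDerivAt (fun y : ℝ => √(y ^ 2 - 1)) (2 * x / (2 * s)) x :=
      d1.sqrt hpos.ne'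
    have d3 : HasDerivAt (fun y : ℝ => √(y ^ 2 - 1) ^ (m + 2))
        (((m + 2 : ℕ) : ℝ) * s ^ (m + 1) * (2 * x / (2 * s))) x := by
      have := d2.fun_pow (m + 2)
      simpa using this
    have d4 : HasDerivAt (fun y : ℝ => y ^ (m + 1) * ((m : ℝ) + 1))
        (((m + 1 : ℕ) : ℝ) * x ^ m * ((m : ℝ) + 1)) x := by
      have := (hasDerivAt_pow (m + 1) x).mul_const ((m : ℝ) + 1)
      simpa using this
    have hden : x ^ (m + 1) * ((m : ℝ) + 1) ≠ 0 := by positivity
    have d5 := d3.fun_div d4 hden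
    have d6 : HasDerivAt (fun y : ℝ => P (1 / y)) (√(1 - (1 / x) ^ 2) ^ m * (-1 / x ^ 2)) x := by
      have h1 : HasDerivAt (fun y : ℝ => 1 / y) (-1 / x ^ 2) x := by
        have := hasDerivAt_inv hx0.ne'
        simp only [one_div]
        exact this.congr_deriv (by rw [neg_div, one_div])
      exact (hPd (1 / x)).comp x h1
    have d7 := d5.fun_sub ((hasDerivAt_const x (P 1)).fun_sub d6)
    have e1 : √(1 - (1 / x) ^ 2) = s / x := by
      rw [show (1 / x) ^ 2 = 1 / x ^ 2 by ring, calcN2_sqrt hx.1]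
    rw [e1] at d7
    rw [calcN2_sqrt hx.1]
    refine d7.congr_deriv ?_
    have hx1 : x ^ 2 = s ^ 2 + 1 := by linarith
    rw [← hs, div_pow, pow_succ s m, show s ^ (m + 2) = s ^ m * s ^ 2 by rw [pow_add],
      pow_succ x m]
    have hsm : s ^ m ≠ 0 := pow_ne_zero _ hs0.ne'
    have hxm : x ^ m ≠ 0 := pow_ne_zero _ hx0.ne'
    push_cast
    field_simp
    linear_combination (-((m : ℝ) + 1) * s ^ m) * hss
  have hint2 : IntervalIntegrable (fun x : ℝ => √(1 - 1 / x ^ 2) ^ m / ((m : ℝ) + 1)) volume 1 R := by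
    apply ContinuousOn.intervalIntegrable
    rw [uIcc_of_le hR]
    apply ContinuousOn.div_const
    apply ContinuousOn.pow
    apply ContinuousOn.sqrt
    apply ContinuousOn.sub continuousOn_const
    apply ContinuousOn.div continuousOn_const (by fun_prop)
    intro x hx
    have : 0 < x := by linarith [hx.1]
    positivity
  have key := intervalIntegral.integral_eq_sub_of_hasDerivAt_of_le hR hcont hderiv hint2
  rw [hh, key, hint, hf]
  simp

end BM939
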