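import Pool.Agent.Lib.MP_939ffc_anC.Defs

open MeasureTheory Set Metric Filter Topology
open scoped ENNReal NNReal Pointwise
open Pool.Agent.Lib.MP_deb14e_an Pool.Agent.MPdeb14eM

namespace BM939

private theorem vj_eq (m : ℕ) : J m = ∫ x in (0 : ℝ)..Real.pi, Real.sin x ^ (m + 1) := by
  have h := intervalIntegral.integral_comp_mul_deriv (a := 0) (b := Real.pi)
    (f := fun x => -Real.cos x) (f' := fun x => Real.sin x)
    (g := fun z : ℝ => √(1 - z ^ 2) ^ m)
    (fun x _ => by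
      have := (Real.hasDerivAt_cos x).neg
      rwa [neg_neg] at this)
    Real.continuous_sin.continuousOn
    (by fun_prop)
  have h1 : J m = ∫ z in (-Real.cos 0)..(-Real.cos Real.pi), √(1 - z ^ 2) ^ m := by
    rw [Real.cos_zero, Real.cos_pi, neg_neg, J]
  rw [h1, ← h]
  refine intervalIntegral.integral_congr fun x hx => ?_
  rw [uIcc_of_le Real.pi_pos.le] at hx
  have h2 : 0 ≤ Real.sin x := Real.sin_nonneg_of_nonneg_of_le_pi hx.1 hx.2
  have h3 : √(1 - (-Real.cos x) ^ 2) = Real.sin x := by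
    rw [neg_sq, ← Real.sin_sq, Real.sqrt_sq h2]
  change √(1 - (-Real.cos x) ^ 2) ^ m * Real.sin x = Real.sin x ^ (m + 1)
  rw [h3, pow_succ]

theorem J_pos (m : ℕ) : 0 < J m := by
  rw [vj_eq]
  exact integral_sin_pow_pos _

private theorem vj_step (n : ℕ) : ∫ x in (0 : ℝ)..Real.pi, Real.sin x ^ (n + 2) =
    ((n : ℝ) + 1) / (n + 2) * ∫ x in (0 : ℝ)..Real.pi, Real.sin x ^ n := by
  rw [integral_sin_pow]
  simp

/-- Integration by parts (or `integral_sin_pow`). -/
theorem J_add_two (m : ℕ) : J (m + 2) = ((m : ℝ) + 2) / (m + 3) * J m := by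
  rw [vj_eq, vj_eq]
  have h := vj_step (m + 1)
  have e : m + 2 + 1 = m + 1 + 2 := by ring
  rw [e, h]
  push_cast
  ring_nf

theorem J_two : J 2 = 4 / 3 := by
  have h := J_add_two 0
  have h0 : J 0 = 2 := by
    rw [J]
    simp
    norm_num
  rw [zero_add] at h
  rw [h, h0]
  norm_num

private theorem vj_prod (n : ℕ) : ((n : ℝ) + 1) * (∫ x in (0 : ℝ)..Real.pi, Real.sin x ^ (n + 1)) *
    (∫ x in (0 : ℝ)..Real.pi, Real.sin x ^ n) = 2 * Real.pi := by
  induction n with
  | zero =>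
    simp
    norm_num
  | succ n ih =>
    have h := vj_step n
    have e : n + 1 + 1 = n + 2 := by ring
    rw [e, h]
    push_cast
    rw [← ih]
    have : (n : ℝ) + 2 ≠ 0 := by positivity
    field_simp
    ring

/-- Wallis: `(m + 2) J (m+1) J m = (m + 1) J m J (m-1) = ... = 2 π` and `J` is antitone. -/
theorem J_sq_le (m : ℕ) : J m ^ 2 ≤ 2 * Real.pi / (m + 1) := by
  have h1 := vj_prod m
  have h2 : (∫ x in (0 : ℝ)..Real.pi, Real.sin x ^ (m + 1)) ≤
      ∫ x in (0 : ℝ)..Real.pi, Real.sin x ^ m := integral_sin_pow_succ_le _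
  have h3 := J_pos m
  rw [vj_eq] at h3 ⊢
  rw [le_div_iff₀ (by positivity), ← h1]
  nlinarith [mul_le_mul_of_nonneg_left h2 h3.le, (Nat.cast_nonneg m : (0 : ℝ) ≤ m)]

end BM939
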