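import Pool.Agent.Lib.MP_939ffc_anC.CalcN2
import Pool.Agent.Lib.MP_939ffc_anC.CalcN1
import Pool.Agent.Lib.MP_939ffc_anC.VolJ

open MeasureTheory Set Metric Filter Topology
open scoped ENNReal NNReal Pointwise
open Pool.Agent.Lib.MP_deb14e_an Pool.Agent.MPdeb14eM

namespace BM939

private noncomputable def dq_P (m : ℕ) (x : ℝ) : ℝ := ∫ z in (-1 : ℝ)..x, √(1 - z ^ 2) ^ m

private lemma dq_cont (m : ℕ) : Continuous fun z : ℝ => √(1 - z ^ 2) ^ m := by fun_prop

private lemma dq_P_deriv (m : ℕ) (x : ℝ) : HasDerivAt (dq_P m) (√(1 - x ^ 2) ^ m) x :=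
  intervalIntegral.integral_hasDerivAt_right ((dq_cont m).intervalIntegrable _ _)
    ((dq_cont m).stronglyMeasurableAtFilter _ _) (dq_cont m).continuousAt

private lemma dq_P_cont (m : ℕ) : Continuous (dq_P m) :=
  continuous_iff_continuousAt.2 fun x => (dq_P_deriv m x).continuousAt

private lemma dq_P_one (m : ℕ) : dq_P m 1 = J m := rfl

private lemma dq_first (m : ℕ) (R x : ℝ) (hx : -1 ≤ x) (hx1 : x ≤ 1) :
    ∫ z in (-1 : ℝ)..x, (√(1 - z ^ 2) ^ m * (R ^ 2 - z ^ 2)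
      - (m : ℝ) / (m + 2) * √(1 - z ^ 2) ^ (m + 2)) =
    (R ^ 2 - 1) * dq_P m x + 2 / ((m : ℝ) + 2) * dq_P (m + 2) x := by
  rw [dq_P, dq_P, ← intervalIntegral.integral_const_mul, ← intervalIntegral.integral_const_mul,
    ← intervalIntegral.integral_add]
  · refine intervalIntegral.integral_congr fun z hz => ?_
    rw [Set.uIcc_of_le hx] at hz
    have h1 : √(1 - z ^ 2) ^ 2 = 1 - z ^ 2 := Real.sq_sqrt (by nlinarith [hz.1, hz.2])
    rw [pow_add, h1]
    have hm : (m : ℝ) + 2 ≠ 0 := by positivity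
    field_simp
    ring
  · exact (continuous_const.mul (dq_cont m)).intervalIntegrable _ _
  · exact (continuous_const.mul (dq_cont (m + 2))).intervalIntegrable _ _

private noncomputable def dq_G (m : ℕ) (t : ℝ) : ℝ :=
  (t ^ 2 - 1) * dq_P m (1 / t) + 2 / ((m : ℝ) + 2) * dq_P (m + 2) (1 / t) +
   √(t ^ 2 - 1) ^ (m + 4) * (((m : ℝ) + 4) * t ^ 2 + 2) / t ^ (m + 3) / (((m : ℝ) + 2) * (m + 3))

private noncomputable def dq_g (m : ℕ) (t : ℝ) : ℝ :=
  2 * t * dq_P m (1 / t) + 2 * √(t ^ 2 - 1) ^ (m + 2) / (t ^ m * ((m : ℝ) + 1)) +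
    (m : ℝ) * (m + 5) / ((m + 1) * (m + 2) * (m + 3)) * (t ^ 2 - 1) * √(1 - 1 / t ^ 2) ^ m

private lemma dq_deriv (m : ℕ) {t : ℝ} (ht : 1 < t) : HasDerivAt (dq_G m) (dq_g m t) t := by
  have ht0 : 0 < t := by linarith
  have hw : 0 < t ^ 2 - 1 := by nlinarith
  obtain ⟨w, hwd⟩ : ∃ w, w = √(t ^ 2 - 1) := ⟨_, rfl⟩
  have hw0 : 0 < w := by rw [hwd]; exact Real.sqrt_pos.2 hw
  have hw2 : w ^ 2 = t ^ 2 - 1 := by rw [hwd]; exact Real.sq_sqrt hw.le
  have hσ : √(1 - 1 / t ^ 2) = w / t := by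
    rw [show 1 - 1 / t ^ 2 = (t ^ 2 - 1) / t ^ 2 by field_simp, Real.sqrt_div hw.le,
      Real.sqrt_sq ht0.le, hwd]
  have hσ' : √(1 - (1 / t) ^ 2) = w / t := by rw [div_pow, one_pow]; exact hσ
  have d1 : HasDerivAt (fun t : ℝ => 1 / t) (-1 / t ^ 2) t := by
    have h1 := hasDerivAt_inv ht0.ne'
    have h2 : (fun t : ℝ => 1 / t) = fun t => t⁻¹ := funext fun t => one_div t
    rw [h2]
    refine h1.congr_deriv ?_
    field_simp
  have d2 : ∀ k : ℕ, HasDerivAt (fun t => dq_P k (1 / t)) ((w / t) ^ k * (-1 / t ^ 2)) t := by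
    intro k
    have h1 := (dq_P_deriv k (1 / t)).comp t d1
    rw [hσ'] at h1
    exact h1
  have d4 : HasDerivAt (fun t : ℝ => t ^ 2 - 1) (2 * t) t := by
    simpa using (hasDerivAt_pow 2 t).sub_const 1
  have d5 : HasDerivAt (fun t => √(t ^ 2 - 1)) (t / w) t := by
    refine (d4.sqrt hw.ne').congr_deriv ?_
    rw [← hwd]
    field_simp
  have d6 : HasDerivAt (fun t => √(t ^ 2 - 1) ^ (m + 4))
      (((m : ℝ) + 4) * (w ^ m * (t ^ 2 - 1)) * t) t := by
    refine (d5.fun_pow (m + 4)).congr_deriv ?_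
    rw [← hwd, ← hw2, show m + 4 - 1 = m + 3 by omega, pow_add]
    push_cast
    field_simp
  have d7 : HasDerivAt (fun t : ℝ => ((m : ℝ) + 4) * t ^ 2 + 2) (((m : ℝ) + 4) * (2 * t)) t := by
    simpa using ((hasDerivAt_pow 2 t).const_mul ((m : ℝ) + 4)).add_const 2
  have d8 : HasDerivAt (fun t : ℝ => t ^ (m + 3)) (((m : ℝ) + 3) * (t ^ m * t ^ 2)) t := by
    refine (hasDerivAt_pow (m + 3) t).congr_deriv ?_
    rw [show m + 3 - 1 = m + 2 by omega, pow_add]
    push_cast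
    ring
  have d := ((d4.fun_mul (d2 m)).fun_add ((d2 (m + 2)).const_mul (2 / ((m : ℝ) + 2)))).fun_add
    (((d6.fun_mul d7).fun_div d8 (pow_pos ht0 _).ne').div_const (((m : ℝ) + 2) * (m + 3)))
  refine (HasDerivAt.congr_deriv (f := dq_G m) d ?_)
  rw [dq_g, hσ, ← hwd, show m + 4 = m + 2 + 2 by omega, pow_add w (m + 2), pow_add w m, hw2,
    div_pow w t (m + 2), pow_add w m, hw2, div_pow w t m, pow_add t m 2, pow_add t m 3]
  have hT : t ^ m ≠ 0 := (pow_pos ht0 _).ne'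
  have h2 : (m : ℝ) + 2 ≠ 0 := by positivity
  have h3 : (m : ℝ) + 3 ≠ 0 := by positivity
  have h4 : (m : ℝ) + 1 ≠ 0 := by positivity
  generalize w ^ m = W at *
  generalize t ^ m = T at *
  generalize dq_P m (1 / t) = p at *
  field_simp
  ring

private lemma dq_G_cont (m : ℕ) (R : ℝ) : ContinuousOn (dq_G m) (Icc 1 R) := by
  have hne : ∀ t ∈ Icc (1 : ℝ) R, t ≠ 0 := fun t ht => by
    have := ht.1
    intro h
    linarith
  have hi : ContinuousOn (fun t : ℝ => 1 / t) (Icc 1 R) :=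
    continuousOn_const.div continuousOn_id hne
  have hP : ∀ k, ContinuousOn (fun t : ℝ => dq_P k (1 / t)) (Icc 1 R) := fun k =>
    (dq_P_cont k).comp_continuousOn hi
  have h1 : Continuous (fun t : ℝ => √(t ^ 2 - 1) ^ (m + 4) * (((m : ℝ) + 4) * t ^ 2 + 2)) := by
    fun_prop
  have h2 : ContinuousOn (fun t : ℝ => √(t ^ 2 - 1) ^ (m + 4) * (((m : ℝ) + 4) * t ^ 2 + 2) /
      t ^ (m + 3)) (Icc 1 R) :=
    h1.continuousOn.div (by fun_prop) fun t ht => pow_ne_zero _ (hne t ht)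
  have h3 : Continuous (fun t : ℝ => t ^ 2 - 1) := by fun_prop
  exact ((h3.continuousOn.mul (hP m)).add (continuousOn_const.mul (hP (m + 2)))).add
    (h2.div_const _)

private lemma dq_g_cont (m : ℕ) (R : ℝ) : ContinuousOn (dq_g m) (Icc 1 R) := by
  have hne : ∀ t ∈ Icc (1 : ℝ) R, t ≠ 0 := fun t ht => by
    have := ht.1
    intro h
    linarith
  have hi : ContinuousOn (fun t : ℝ => 1 / t) (Icc 1 R) :=
    continuousOn_const.div continuousOn_id hne
  have hP : ContinuousOn (fun t : ℝ => dq_P m (1 / t)) (Icc 1 R) :=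
    (dq_P_cont m).comp_continuousOn hi
  have h1 : Continuous (fun t : ℝ => 2 * √(t ^ 2 - 1) ^ (m + 2)) := by fun_prop
  have h2 : ContinuousOn (fun t : ℝ => 2 * √(t ^ 2 - 1) ^ (m + 2) / (t ^ m * ((m : ℝ) + 1)))
      (Icc 1 R) :=
    h1.continuousOn.div (by fun_prop) fun t ht =>
      mul_ne_zero (pow_ne_zero _ (hne t ht)) (by positivity)
  have h3 : ContinuousOn (fun t : ℝ => 1 - 1 / t ^ 2) (Icc 1 R) :=
    continuousOn_const.sub (continuousOn_const.div (by fun_prop) fun t ht =>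
      pow_ne_zero _ (hne t ht))
  have h4 : ContinuousOn (fun t : ℝ => √(1 - 1 / t ^ 2) ^ m) (Icc 1 R) :=
    (Real.continuous_sqrt.comp_continuousOn h3).pow m
  have h5 : Continuous (fun t : ℝ => 2 * t) := by fun_prop
  have h6 : Continuous (fun t : ℝ =>
      (m : ℝ) * (m + 5) / ((m + 1) * (m + 2) * (m + 3)) * (t ^ 2 - 1)) := by fun_prop
  exact ((h5.continuousOn.mul hP).add h2).add (h6.continuousOn.mul h4)

/-- Both sides have the same derivative and are equal at `R = 1`. -/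
theorem delta_eq {m : ℕ} (hm : 1 ≤ m) {R : ℝ} (hR : 1 < R) :
    delta m R = J m * (R ^ 2 - ((m : ℝ) + 1) / (m + 3)) +
      ∫ t in (1 : ℝ)..R, (2 * t * hh m t +
        (m : ℝ) * (m + 5) / ((m + 1) * (m + 2) * (m + 3)) * (t ^ 2 - 1) * √(1 - 1 / t ^ 2) ^ m) := by
  have hR0 : 0 < R := by linarith
  have h2 : (m : ℝ) + 2 ≠ 0 := by positivity
  have h3 : (m : ℝ) + 3 ≠ 0 := by positivity
  have hd : delta m R = dq_G m R := by
    rw [delta, dq_first m R (1 / R) (by linarith [one_div_pos.2 hR0])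
      ((div_le_one hR0).2 hR.le), cone_part hR, dq_G]
    congr 1
    rw [show m + 3 = m + 1 + 2 by omega, pow_add R (m + 1) 2]
    have hT : R ^ (m + 1) ≠ 0 := (pow_pos hR0 _).ne'
    generalize R ^ (m + 1) = T at *
    generalize √(R ^ 2 - 1) ^ (m + 4) = W at *
    field_simp
    ring
  have h1 : dq_G m 1 = J m * (2 / ((m : ℝ) + 3)) := by
    have e : √((1 : ℝ) ^ 2 - 1) ^ (m + 4) = 0 := by
      rw [one_pow, sub_self, Real.sqrt_zero]
      exact zero_pow (by omega)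
    rw [dq_G, e, div_one, dq_P_one m, dq_P_one (m + 2), J_add_two]
    field_simp
    ring
  have hF := intervalIntegral.integral_eq_sub_of_hasDerivAt_of_le hR.le (dq_G_cont m R)
    (fun t ht => dq_deriv m ht.1)
    (ContinuousOn.intervalIntegrable (by rw [uIcc_of_le hR.le]; exact dq_g_cont m R))
  have hJ : ∫ t in (1 : ℝ)..R, 2 * t * J m = J m * (R ^ 2 - 1) := by
    rw [intervalIntegral.integral_mul_const, intervalIntegral.integral_const_mul, integral_id]
    ring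
  have hc : ∫ t in (1 : ℝ)..R, (2 * t * hh m t +
        (m : ℝ) * (m + 5) / ((m + 1) * (m + 2) * (m + 3)) * (t ^ 2 - 1) * √(1 - 1 / t ^ 2) ^ m) =
      ∫ t in (1 : ℝ)..R, (dq_g m t - 2 * t * J m) := by
    refine intervalIntegral.integral_congr fun t ht => ?_
    rw [uIcc_of_le hR.le] at ht
    have ht0 : 0 < t := by linarith [ht.1]
    have e : ∫ z in (1 / t)..1, √(1 - z ^ 2) ^ m = J m - dq_P m (1 / t) := by
      rw [J, dq_P]
      exact (intervalIntegral.integral_interval_sub_left ((dq_cont m).intervalIntegrable _ _)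
        ((dq_cont m).intervalIntegrable _ _)).symm
    rw [hh_eq ht.1, e, dq_g, pow_succ t m]
    have hT : t ^ m ≠ 0 := (pow_pos ht0 _).ne'
    have h4 : (m : ℝ) + 1 ≠ 0 := by positivity
    generalize t ^ m = T at *
    generalize √(t ^ 2 - 1) ^ (m + 2) = W at *
    generalize √(1 - 1 / t ^ 2) ^ m = V at *
    generalize dq_P m (1 / t) = p at *
    field_simp
    ring
  rw [hc, intervalIntegral.integral_sub, hF, hJ, ← hd, h1]
  · field_simp
    ring
  · exact ContinuousOn.intervalIntegrable (by rw [uIcc_of_le hR.le]; exact dq_g_cont m R)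
  · exact Continuous.intervalIntegrable (by fun_prop) _ _

end BM939
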