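import Pool.Agent.Lib.MP_939ffc_anC.CalcN2

open MeasureTheory Set Metric Filter Topology
open scoped ENNReal NNReal Pointwise
open Pool.Agent.Lib.MP_deb14e_an Pool.Agent.MPdeb14eM

namespace BM939

private theorem calcN3_cont {m : ℕ} {a b : ℝ} (ha : 1 ≤ a) (hab : a ≤ b) :
    IntervalIntegrable (fun t : ℝ => √(1 - 1 / t ^ 2) ^ m / ((m : ℝ) + 1)) volume a b := by
  apply ContinuousOn.intervalIntegrable
  rw [uIcc_of_le hab]
  have h1 : ∀ t ∈ Icc a b, t ^ 2 ≠ 0 := by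
    intro t ht
    have : 0 < t := by linarith [ht.1]
    positivity
  have h2 : ContinuousOn (fun t : ℝ => 1 - 1 / t ^ 2) (Icc a b) :=
    continuousOn_const.sub (continuousOn_const.div (continuousOn_id.pow 2) h1)
  exact ((h2.sqrt).pow m).div_const _

theorem hh_nonneg {m : ℕ} {R : ℝ} (hR : 1 ≤ R) : 0 ≤ hh m R := by
  unfold hh
  apply intervalIntegral.integral_nonneg hR
  intro t _
  positivity

/-- Bernoulli: `√(1 - 1/t²)^m = (1 - 1/t²)^(m/2) ≥ 1 - m / (2 t²)`. -/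
theorem pow_ge {m : ℕ} (hm : 2 ≤ m) {t : ℝ} (ht : 1 ≤ t) :
    1 - (m : ℝ) / (2 * t ^ 2) ≤ √(1 - 1 / t ^ 2) ^ m := by
  have ht0 : 0 < t := by linarith
  have hm2 : (2 : ℝ) ≤ m := by exact_mod_cast hm
  have ha : 1 / t ^ 2 ≤ 1 := by
    rw [div_le_one (by positivity)]
    nlinarith
  have h1 := one_add_mul_self_le_rpow_one_add (s := -(1 / t ^ 2)) (by linarith)
    (p := (m : ℝ) / 2) (by linarith)
  have h2 : (1 + -(1 / t ^ 2)) ^ ((m : ℝ) / 2) = √(1 - 1 / t ^ 2) ^ m := by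
    have hx : 0 ≤ 1 - 1 / t ^ 2 := by linarith
    generalize 1 / t ^ 2 = x at hx
    rw [← sub_eq_add_neg, Real.sqrt_eq_rpow, ← Real.rpow_natCast, ← Real.rpow_mul hx]
    congr 1
    ring
  rw [h2] at h1
  have h3 : 1 + (m : ℝ) / 2 * -(1 / t ^ 2) = 1 - (m : ℝ) / (2 * t ^ 2) := by
    field_simp
    ring
  rw [h3] at h1
  exact h1

/-- Integrate `pow_ge` over `[√(m/2), R]`, and the nonnegative integrand over `[1, √(m/2)]`. -/
theorem hh_ge {m : ℕ} (hm : 2 ≤ m) {R : ℝ} (hR : √((m : ℝ) / 2) ≤ R) :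
    (R + (m : ℝ) / (2 * R) - √(2 * m)) / ((m : ℝ) + 1) ≤ hh m R := by
  have hm2 : (2 : ℝ) ≤ m := by exact_mod_cast hm
  obtain ⟨c, hc⟩ : ∃ c : ℝ, c = √((m : ℝ) / 2) := ⟨_, rfl⟩
  rw [← hc] at hR
  have hc2 : c ^ 2 = (m : ℝ) / 2 := by
    rw [hc, Real.sq_sqrt (by positivity)]
  have hc1 : 1 ≤ c := by
    rw [hc, Real.le_sqrt (by norm_num) (by positivity)]
    linarith
  have hc0 : 0 < c := by linarith
  have hR0 : 0 < R := by linarith
  have hm1 : (0 : ℝ) < (m : ℝ) + 1 := by positivity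
  have hsq : √(2 * (m : ℝ)) = 2 * c := by
    rw [show (2 : ℝ) * m = (2 * c) ^ 2 by rw [mul_pow, hc2]; ring]
    exact Real.sqrt_sq (by linarith)
  have hsplit : hh m R = (∫ t in (1 : ℝ)..c, √(1 - 1 / t ^ 2) ^ m / ((m : ℝ) + 1)) +
      ∫ t in c..R, √(1 - 1 / t ^ 2) ^ m / ((m : ℝ) + 1) := by
    unfold hh
    exact (intervalIntegral.integral_add_adjacent_intervals (calcN3_cont le_rfl hc1)
      (calcN3_cont hc1 hR)).symm
  have h1 : 0 ≤ ∫ t in (1 : ℝ)..c, √(1 - 1 / t ^ 2) ^ m / ((m : ℝ) + 1) := by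
    apply intervalIntegral.integral_nonneg hc1
    intro t _
    positivity
  have hder : ∀ t ∈ uIcc c R, HasDerivAt (fun t : ℝ => (t + (m : ℝ) / (2 * t)) / ((m : ℝ) + 1))
      ((1 - (m : ℝ) / (2 * t ^ 2)) / ((m : ℝ) + 1)) t := by
    intro t ht
    rw [uIcc_of_le hR] at ht
    have ht0 : t ≠ 0 := by
      have := ht.1
      intro h0
      rw [h0] at this
      linarith
    have e1 : HasDerivAt (fun t : ℝ => (m : ℝ) / (2 * t)) (-(m : ℝ) / (2 * t ^ 2)) t := by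
      have e2 := ((hasDerivAt_inv ht0).const_mul ((m : ℝ) / 2))
      refine (e2.congr_deriv ?_).congr_of_eventuallyEq ?_
      · field_simp
      · refine Filter.Eventually.of_forall fun s => ?_
        show (m : ℝ) / (2 * s) = (m : ℝ) / 2 * s⁻¹
        rw [div_mul_eq_div_div, div_eq_mul_inv]
    have e3 := ((hasDerivAt_id t).add e1).div_const ((m : ℝ) + 1)
    refine e3.congr_deriv ?_
    rw [neg_div]
    ring
  have hcont : IntervalIntegrable (fun t : ℝ => (1 - (m : ℝ) / (2 * t ^ 2)) / ((m : ℝ) + 1))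
      volume c R := by
    apply ContinuousOn.intervalIntegrable
    rw [uIcc_of_le hR]
    have h1 : ∀ t ∈ Icc c R, 2 * t ^ 2 ≠ 0 := by
      intro t ht
      have : 0 < t := by linarith [ht.1]
      positivity
    exact (continuousOn_const.sub (continuousOn_const.div
      (continuousOn_const.mul (continuousOn_id.pow 2)) h1)).div_const _
  have hint := intervalIntegral.integral_eq_sub_of_hasDerivAt hder hcont
  have hmono : (∫ t in c..R, (1 - (m : ℝ) / (2 * t ^ 2)) / ((m : ℝ) + 1)) ≤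
      ∫ t in c..R, √(1 - 1 / t ^ 2) ^ m / ((m : ℝ) + 1) := by
    apply intervalIntegral.integral_mono_on hR hcont (calcN3_cont hc1 hR)
    intro t ht
    exact div_le_div_of_nonneg_right (pow_ge hm (by linarith [ht.1])) hm1.le
  rw [hint] at hmono
  have hfin : (R + (m : ℝ) / (2 * R) - √(2 * m)) / ((m : ℝ) + 1) =
      (R + (m : ℝ) / (2 * R)) / ((m : ℝ) + 1) - (c + (m : ℝ) / (2 * c)) / ((m : ℝ) + 1) := by
    have e4 : (m : ℝ) / (2 * c) = c := by
      rw [div_eq_iff (by positivity)]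
      nlinarith
    rw [hsq, e4]
    ring
  rw [hsplit, hfin]
  linarith

end BM939
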