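import Pool.Agent.Lib.MP_939ffc_anC.Defs

open MeasureTheory Set Metric Filter Topology
open scoped ENNReal NNReal Pointwise
open Pool.Agent.Lib.MP_deb14e_an Pool.Agent.MPdeb14eM

namespace BM939

private theorem le_of_sq_le_sq₀' {a b : ℝ} (h : a ^ 2 ≤ b ^ 2) (hb : 0 ≤ b) : a ≤ b :=
  le_of_abs_le (by
    have h1 := sq_le_sq.mp h
    rwa [abs_of_nonneg hb] at h1)

/-- The inequality for the derivatives, `n = m + 1 ≥ 4`. Numerically the difference of the two sides is at least 0.29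
(minimum for `m = 3` near `R = 4.64`; for `m ≥ 4` it is increasing in `R ≥ R₀` and at `R₀` the right side is zero).
For `m = 3` insert the numbers (`j ≤ 1.2534`, `R₀ = 1.8257`). -/
theorem real_ineq {m : ℕ} (hm : 3 ≤ m) {R R₀ j : ℝ} (hR0 : 0 < R₀)
    (hR1 : R₀ ^ 2 = ((m : ℝ) + 1) * (m + 2) / (m + 3)) (hR : R₀ ≤ R) (hj : 0 ≤ j)
    (hj2 : j ^ 2 ≤ 2 * Real.pi / ((m : ℝ) + 1)) :
    2 * j * (R / R₀ - 1) ≤ R + (m : ℝ) / (2 * R) - √(2 * m) +
      (m : ℝ) * (m + 5) / (2 * (m + 2) * (m + 3)) * (R - 1 / R) * (1 - (m : ℝ) / (2 * R ^ 2)) := by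
  have hM : (3 : ℝ) ≤ (m : ℝ) := by exact_mod_cast hm
  set M : ℝ := (m : ℝ) with hMdef
  have hM2 : 0 < M + 2 := by linarith
  have hM3 : 0 < M + 3 := by linarith
  have hM1 : 0 < M + 1 := by linarith
  have hRp : 0 < R := lt_of_lt_of_le hR0 hR
  set c : ℝ := M * (M + 5) / (2 * (M + 2) * (M + 3)) with hc
  set K : ℝ := 3 * (M + 1) * (M + 4) / (2 * (M + 2) * (M + 3)) with hK
  have hcK : 1 + c = K := by
    rw [hc, hK]
    field_simp
    ring
  have hc0 : 0 ≤ c := by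
    rw [hc]
    positivity
  have hc2 : c ≤ 1 / 2 := by
    rw [hc, div_le_iff₀ (by positivity)]
    nlinarith
  have hc5 : 2 / 5 ≤ c := by
    rw [hc, le_div_iff₀ (by positivity)]
    nlinarith
  have hK75 : 7 / 5 ≤ K := by linarith
  have hK0 : 0 ≤ K := by linarith
  have hR10 : 10 / 3 ≤ R₀ ^ 2 := by
    rw [hR1, le_div_iff₀ hM3]
    nlinarith
  have hpi : Real.pi < 3.1416 := Real.pi_lt_d4
  have hj3 : 2 * Real.pi / (M + 1) ≤ 1.5708 := by
    rw [div_le_iff₀ hM1]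
    nlinarith
  have hKR0 : 0 ≤ K * R₀ := mul_nonneg hK0 hR0.le
  have h1 : 2 * j ≤ K * R₀ := by
    have h49 : (49 / 25 : ℝ) ≤ K ^ 2 := by nlinarith
    have hsq : (2 * j) ^ 2 ≤ (K * R₀) ^ 2 := by
      rw [mul_pow, mul_pow]
      have h5 : (49 / 25 : ℝ) * (10 / 3) ≤ K ^ 2 * R₀ ^ 2 := by
        apply mul_le_mul h49 hR10 (by norm_num) (by positivity)
      nlinarith
    exact le_of_sq_le_sq₀' hsq hKR0
  have h2 : √(2 * M) ≤ K * R₀ := by
    rw [Real.sqrt_le_iff]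
    refine ⟨hKR0, ?_⟩
    rw [mul_pow, hR1, hK, div_pow, div_mul_div_comm, le_div_iff₀ (by positivity)]
    obtain ⟨t, ht, htM⟩ : ∃ t : ℝ, 0 ≤ t ∧ M = t + 3 := ⟨M - 3, by linarith, by ring⟩
    rw [htM]
    have hpos : 0 ≤ (3 * (t + 3 + 1) * (t + 3 + 4)) ^ 2 * ((t + 3 + 1) * (t + 3 + 2)) -
        2 * (t + 3) * ((2 * (t + 3 + 2) * (t + 3 + 3)) ^ 2 * (t + 3 + 3)) := by
      ring_nf
      positivity
    linarith
  have hrho : 0 ≤ R / R₀ - 1 := by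
    rw [sub_nonneg, le_div_iff₀ hR0]
    linarith
  have hKR : K * R = K * R₀ * (R / R₀) := by
    field_simp
  have hd : 0 ≤ M / 2 - c * (1 + M / 2) := by nlinarith
  have hexp : R + M / (2 * R) - √(2 * M) + c * (R - 1 / R) * (1 - M / (2 * R ^ 2)) =
      K * R + (M / 2 - c * (1 + M / 2)) / R + c * M / (2 * R ^ 3) - √(2 * M) := by
    rw [← hcK]
    field_simp
    ring
  rw [hexp]
  have h6 : 0 ≤ (M / 2 - c * (1 + M / 2)) / R := div_nonneg hd hRp.le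
  have h7 : 0 ≤ c * M / (2 * R ^ 3) := by positivity
  have h8 : 0 ≤ (K * R₀ - 2 * j) * (R / R₀ - 1) := mul_nonneg (by linarith) hrho
  rw [hKR]
  nlinarith

end BM939
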