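import Pool.Agent.Lib.MP_939ffc_anC.CalcN3
import Pool.Agent.Lib.MP_939ffc_anC.CalcN2b
import Pool.Agent.Lib.MP_939ffc_anC.Real1

open MeasureTheory Set Metric Filter Topology
open scoped ENNReal NNReal Pointwise
open Pool.Agent.Lib.MP_deb14e_an Pool.Agent.MPdeb14eM

namespace BM939

/-- The integrand of `delta_eq`. -/
private noncomputable def cn4g (m : ℕ) (t : ℝ) : ℝ :=
  2 * t * hh m t +
        (m : ℝ) * (m + 5) / ((m + 1) * (m + 2) * (m + 3)) * (t ^ 2 - 1) * √(1 - 1 / t ^ 2) ^ m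

private lemma cn4_pow_cont (m : ℕ) {a b : ℝ} (ha : 0 < a) :
    ContinuousOn (fun t : ℝ => √(1 - 1 / t ^ 2) ^ m) (Icc a b) := by
  have h : ContinuousOn (fun t : ℝ => 1 / t ^ 2) (Icc a b) := by
    apply ContinuousOn.div continuousOn_const (continuousOn_id.pow 2)
    intro t ht
    have : 0 < t := lt_of_lt_of_le ha ht.1
    show (id t) ^ 2 ≠ 0
    simp only [id]
    positivity
  exact ((Real.continuous_sqrt.comp_continuousOn (continuousOn_const.sub h))).pow m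

private lemma cn4_hh_cont (m : ℕ) {b : ℝ} (hb : 1 ≤ b) :
    ContinuousOn (fun t : ℝ => hh m t) (Icc 1 b) := by
  have h1 : ContinuousOn (fun t : ℝ => √(1 - 1 / t ^ 2) ^ m / ((m : ℝ) + 1)) (Icc 1 b) :=
    (cn4_pow_cont m one_pos).div_const _
  have h2 : IntegrableOn (fun t : ℝ => √(1 - 1 / t ^ 2) ^ m / ((m : ℝ) + 1)) (uIcc 1 b) := by
    rw [uIcc_of_le hb]
    exact h1.integrableOn_Icc
  have h3 := intervalIntegral.continuousOn_primitive_interval h2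
  rw [uIcc_of_le hb] at h3
  exact h3

private lemma cn4g_cont (m : ℕ) {b : ℝ} (hb : 1 ≤ b) :
    ContinuousOn (cn4g m) (Icc 1 b) := by
  unfold cn4g
  apply ContinuousOn.add
  · exact (continuousOn_const.mul continuousOn_id).mul (cn4_hh_cont m hb)
  · exact (continuousOn_const.mul ((continuousOn_id.pow 2).sub continuousOn_const)).mul
      (cn4_pow_cont m one_pos)

private lemma cn4_pointwise {m : ℕ} (hm : 3 ≤ m) {t R₀ : ℝ} (hR0 : 0 < R₀)
    (hR1 : R₀ ^ 2 = ((m : ℝ) + 1) * (m + 2) / (m + 3)) (hR : R₀ ≤ t) (h1 : 1 ≤ t)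
    (hs : √((m : ℝ) / 2) ≤ t) :
    2 * t * J m * ((t / R₀) ^ (2 / ((m : ℝ) + 1)) - 1) ≤ cn4g m t := by
  have hmR : (3 : ℝ) ≤ m := by exact_mod_cast hm
  have ht : 0 < t := by linarith
  have hJ := J_pos m
  have hJ2 := J_sq_le m
  have hre := real_ineq hm hR0 hR1 hR hJ.le hJ2
  have hhh := hh_ge (by omega : 2 ≤ m) hs
  have hpw := pow_ge (by omega : 2 ≤ m) h1
  have hp0 : (0 : ℝ) ≤ 2 / ((m : ℝ) + 1) := by positivity
  have hp1 : 2 / ((m : ℝ) + 1) ≤ 1 := by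
    rw [div_le_one (by positivity)]
    linarith
  have hx : 1 ≤ t / R₀ := by
    rw [le_div_iff₀ hR0]
    linarith
  have hbern : (t / R₀) ^ (2 / ((m : ℝ) + 1)) ≤ 1 + 2 / ((m : ℝ) + 1) * (t / R₀ - 1) := by
    have := _root_.rpow_one_add_le_one_add_mul_self (s := t / R₀ - 1) (by linarith) hp0 hp1
    have e : 1 + (t / R₀ - 1) = t / R₀ := by ring
    rw [e] at this
    exact this
  have hstep1 : 2 * t * J m * ((t / R₀) ^ (2 / ((m : ℝ) + 1)) - 1) ≤
      2 * t * J m * (2 / ((m : ℝ) + 1) * (t / R₀ - 1)) := by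
    apply mul_le_mul_of_nonneg_left
    · linarith
    · positivity
  have hm1 : (0 : ℝ) < (m : ℝ) + 1 := by positivity
  have hc : 0 ≤ 2 * t / ((m : ℝ) + 1) := by positivity
  have hstep2 := mul_le_mul_of_nonneg_left hre hc
  have ht1 : 0 ≤ t ^ 2 - 1 := by nlinarith
  have hA : 0 ≤ (m : ℝ) * (m + 5) / ((m + 1) * (m + 2) * (m + 3)) * (t ^ 2 - 1) := by
    apply mul_nonneg _ ht1
    positivity
  have hstep3 := mul_le_mul_of_nonneg_left hpw hA
  have hstep4 : 2 * t * ((t + (m : ℝ) / (2 * t) - √(2 * m)) / ((m : ℝ) + 1)) ≤ 2 * t * hh m t :=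
    mul_le_mul_of_nonneg_left hhh (by positivity)
  have e1 : 2 * t / ((m : ℝ) + 1) * (2 * J m * (t / R₀ - 1)) =
      2 * t * J m * (2 / ((m : ℝ) + 1) * (t / R₀ - 1)) := by
    field_simp
  have e2 : 2 * t / ((m : ℝ) + 1) * (t + (m : ℝ) / (2 * t) - √(2 * m) +
      (m : ℝ) * (m + 5) / (2 * (m + 2) * (m + 3)) * (t - 1 / t) * (1 - (m : ℝ) / (2 * t ^ 2))) =
      2 * t * ((t + (m : ℝ) / (2 * t) - √(2 * m)) / ((m : ℝ) + 1)) +
      (m : ℝ) * (m + 5) / ((m + 1) * (m + 2) * (m + 3)) * (t ^ 2 - 1) *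
        (1 - (m : ℝ) / (2 * t ^ 2)) := by
    generalize √(2 * (m : ℝ)) = q
    have hm2 : ((m : ℝ) + 2) ≠ 0 := by positivity
    have hm3 : ((m : ℝ) + 3) ≠ 0 := by positivity
    have ht0 : t ≠ 0 := ht.ne'
    field_simp
  rw [e1, e2] at hstep2
  unfold cn4g
  linarith

/-- PROOF: `R₀ = √((m+1)(m+2)/(m+3))`. Let `Ψ R = J m * ((m+1)/(m+2) * R^2 * (R/R₀)^(2/(m+1)) - R^2 + (m+1)/(m+3))`;
`Ψ R₀ = 0`, `Ψ' = 2 R J ((R/R₀)^(2/(m+1)) - 1) ≤ 2 R J * (2/(m+1)) (R/R₀ - 1)` (Bernoulli, exponent `≤ 1`), and by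
`delta_eq` `η R = delta m R - J m (R^2 - (m+1)/(m+3))` has `η R₀ ≥ 0`,
`η' = 2 R hh m R + m(m+5)/((m+1)(m+2)(m+3)) (R^2-1) √(1-1/R²)^m ≥ Ψ'` by `hh_ge`, `pow_ge`, `real_ineq`
(multiply `real_ineq` by `2 R / (m+1)`). -/
theorem delta_ge {m : ℕ} (hm : 3 ≤ m) {R R₀ : ℝ} (hR0 : 0 < R₀)
    (hR1 : R₀ ^ 2 = ((m : ℝ) + 1) * (m + 2) / (m + 3)) (hR : R₀ ≤ R) :
    J m * (((m : ℝ) + 1) / (m + 2) * R ^ 2 * (R / R₀) ^ (2 / ((m : ℝ) + 1))) ≤ delta m R := by
  have hmR : (3 : ℝ) ≤ m := by exact_mod_cast hm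
  have hm1 : (0 : ℝ) < (m : ℝ) + 1 := by positivity
  have hm2 : (0 : ℝ) < (m : ℝ) + 2 := by positivity
  have hm3 : (0 : ℝ) < (m : ℝ) + 3 := by positivity
  have hR01 : 1 < R₀ := by
    have : (1 : ℝ) < R₀ ^ 2 := by
      rw [hR1, lt_div_iff₀ hm3]
      nlinarith
    nlinarith
  have hsq : √((m : ℝ) / 2) ≤ R₀ := by
    rw [Real.sqrt_le_left hR0.le, hR1, div_le_div_iff₀ (by norm_num) hm3]
    nlinarith
  have hR' : 1 < R := by linarith
  have hRpos : 0 < R := by linarith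
  have hJ := J_pos m
  rw [delta_eq (by omega : 1 ≤ m) hR']
  have hcont := cn4g_cont m hR'.le
  have hint : ∀ a b : ℝ, 1 ≤ a → a ≤ b → b ≤ R → IntervalIntegrable (cn4g m) volume a b := by
    intro a b h1 h2 h3
    apply ContinuousOn.intervalIntegrable
    rw [uIcc_of_le h2]
    exact hcont.mono (Icc_subset_Icc h1 h3)
  have hsplit : (∫ t in (1 : ℝ)..R, cn4g m t) =
      (∫ t in (1 : ℝ)..R₀, cn4g m t) + ∫ t in R₀..R, cn4g m t :=
    (intervalIntegral.integral_add_adjacent_intervals (hint 1 R₀ le_rfl hR01.le hR)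
      (hint R₀ R hR01.le hR le_rfl)).symm
  have hfirst : 0 ≤ ∫ t in (1 : ℝ)..R₀, cn4g m t := by
    apply intervalIntegral.integral_nonneg hR01.le
    intro t ht
    have h0 := hh_nonneg (m := m) ht.1
    have h1 : 0 ≤ t ^ 2 - 1 := by nlinarith [ht.1]
    have h2 : 0 ≤ t := by linarith [ht.1]
    unfold cn4g
    positivity
  -- the comparison function
  have hderiv : ∀ t ∈ uIcc R₀ R, HasDerivAt
      (fun x : ℝ => J m * (((m : ℝ) + 1) / (m + 2) * x ^ 2 * (x / R₀) ^ (2 / ((m : ℝ) + 1)) - x ^ 2))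
      (2 * t * J m * ((t / R₀) ^ (2 / ((m : ℝ) + 1)) - 1)) t := by
    intro t ht
    rw [uIcc_of_le hR] at ht
    have htpos : 0 < t := by linarith [ht.1]
    have hq : 0 < t / R₀ := by positivity
    have d1 : HasDerivAt (fun x : ℝ => x / R₀) (1 / R₀) t := (hasDerivAt_id t).div_const R₀
    have d2 : HasDerivAt (fun x : ℝ => (x / R₀) ^ (2 / ((m : ℝ) + 1)))
        (1 / R₀ * (2 / ((m : ℝ) + 1)) * (t / R₀) ^ (2 / ((m : ℝ) + 1) - 1)) t :=
      d1.rpow_const (Or.inl hq.ne')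
    have d3 : HasDerivAt (fun x : ℝ => x ^ 2) (2 * t) t := by
      simpa using hasDerivAt_pow 2 t
    have d4 := ((((d3.const_mul (((m : ℝ) + 1) / (m + 2))).mul d2).sub d3).const_mul (J m))
    refine d4.congr_deriv ?_
    have hrp : (t / R₀) ^ (2 / ((m : ℝ) + 1) - 1) = (t / R₀) ^ (2 / ((m : ℝ) + 1)) / (t / R₀) :=
      Real.rpow_sub_one hq.ne' _
    rw [hrp]
    generalize (t / R₀) ^ (2 / ((m : ℝ) + 1)) = w
    field_simp
    ring
  have hcont2 : ContinuousOn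
      (fun t : ℝ => 2 * t * J m * ((t / R₀) ^ (2 / ((m : ℝ) + 1)) - 1)) (uIcc R₀ R) := by
    apply ContinuousOn.mul
    · exact (continuousOn_const.mul continuousOn_id).mul continuousOn_const
    · apply ContinuousOn.sub _ continuousOn_const
      apply ContinuousOn.rpow_const
      · exact continuousOn_id.div_const R₀
      · intro x hx
        rw [uIcc_of_le hR] at hx
        left
        have : 0 < x := by linarith [hx.1]
        positivity
  have hftc := intervalIntegral.integral_eq_sub_of_hasDerivAt hderiv hcont2.intervalIntegrable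
  have hmono : (∫ t in R₀..R, 2 * t * J m * ((t / R₀) ^ (2 / ((m : ℝ) + 1)) - 1)) ≤
      ∫ t in R₀..R, cn4g m t := by
    apply intervalIntegral.integral_mono_on hR hcont2.intervalIntegrable
      (hint R₀ R hR01.le hR le_rfl)
    intro t ht
    exact cn4_pointwise hm hR0 hR1 ht.1 (by linarith [ht.1]) (by linarith [ht.1])
  have hzero : (R₀ / R₀ : ℝ) = 1 := div_self hR0.ne'
  rw [hftc] at hmono
  simp only [hzero, Real.one_rpow, mul_one] at hmono
  have hval : ((m : ℝ) + 1) / (m + 2) * R₀ ^ 2 - R₀ ^ 2 = - (((m : ℝ) + 1) / (m + 3)) := by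
    rw [hR1]
    field_simp
    ring
  rw [hval] at hmono
  have hg : (∫ t in (1 : ℝ)..R, (2 * t * hh m t +
        (m : ℝ) * (m + 5) / ((m + 1) * (m + 2) * (m + 3)) * (t ^ 2 - 1) * √(1 - 1 / t ^ 2) ^ m)) =
      ∫ t in (1 : ℝ)..R, cn4g m t := rfl
  rw [hg, hsplit]
  have e : J m * (((m : ℝ) + 1) / (m + 2) * R ^ 2 * (R / R₀) ^ (2 / ((m : ℝ) + 1)) - R ^ 2) =
      J m * (((m : ℝ) + 1) / (m + 2) * R ^ 2 * (R / R₀) ^ (2 / ((m : ℝ) + 1))) - J m * R ^ 2 := by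
    ring
  rw [e] at hmono
  have e2 : J m * (R ^ 2 - ((m : ℝ) + 1) / (m + 3)) = J m * R ^ 2 - J m * (((m : ℝ) + 1) / (m + 3)) := by
    ring
  rw [e2]
  linarith

end BM939
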