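import Pool.Agent.Lib.MP_939ffc_anC.Defs
import Pool.Agent.Lib.MP_deb14e_anM.Haus

open MeasureTheory Set Metric Filter Topology
open scoped ENNReal NNReal Pointwise
open Pool.Agent.Lib.MP_deb14e_an Pool.Agent.MPdeb14eM

namespace BM939

private theorem cone1_isometry {d : ℕ} (c : ℝ) : Isometry (cons c : E d → E (d + 1)) := by
  refine Isometry.of_dist_eq fun y y' => ?_
  rw [EuclideanSpace.dist_eq, EuclideanSpace.dist_eq, Fin.sum_univ_succ]
  simp only [cons_zero, cons_succ, dist_self]
  norm_num

private theorem cone1_haus (d : ℕ) : (Measure.hausdorffMeasure (d : ℝ) : Measure (E d)) =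
    ENNReal.ofReal (kap d) • (volume : Measure (E d)) := by
  ext A _
  rw [hausdorff_eq, Measure.smul_apply, smul_eq_mul]

/-- The Hausdorff measure on the hyperplane `x 0 = h`. PROOF: `cons h` is an isometry `E m → E (m + 1)`
(see `CylPer_isometry` in `MP_deb14e_anM.CylPer`), so `μH[m]` restricted to its range is the image of `μH[m]` on
`E m` (`Isometry.hausdorffMeasure_image`, or `Isometry.map_hausdorffMeasure`), and `μH[m] = kap m • volume` on `E m`
(`hausdorff_eq`); it is a measurable (closed) embedding, use `lintegral_map`. -/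
theorem lintegral_cons {m : ℕ} (h : ℝ) {A : Set (E m)} (hA : MeasurableSet A) {f : E (m + 1) → ℝ≥0∞}
    (hf : Measurable f) :
    ∫⁻ x in (cons h '' A), f x ∂(Measure.hausdorffMeasure (m : ℝ)) =
      ENNReal.ofReal (kap m) * ∫⁻ w in A, f (cons h w) := by
  have hiso : Isometry (cons h : E m → E (m + 1)) := cone1_isometry h
  have hemb : MeasurableEmbedding (cons h : E m → E (m + 1)) :=
    hiso.isClosedEmbedding.measurableEmbedding
  have hmap := hiso.map_hausdorffMeasure (d := (m : ℝ)) (Or.inl (Nat.cast_nonneg m))
  have hsub : cons h '' A ⊆ range (cons h : E m → E (m + 1)) := image_subset_range _ _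
  have h1 : (Measure.hausdorffMeasure (m : ℝ) : Measure (E (m + 1))).restrict (cons h '' A) =
      (Measure.map (cons h) (Measure.hausdorffMeasure (m : ℝ) : Measure (E m))).restrict
        (cons h '' A) := by
    rw [hmap, Measure.restrict_restrict_of_subset hsub]
  rw [h1, hemb.restrict_map, hemb.lintegral_map, preimage_image_eq _ hiso.injective, cone1_haus,
    Measure.restrict_smul, lintegral_smul_measure, smul_eq_mul]

end BM939
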