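import Pool.Agent.Lib.MP_939ffc_anC.Defs
import Pool.Agent.Lib.MP_deb14e_anM.MP

open MeasureTheory Set Metric Filter Topology
open scoped ENNReal NNReal Pointwise
open Pool.Agent.Lib.MP_deb14e_an Pool.Agent.MPdeb14eM

namespace BM939

theorem Cone2_mem {m : ℕ} {h : ℝ} (hh : 0 < h) {A : Set (E m)} (z : ℝ) (w : E m) :
    cons z w ∈ coneOn (cons h '' A) ↔ z ∈ Ioo (0 : ℝ) h ∧ (h / z) • w ∈ A := by
  constructor
  · rintro ⟨s, hs, _, ⟨a, ha, rfl⟩, he⟩
    have h1 : z = s * h := by
      have := congrArg (fun v : E (m + 1) => v 0) he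
      simpa using this
    have h2 : w = s • a := by
      have := congrArg tl he
      rwa [tl_cons, tl_smul, tl_cons] at this
    subst h1 h2
    refine ⟨⟨mul_pos hs.1 hh, by nlinarith [hs.2]⟩, ?_⟩
    rw [smul_smul, div_mul_eq_mul_div, mul_comm h s, div_self (mul_pos hs.1 hh).ne', one_smul]
    exact ha
  · rintro ⟨hz, hA⟩
    refine ⟨z / h, ⟨div_pos hz.1 hh, (div_lt_one hh).2 hz.2⟩, _, ⟨_, hA, rfl⟩, ?_⟩
    rw [← cons_smul, smul_smul, div_mul_cancel₀ _ hh.ne', div_mul_div_comm, mul_comm h z,
      div_self (mul_pos hz.1 hh).ne', one_smul]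

theorem Cone2_meas {m : ℕ} {h : ℝ} (hh : 0 < h) {A : Set (E m)} (hA : MeasurableSet A) :
    MeasurableSet (coneOn (cons h '' A)) := by
  have h1 : coneOn (cons h '' A) = {x : E (m + 1) | x 0 ∈ Ioo (0 : ℝ) h} ∩
      (fun x : E (m + 1) => (h / x 0) • tl x) ⁻¹' A := by
    ext x
    rw [← cons_tl x, Cone2_mem hh]
    simp
  rw [h1]
  have h0 : Measurable fun x : E (m + 1) => x 0 := (EuclideanSpace.proj (0 : Fin (m + 1)) :
    E (m + 1) →L[ℝ] ℝ).continuous.measurable
  refine (h0 measurableSet_Ioo).inter ?_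
  exact ((measurable_const.div h0).smul continuous_tl.measurable) hA

theorem Cone2_scale {m : ℕ} {r : ℝ} (hr : 0 < r) {g : E m → ℝ≥0∞} (hg : Measurable g) :
    ∫⁻ w, g w = ENNReal.ofReal (r ^ m) * ∫⁻ w, g (r • w) := by
  have h1 : ∫⁻ w, g (r • w) = ∫⁻ w, g w ∂(Measure.map (r • ·) (volume : Measure (E m))) := by
    rw [lintegral_map hg (measurable_const_smul r)]
  rw [h1, Measure.map_addHaar_smul volume hr.ne', lintegral_smul_measure, smul_eq_mul, ← mul_assoc,
    ← ENNReal.ofReal_mul (by positivity)]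
  have h2 : r ^ m * |(r ^ Module.finrank ℝ (E m))⁻¹| = 1 := by
    rw [finrank_euclideanSpace, Fintype.card_fin, abs_of_pos (by positivity)]
    exact mul_inv_cancel₀ (by positivity)
  rw [h2, ENNReal.ofReal_one, one_mul]

theorem Cone2_int (k : ℕ) {h : ℝ} (hh : 0 < h) :
    ∫⁻ z in Ioo (0 : ℝ) h, ENNReal.ofReal ((z / h) ^ k) = ENNReal.ofReal (h / (k + 1)) := by
  rw [← ofReal_integral_eq_lintegral_ofReal]
  · congr 1
    rw [← integral_Ioc_eq_integral_Ioo, ← intervalIntegral.integral_of_le hh.le]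
    have h1 : ∀ z : ℝ, (z / h) ^ k = z ^ k / h ^ k := fun z => div_pow z h k
    simp only [h1]
    rw [intervalIntegral.integral_div, integral_pow]
    field_simp
    ring
  · have hc : Continuous fun z : ℝ => (z / h) ^ k := by fun_prop
    exact (hc.continuousOn.integrableOn_Icc).mono_set Ioo_subset_Icc_self
  · filter_upwards [ae_restrict_mem measurableSet_Ioo] with z hz
    have := hz.1
    positivity

/-- The cone over a set in the hyperplane `x 0 = h`. PROOF: `x ∈ coneOn (cons h '' A)` iff `0 < x 0 < h` and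
`(h / x 0) • tl x ∈ A`; Fubini in `ℝ × E m` (see the lemmas on `cons` as a measure preserving equivalence in
`MP_deb14e_anM`, e.g. Fib.lean), and in the slice `x 0 = z` substitute `w' = (z / h) • w`
(`Measure.setLIntegral_comp_smul` or `lintegral_map` with the Haar scaling): the slice integral is
`(z / h)^(m + p) * ∫⁻ w in A, ofReal (‖cons h w‖ ^ p)` because `cons z ((z / h) • w) = (z / h) • cons h w`;
finally `∫ z in 0..h, (z / h)^(m + p) = h / (m + p + 1)`. -/
theorem lintegral_cone_cons {m : ℕ} (p : ℕ) {h : ℝ} (hh : 0 < h) {A : Set (E m)} (hA : MeasurableSet A) :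
    ∫⁻ x in coneOn (cons h '' A), ENNReal.ofReal (‖x‖ ^ p) =
      ENNReal.ofReal (h / (m + 1 + p)) * ∫⁻ w in A, ENNReal.ofReal (‖cons h w‖ ^ p) := by
  have hC := Cone2_meas hh hA
  have hf : Measurable fun x : E (m + 1) => ENNReal.ofReal (‖x‖ ^ p) := by fun_prop
  set F : E (m + 1) → ℝ≥0∞ :=
    (coneOn (cons h '' A)).indicator fun x => ENNReal.ofReal (‖x‖ ^ p) with hF
  have hFm : Measurable F := hf.indicator hC
  set K : ℝ≥0∞ := ∫⁻ w in A, ENNReal.ofReal (‖cons h w‖ ^ p) with hK
  rw [← lintegral_indicator hC, Pool.Agent.MPdeb14eM.lintegral_cons' hFm]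
  have key : ∀ z : ℝ, ∫⁻ w : E m, F (cons z w) =
      (Ioo (0 : ℝ) h).indicator (fun z => ENNReal.ofReal ((z / h) ^ (m + p)) * K) z := by
    intro z
    by_cases hz : z ∈ Ioo (0 : ℝ) h
    · rw [indicator_of_mem hz]
      have hr : 0 < z / h := div_pos hz.1 hh
      have hcm : Measurable fun w : E m => F (cons z w) :=
        hFm.comp (continuous_cons.comp (continuous_const.prodMk continuous_id)).measurable
      rw [Cone2_scale hr hcm]
      have h3 : ∀ w : E m, F (cons z ((z / h) • w)) =
          A.indicator (fun w => ENNReal.ofReal ((z / h) ^ p) *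
            ENNReal.ofReal (‖cons h w‖ ^ p)) w := by
        intro w
        have h4 : cons z ((z / h) • w) = (z / h) • cons h w := by
          rw [← cons_smul, div_mul_cancel₀ _ hh.ne']
        have h5 : (h / z) • ((z / h) • w) = w := by
          rw [smul_smul, div_mul_div_comm, mul_comm h z, div_self (mul_pos hz.1 hh).ne', one_smul]
        by_cases hw : w ∈ A
        · have h6 : cons z ((z / h) • w) ∈ coneOn (cons h '' A) := by
            rw [Cone2_mem hh, h5]; exact ⟨hz, hw⟩
          rw [hF, indicator_of_mem h6, indicator_of_mem hw, h4, norm_smul, mul_pow,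
            Real.norm_of_nonneg hr.le, ENNReal.ofReal_mul (by positivity)]
        · have h6 : cons z ((z / h) • w) ∉ coneOn (cons h '' A) := by
            rw [Cone2_mem hh, h5]; exact fun h => hw h.2
          rw [hF, indicator_of_notMem h6, indicator_of_notMem hw]
      simp only [h3]
      rw [lintegral_indicator hA, lintegral_const_mul' _ _ ENNReal.ofReal_ne_top, ← hK, ← mul_assoc,
        ← ENNReal.ofReal_mul (by positivity), ← pow_add]
    · rw [indicator_of_notMem hz]
      have h3 : ∀ w : E m, F (cons z w) = 0 := by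
        intro w
        have h6 : cons z w ∉ coneOn (cons h '' A) := by
          rw [Cone2_mem hh]; exact fun h => hz h.1
        rw [hF, indicator_of_notMem h6]
      simp only [h3, lintegral_zero]
  simp only [key]
  rw [lintegral_indicator measurableSet_Ioo]
  have hm : Measurable fun z : ℝ => ENNReal.ofReal ((z / h) ^ (m + p)) := by fun_prop
  rw [lintegral_mul_const _ hm, Cone2_int (m + p) hh]
  congr 3
  push_cast
  ring

end BM939
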