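import Pool.Agent.Lib.MP_939ffc_anC.Cone1
import Pool.Agent.Lib.MP_939ffc_anC.Cone2
import Pool.Agent.Lib.MP_deb14e_anM.Hyper

open MeasureTheory Set Metric Filter Topology
open scoped ENNReal NNReal Pointwise
open Pool.Agent.Lib.MP_deb14e_an Pool.Agent.MPdeb14eM

namespace BM939

private theorem cone3_image {m : ℕ} (e : E (m + 1) ≃ₗᵢ[ℝ] E (m + 1)) (F : Set (E (m + 1))) :
    e '' coneOn F = coneOn (e '' F) := by
  ext y
  constructor
  · rintro ⟨z, ⟨s, hs, x, hx, rfl⟩, rfl⟩
    exact ⟨s, hs, e x, mem_image_of_mem _ hx, by rw [map_smul]⟩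
  · rintro ⟨s, hs, z, ⟨x, hx, rfl⟩, rfl⟩
    exact ⟨s • x, ⟨s, hs, x, hx, rfl⟩, by rw [map_smul]⟩

/-- The cone formula. PROOF: `exists_rot` (Hyper.lean) gives a linear isometry `e` with `(e x) 0 = ⟨u, x⟩`; then
`e '' F = cons h '' A` with `A = {w | e.symm (cons h w) ∈ F}`, `e '' coneOn F = coneOn (e '' F)`; `e` preserves
`μH[m]`, `volume` and the norm (`LinearIsometryEquiv.measurePreserving`); then `lintegral_cons` and
`lintegral_cone_cons`. -/
theorem cone_formula {m : ℕ} (p : ℕ) {u : E (m + 1)} (hu : ‖u‖ = 1) {h : ℝ} (hh : 0 < h)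
    {F : Set (E (m + 1))} (hF : MeasurableSet F) (hFu : ∀ x ∈ F, inner ℝ u x = h) :
    ∫⁻ x in F, ENNReal.ofReal (‖x‖ ^ p) ∂(Measure.hausdorffMeasure (m : ℝ)) =
      ENNReal.ofReal (kap m * (m + 1 + p) / h) * ∫⁻ x in coneOn F, ENNReal.ofReal (‖x‖ ^ p) := by
  obtain ⟨e, he⟩ := exists_rot u hu
  have hc : Continuous fun w : E m => e.symm (cons h w) :=
    e.symm.continuous.comp (continuous_cons.comp (by fun_prop : Continuous fun w : E m => (h, w)))
  set A : Set (E m) := {w | e.symm (cons h w) ∈ F} with hAdef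
  have hA : MeasurableSet A := hc.measurable hF
  have hEF : e '' F = cons h '' A := by
    ext y
    constructor
    · rintro ⟨x, hx, rfl⟩
      have h0 : (e x) 0 = h := by rw [he x]; exact hFu x hx
      have h1 : cons h (tl (e x)) = e x := by
        have := cons_tl (e x)
        rwa [h0] at this
      refine ⟨tl (e x), ?_, h1⟩
      show e.symm (cons h (tl (e x))) ∈ F
      rw [h1, LinearIsometryEquiv.symm_apply_apply]
      exact hx
    · rintro ⟨w, hw, rfl⟩
      exact ⟨e.symm (cons h w), hw, LinearIsometryEquiv.apply_symm_apply _ _⟩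
  have hme : MeasurableEmbedding e := e.toHomeomorph.measurableEmbedding
  have h1 : ∫⁻ x in F, ENNReal.ofReal (‖x‖ ^ p) ∂(Measure.hausdorffMeasure (m : ℝ)) =
      ∫⁻ x in cons h '' A, ENNReal.ofReal (‖x‖ ^ p) ∂(Measure.hausdorffMeasure (m : ℝ)) := by
    rw [← hEF]
    have hm : MeasurePreserving e (Measure.hausdorffMeasure (m : ℝ) : Measure (E (m + 1)))
        (Measure.hausdorffMeasure (m : ℝ)) :=
      e.toIsometryEquiv.measurePreserving_hausdorffMeasure _
    rw [← hm.setLIntegral_comp_emb hme]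
    refine lintegral_congr fun x => ?_
    rw [LinearIsometryEquiv.norm_map]
  have h2 : ∫⁻ x in coneOn F, ENNReal.ofReal (‖x‖ ^ p) =
      ∫⁻ x in coneOn (cons h '' A), ENNReal.ofReal (‖x‖ ^ p) := by
    rw [← hEF, ← cone3_image, ← (e.measurePreserving).setLIntegral_comp_emb hme]
    refine lintegral_congr fun x => ?_
    rw [LinearIsometryEquiv.norm_map]
  have hmeas : Measurable fun x : E (m + 1) => ENNReal.ofReal (‖x‖ ^ p) := by fun_prop
  rw [h1, h2, lintegral_cons h hA hmeas, lintegral_cone_cons p hh hA, ← mul_assoc,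
    ← ENNReal.ofReal_mul (by
      have hk : 0 ≤ kap m := div_nonneg ENNReal.toReal_nonneg ENNReal.toReal_nonneg
      positivity)]
  congr 2
  have h3 : (m : ℝ) + 1 + p ≠ 0 := by positivity
  field_simp

end BM939
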