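import Mathlib
import Pool.Agent.Lib.MP_deb14e_anM.Defs

/-!
# MP_939ffc_an: the boundary momentum functional: definitions
-/

open MeasureTheory Set Metric Filter Topology
open Pool.Agent.Lib.MP_deb14e_an Pool.Agent.MPdeb14eM

namespace BM939

/-- The boundary momentum of `Ω ⊆ ℝ^n` about `x₀`: the integral of `|x - x₀|^2` over the boundary
of `Ω` with respect to the standard `(n-1)`-dimensional Hausdorff measure. -/
noncomputable def momentum {n : ℕ} (Ω : Set (E n)) (x₀ : E n) : ℝ :=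
  hausdorffConst ((n : ℝ) - 1) *
    ∫ x in frontier Ω, ‖x - x₀‖ ^ 2 ∂(Measure.hausdorffMeasure ((n : ℝ) - 1) : Measure (E n))

/-- The functional `F(Ω) = |Ω|^((n-2)(n+1)) / P(Ω)^(n^2-1) * inf_{x₀} (momentum of Ω about x₀)`. -/
noncomputable def calF {n : ℕ} (Ω : Set (E n)) : ℝ :=
  (volume Ω).toReal ^ ((n - 2) * (n + 1)) / perimeter n Ω ^ (n ^ 2 - 1) *
    ⨅ x₀ : E n, momentum Ω x₀

/-- `Ω` is circumscribed about the ball `B(c, r)`: the ball is contained in `Ω`, and each boundary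
point of `Ω` lies on a supporting hyperplane of `Ω` which is at distance `r` from `c`. -/
def Circumscribed {n : ℕ} (Ω : Set (E n)) (c : E n) (r : ℝ) : Prop :=
  ball c r ⊆ Ω ∧ ∀ x ∈ frontier Ω, ∃ u : E n, ‖u‖ = 1 ∧ inner ℝ u (x - c) = r ∧
    ∀ y ∈ Ω, inner ℝ u (y - c) ≤ r

/-! ### Auxiliary notions -/

/-- The open cone with apex `0` over `F`. -/
def coneOn {n : ℕ} (F : Set (E n)) : Set (E n) := {y | ∃ s ∈ Ioo (0 : ℝ) 1, ∃ x ∈ F, y = s • x}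

/-- The open polyhedron `{x | ⟨a, x⟩ < 1 for all a ∈ S}`. -/
def poly {n : ℕ} (S : Finset (E n)) : Set (E n) := {x | ∀ a ∈ S, inner ℝ a x < 1}

/-- The facet of `poly S` in the hyperplane `⟨a, x⟩ = 1`. -/
def facet {n : ℕ} (S : Finset (E n)) (a : E n) : Set (E n) :=
  {x | inner ℝ a x = 1 ∧ ∀ b ∈ S, inner ℝ b x ≤ 1}

/-- The integral of `|x|^p` over `Ω`. -/
noncomputable def mom {n : ℕ} (p : ℕ) (Ω : Set (E n)) : ENNReal :=
  ∫⁻ x in Ω, ENNReal.ofReal (‖x‖ ^ p)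

/-- The integral of `|x|^p` over the boundary of `Ω ⊆ ℝ^(m+1)` (Mathlib's Hausdorff measure). -/
noncomputable def bd {m : ℕ} (p : ℕ) (Ω : Set (E (m + 1))) : ENNReal :=
  ∫⁻ x in frontier Ω, ENNReal.ofReal (‖x‖ ^ p) ∂(Measure.hausdorffMeasure (m : ℝ))

/-- `∫_{-1}^1 (1-z^2)^(m/2) dz`. -/
noncomputable def J (m : ℕ) : ℝ := ∫ z in (-1 : ℝ)..1, √(1 - z ^ 2) ^ m

/-- The integral of `R^2 - |x|^2` over the convex hull of the unit ball of `ℝ^(m+1)` and a point of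
norm `R`, divided by the volume of the unit ball of `ℝ^m`. -/
noncomputable def delta (m : ℕ) (R : ℝ) : ℝ :=
  (∫ z in (-1 : ℝ)..(1 / R), (√(1 - z ^ 2) ^ m * (R ^ 2 - z ^ 2)
    - (m : ℝ) / (m + 2) * √(1 - z ^ 2) ^ (m + 2))) +
  ∫ z in (1 / R)..R, (((R - z) / √(R ^ 2 - 1)) ^ m * (R ^ 2 - z ^ 2)
    - (m : ℝ) / (m + 2) * ((R - z) / √(R ^ 2 - 1)) ^ (m + 2))

end BM939
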