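import Pool.Agent.Lib.MP_939ffc_anC.Defs
import Pool.Agent.Lib.MP_deb14e_anM.Fib
import Pool.Agent.Lib.MP_deb14e_anM.MP

open MeasureTheory Set Metric Filter Topology
open scoped ENNReal NNReal Pointwise
open Pool.Agent.Lib.MP_deb14e_an Pool.Agent.MPdeb14eM

namespace BM939

/-- `∫ x in ball 0 ρ, ‖x‖ ^ 2 = m / (m + 2) * vb m * ρ ^ (m + 2)` in `E m` (polar coordinates, or scaling in
`ρ` and the layer cake formula; `m = 0` is trivial). -/
theorem integral_norm_sq_ball {m : ℕ} {ρ : ℝ} (hρ : 0 ≤ ρ) :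
    ∫ x in ball (0 : E m) ρ, ‖x‖ ^ 2 = (m : ℝ) / (m + 2) * vb m * ρ ^ (m + 2) := by
  rcases Nat.eq_zero_or_pos m with hm | hm
  · subst hm
    have h1 : ∀ x : E 0, ‖x‖ ^ 2 = 0 := by
      intro x
      rw [Subsingleton.elim x 0]
      simp
    simp [h1]
  · have : Nonempty (Fin m) := ⟨⟨0, hm⟩⟩
    have h1 : ∫ x in ball (0 : E m) ρ, ‖x‖ ^ 2 =
        ∫ x : E m, (Iio ρ).indicator (fun y : ℝ => y ^ 2) ‖x‖ := by
      rw [← integral_indicator measurableSet_ball]
      refine integral_congr_ae (Eventually.of_forall fun x => ?_)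
      by_cases hx : ‖x‖ < ρ
      · simp [indicator, hx]
      · simp [indicator, hx]
    rw [h1, integral_fun_norm_addHaar]
    have h2 : Module.finrank ℝ (E m) = m := by simp
    rw [h2]
    have h3 : ∫ y in Ioi (0 : ℝ), y ^ (m - 1) • (Iio ρ).indicator (fun y : ℝ => y ^ 2) y =
        ρ ^ (m + 2) / (m + 2) := by
      have h4 : ∫ y in Ioi (0 : ℝ), y ^ (m - 1) • (Iio ρ).indicator (fun y : ℝ => y ^ 2) y =
          ∫ y in Ioi (0 : ℝ), (Iio ρ).indicator (fun y : ℝ => y ^ (m + 1)) y := by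
        refine integral_congr_ae (Eventually.of_forall fun y => ?_)
        by_cases hy : y < ρ
        · simp only [indicator, mem_Iio, hy, if_true, smul_eq_mul]
          rw [← pow_add]
          congr 1
          omega
        · simp [indicator, hy]
      rw [h4, setIntegral_indicator measurableSet_Iio, Ioi_inter_Iio,
        ← integral_Ioc_eq_integral_Ioo, ← intervalIntegral.integral_of_le hρ, integral_pow]
      have h5 : m + 1 + 1 = m + 2 := by omega
      rw [h5]
      simp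
      ring
    rw [h3]
    simp only [Measure.real, nsmul_eq_mul, smul_eq_mul]
    change (m : ℝ) * (vb m * (ρ ^ (m + 2) / (m + 2))) = _
    ring

/-- PROOF: Fubini in `ℝ × E m`; the slice over `z` is `ball 0 (ρ z)`, of volume `vb m * (ρ z) ^ m`, and
`‖x‖ ^ 2 = z ^ 2 + ‖tl x‖ ^ 2`; `integral_norm_sq_ball`. -/
theorem integral_region {m : ℕ} (hm : 1 ≤ m) {a b : ℝ} (hab : a ≤ b) {ρ : ℝ → ℝ} (hρ : Continuous ρ)
    (hρ0 : ∀ z ∈ Ioo a b, 0 ≤ ρ z) (R : ℝ) :
    ∫ x in {x : E (m + 1) | x 0 ∈ Ioo a b ∧ ‖tl x‖ < ρ (x 0)}, (R ^ 2 - ‖x‖ ^ 2) =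
      vb m * ∫ z in a..b, (ρ z ^ m * (R ^ 2 - z ^ 2) - (m : ℝ) / (m + 2) * ρ z ^ (m + 2)) := by
  have hemb : MeasurableEmbedding (fun p : ℝ × E m => cons p.1 p.2) := by
    refine continuous_cons.measurableEmbedding ?_
    rintro ⟨s, y⟩ ⟨s', y'⟩ h
    have h1 : cons s y = cons s' y' := h
    have h2 : s = s' := by
      have := congrArg (fun x : E (m + 1) => x 0) h1
      simpa using this
    have h3 : y = y' := by
      have := congrArg (fun x : E (m + 1) => tl x) h1
      simpa using this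
    rw [h2, h3]
  have hmp := measurePreserving_cons (d := m)
  rw [← hmp.setIntegral_preimage_emb hemb]
  set T : Set (ℝ × E m) := {p | p.1 ∈ Ioo a b ∧ ‖p.2‖ < ρ p.1} with hT
  have hpre : (fun p : ℝ × E m => cons p.1 p.2) ⁻¹'
      {x : E (m + 1) | x 0 ∈ Ioo a b ∧ ‖tl x‖ < ρ (x 0)} = T := by
    ext p
    simp [hT]
  rw [hpre]
  have hTm : MeasurableSet T := by
    have h1 : IsOpen T := by
      have h2 : T = (Prod.fst ⁻¹' Ioo a b) ∩ {p : ℝ × E m | ‖p.2‖ < ρ p.1} := by
        ext p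
        simp [hT]
      rw [h2]
      exact (isOpen_Ioo.preimage continuous_fst).inter
        (isOpen_lt (continuous_norm.comp continuous_snd) (hρ.comp continuous_fst))
    exact h1.measurableSet
  have hfun : ∀ p : ℝ × E m, R ^ 2 - ‖cons p.1 p.2‖ ^ 2 = (R ^ 2 - p.1 ^ 2) - ‖p.2‖ ^ 2 := by
    intro p
    rw [norm_cons_sq]
    ring
  simp only [hfun]
  -- integrability
  obtain ⟨M, hM⟩ : ∃ M : ℝ, ∀ z ∈ Icc a b, ρ z ≤ M := by
    obtain ⟨M, hM⟩ := (isCompact_Icc (a := a) (b := b)).bddAbove_image hρ.continuousOn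
    exact ⟨M, fun z hz => hM ⟨z, hz, rfl⟩⟩
  have hsub : T ⊆ Icc a b ×ˢ closedBall (0 : E m) M := by
    rintro ⟨z, y⟩ ⟨h1, h2⟩
    refine ⟨⟨h1.1.le, h1.2.le⟩, ?_⟩
    rw [mem_closedBall_zero_iff]
    exact h2.le.trans (hM z ⟨h1.1.le, h1.2.le⟩)
  have hcont : Continuous fun p : ℝ × E m => (R ^ 2 - p.1 ^ 2) - ‖p.2‖ ^ 2 := by fun_prop
  have hint : IntegrableOn (fun p : ℝ × E m => (R ^ 2 - p.1 ^ 2) - ‖p.2‖ ^ 2) T
      (volume.prod volume) :=
    (hcont.continuousOn.integrableOn_compact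
      (isCompact_Icc.prod (isCompact_closedBall _ _))).mono_set hsub
  rw [← integral_indicator hTm, integral_prod _ (hint.integrable_indicator hTm)]
  have hin : ∀ z : ℝ, ∫ y : E m, T.indicator
      (fun p : ℝ × E m => (R ^ 2 - p.1 ^ 2) - ‖p.2‖ ^ 2) (z, y) =
      (Ioo a b).indicator (fun z => vb m * (ρ z ^ m * (R ^ 2 - z ^ 2) -
        (m : ℝ) / (m + 2) * ρ z ^ (m + 2))) z := by
    intro z
    by_cases hz : z ∈ Ioo a b
    · have h1 : ∀ y : E m, T.indicator
          (fun p : ℝ × E m => (R ^ 2 - p.1 ^ 2) - ‖p.2‖ ^ 2) (z, y) =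
          (ball (0 : E m) (ρ z)).indicator (fun y => (R ^ 2 - z ^ 2) - ‖y‖ ^ 2) y := by
        intro y
        by_cases hy : ‖y‖ < ρ z
        · have h2 : (z, y) ∈ T := ⟨hz, hy⟩
          have h3 : y ∈ ball (0 : E m) (ρ z) := mem_ball_zero_iff.2 hy
          rw [indicator_of_mem h2, indicator_of_mem h3]
        · have h2 : (z, y) ∉ T := fun h => hy h.2
          have h3 : y ∉ ball (0 : E m) (ρ z) := fun h => hy (mem_ball_zero_iff.1 h)
          rw [indicator_of_notMem h2, indicator_of_notMem h3]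
      simp only [h1]
      rw [integral_indicator measurableSet_ball, indicator_of_mem hz]
      have hr0 := hρ0 z hz
      have hi1 : IntegrableOn (fun _ : E m => R ^ 2 - z ^ 2) (ball (0 : E m) (ρ z)) :=
        integrableOn_const measure_ball_lt_top.ne
      have hi2 : IntegrableOn (fun y : E m => ‖y‖ ^ 2) (ball (0 : E m) (ρ z)) :=
        ((continuous_norm.pow 2).continuousOn.integrableOn_compact
          (isCompact_closedBall (0 : E m) (ρ z))).mono_set ball_subset_closedBall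
      rw [integral_sub hi1 hi2, integral_norm_sq_ball hr0, setIntegral_const]
      have hv : (volume : Measure (E m)).real (ball (0 : E m) (ρ z)) = ρ z ^ m * vb m := by
        have : Nonempty (Fin m) := ⟨⟨0, hm⟩⟩
        rw [Measure.real, Measure.addHaar_ball _ _ hr0, ENNReal.toReal_mul,
          ENNReal.toReal_ofReal (by positivity)]
        simp [vb]
      rw [hv, smul_eq_mul]
      ring
    · have h1 : ∀ y : E m, T.indicator
          (fun p : ℝ × E m => (R ^ 2 - p.1 ^ 2) - ‖p.2‖ ^ 2) (z, y) = 0 := by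
        intro y
        exact indicator_of_notMem (fun h => hz h.1) _
      simp only [h1]
      rw [indicator_of_notMem hz]
      simp
  simp only [hin]
  rw [integral_indicator measurableSet_Ioo, integral_const_mul,
    intervalIntegral.integral_of_le hab, integral_Ioc_eq_integral_Ioo]

end BM939
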