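import Pool.Agent.Lib.MP_939ffc_anC.Defs

open MeasureTheory Set Metric Filter Topology
open scoped ENNReal NNReal Pointwise
open Pool.Agent.Lib.MP_deb14e_an Pool.Agent.MPdeb14eM

namespace BM939

/-- The cone part of the hull of the unit ball and a point of the closure lies in the convex set. -/
theorem region_subset {m : ℕ} {Ω : Set (E (m + 1))} (hΩ : ConvexDomain Ω) (hb : ball 0 1 ⊆ Ω) {R : ℝ}
    (hR : 1 < R) (hy : cons R (0 : E m) ∈ closure Ω) :
    {x : E (m + 1) | x 0 ∈ Ioo (1 / R) R ∧ ‖tl x‖ < (R - x 0) / √(R ^ 2 - 1)} ⊆ Ω := by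
  rintro x ⟨⟨hx1, hx2⟩, hx3⟩
  have hR0 : 0 < R := by linarith
  have hR2 : 0 < R ^ 2 - 1 := by nlinarith
  have hd : 0 < R - 1 / R := by
    have : 1 / R < 1 := by
      rw [div_lt_one hR0]
      exact hR
    linarith
  obtain ⟨t, ht⟩ : ∃ t, t = (x 0 - 1 / R) / (R - 1 / R) := ⟨_, rfl⟩
  have ht0 : 0 < t := by
    rw [ht]
    exact div_pos (by linarith) hd
  have h1t : 1 - t = (R - x 0) / (R - 1 / R) := by
    rw [ht, eq_div_iff hd.ne', sub_mul, div_mul_cancel₀ _ hd.ne']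
    ring
  have h1t0 : 0 < 1 - t := by
    rw [h1t]
    exact div_pos (by linarith) hd
  have hbn : ‖cons (1 / R) ((1 - t)⁻¹ • tl x)‖ < 1 := by
    have e1 : ‖cons (1 / R) ((1 - t)⁻¹ • tl x)‖ ^ 2 < 1 ^ 2 := by
      rw [norm_cons_sq, norm_smul, norm_inv, Real.norm_eq_abs, abs_of_pos h1t0]
      have e2 : (1 - t)⁻¹ * ‖tl x‖ < (R - 1 / R) / √(R ^ 2 - 1) := by
        have e3 : (1 - t)⁻¹ * ‖tl x‖ < (1 - t)⁻¹ * ((R - x 0) / √(R ^ 2 - 1)) :=
          mul_lt_mul_of_pos_left hx3 (inv_pos.2 h1t0)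
        refine lt_of_lt_of_eq e3 ?_
        rw [h1t, inv_div]
        have e4 : R - x 0 ≠ 0 := by linarith
        field_simp
      have e5 : ((1 - t)⁻¹ * ‖tl x‖) ^ 2 < ((R - 1 / R) / √(R ^ 2 - 1)) ^ 2 :=
        pow_lt_pow_left₀ e2 (mul_nonneg (inv_nonneg.2 h1t0.le) (norm_nonneg _)) two_ne_zero
      rw [div_pow, Real.sq_sqrt hR2.le] at e5
      have e6 : (R - 1 / R) ^ 2 / (R ^ 2 - 1) = 1 - (1 / R) ^ 2 := by
        field_simp
      rw [e6] at e5
      linarith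
    exact lt_of_pow_lt_pow_left₀ 2 zero_le_one e1
  have hbΩ : cons (1 / R) ((1 - t)⁻¹ • tl x) ∈ Ω := hb (by rwa [mem_ball_zero_iff])
  have hxe : x = (1 - t) • cons (1 / R) ((1 - t)⁻¹ • tl x) + t • cons R (0 : E m) := by
    rw [← cons_smul, ← cons_smul, ← cons_add, smul_zero, add_zero, smul_smul,
      mul_inv_cancel₀ h1t0.ne', one_smul]
    have e7 : (1 - t) * (1 / R) + t * R = x 0 := by
      have e8 : (1 - t) * (1 / R) + t * R = 1 / R + t * (R - 1 / R) := by ring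
      rw [e8, ht, div_mul_cancel₀ _ hd.ne']
      ring
    rw [e7, cons_tl]
  have hmem : x ∈ interior Ω := by
    rw [hxe]
    refine hΩ.2.2.2.combo_interior_closure_mem_interior ?_ hy h1t0 ht0.le (by ring)
    rw [hΩ.2.2.1.interior_eq]
    exact hbΩ
  exact interior_subset hmem

end BM939
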