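import Pool.Agent.Lib.MP_939ffc_anC.Geo1
import Pool.Agent.Lib.MP_939ffc_anC.Geo2a
import Pool.Agent.Lib.MP_deb14e_anM.Hyper
import Pool.Agent.Lib.MP_deb14e_anM.Sim

open MeasureTheory Set Metric Filter Topology
open scoped ENNReal NNReal Pointwise
open Pool.Agent.Lib.MP_deb14e_an Pool.Agent.MPdeb14eM

namespace BM939

/-- PROOF: rotate `y / R` to the coordinate vector (`exists_rot`, `Sim_integral` or
`LinearIsometryEquiv.measurePreserving`); the disjoint regions `{x 0 ∈ (-1, 1/R), ‖tl x‖ < √(1 - x0²)} ⊆ ball 0 1` and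
`{x 0 ∈ (1/R, R), ...}` (`region_subset`) are in `Ω`, the integrand is nonnegative on `Ω`, and
`integral_region` twice. -/
theorem delta_le {m : ℕ} (hm : 1 ≤ m) {Ω : Set (E (m + 1))} (hΩ : ConvexDomain Ω) (hb : ball 0 1 ⊆ Ω) {R : ℝ}
    (hR : 1 < R) {y : E (m + 1)} (hy : y ∈ closure Ω) (hyR : ‖y‖ = R) (hle : ∀ x ∈ Ω, ‖x‖ ≤ R) :
    vb m * delta m R ≤ ∫ x in Ω, (R ^ 2 - ‖x‖ ^ 2) := by
  have hR0 : 0 < R := by linarith
  have hvn : ‖R⁻¹ • y‖ = 1 := by
    rw [norm_smul, norm_inv, Real.norm_eq_abs, abs_of_pos hR0, hyR, inv_mul_cancel₀ hR0.ne']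
  obtain ⟨e, he⟩ := exists_rot (R⁻¹ • y) hvn
  have hey0 : (e y) 0 = R := by
    rw [he, real_inner_smul_left, real_inner_self_eq_norm_sq, hyR]
    field_simp
  have hey : e y = cons R 0 := by
    have h1 := norm_sq_eq (e y)
    rw [e.norm_map, hyR, hey0] at h1
    have h2 : ‖tl (e y)‖ = 0 := by nlinarith [norm_nonneg (tl (e y))]
    have h3 : tl (e y) = 0 := norm_eq_zero.1 h2
    rw [← cons_tl (e y), hey0, h3]
  have hsim : ∀ x, sim e 0 1 x = e x := fun x => by rw [sim, zero_add, one_smul]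
  have hint := Sim_integral e 0 one_pos Ω fun x => R ^ 2 - ‖x‖ ^ 2
  have hΩ' := convexDomain_sim e 0 one_pos hΩ
  rw [one_pow, one_mul] at hint
  have hint2 : ∫ x in Ω, (R ^ 2 - ‖sim e 0 1 x‖ ^ 2) = ∫ x in Ω, (R ^ 2 - ‖x‖ ^ 2) := by
    simp only [hsim, e.norm_map]
  rw [hint2] at hint
  rw [← hint]
  have hb' : ball 0 1 ⊆ sim e 0 1 '' Ω := by
    intro z hz
    refine ⟨e.symm z, hb ?_, ?_⟩
    · rw [mem_ball_zero_iff] at hz ⊢
      rwa [e.symm.norm_map]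
    · rw [hsim, e.apply_symm_apply]
  have hy' : cons R (0 : E m) ∈ closure (sim e 0 1 '' Ω) := by
    rw [← hey, ← hsim y]
    have hc : Continuous (sim e (0 : E (m + 1)) 1) := by
      have : sim e (0 : E (m + 1)) 1 = e := funext hsim
      rw [this]
      exact e.continuous
    exact image_closure_subset_closure_image hc ⟨y, hy, rfl⟩
  have hle' : ∀ x ∈ sim e 0 1 '' Ω, ‖x‖ ≤ R := by
    rintro _ ⟨x, hx, rfl⟩
    rw [hsim, e.norm_map]
    exact hle x hx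
  generalize sim e (0 : E (m + 1)) 1 '' Ω = Ω' at hΩ' hb' hy' hle'
  have h0c : Continuous fun x : E (m + 1) => x 0 := by fun_prop
  have hA1m : MeasurableSet {x : E (m + 1) | x 0 ∈ Ioo (-1) (1 / R) ∧ ‖tl x‖ < √(1 - x 0 ^ 2)} := by
    refine ((isOpen_Ioo.preimage h0c).inter (isOpen_lt (continuous_norm.comp continuous_tl)
      ?_)).measurableSet
    fun_prop
  have hA2m : MeasurableSet {x : E (m + 1) | x 0 ∈ Ioo (1 / R) R ∧
      ‖tl x‖ < (R - x 0) / √(R ^ 2 - 1)} := by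
    refine ((isOpen_Ioo.preimage h0c).inter (isOpen_lt (continuous_norm.comp continuous_tl)
      ?_)).measurableSet
    fun_prop
  have hA1 : {x : E (m + 1) | x 0 ∈ Ioo (-1) (1 / R) ∧ ‖tl x‖ < √(1 - x 0 ^ 2)} ⊆ Ω' := by
    rintro x ⟨-, h2⟩
    refine hb' ?_
    rw [Real.lt_sqrt (norm_nonneg _)] at h2
    have h3 := norm_sq_eq x
    rw [mem_ball_zero_iff]
    nlinarith [norm_nonneg x]
  have hA2 := region_subset hΩ' hb' hR hy'
  have hdis : Disjoint {x : E (m + 1) | x 0 ∈ Ioo (-1) (1 / R) ∧ ‖tl x‖ < √(1 - x 0 ^ 2)}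
      {x : E (m + 1) | x 0 ∈ Ioo (1 / R) R ∧ ‖tl x‖ < (R - x 0) / √(R ^ 2 - 1)} := by
    rw [Set.disjoint_left]
    rintro x ⟨h1, -⟩ ⟨h2, -⟩
    exact absurd h1.2 (not_lt_of_gt h2.1)
  have hfc : Continuous fun x : E (m + 1) => R ^ 2 - ‖x‖ ^ 2 := by fun_prop
  have hfi : IntegrableOn (fun x : E (m + 1) => R ^ 2 - ‖x‖ ^ 2) Ω' := by
    have hcp : IsCompact (closure Ω') := hΩ'.2.1.isCompact_closure
    exact (hfc.continuousOn.integrableOn_compact hcp).mono_set subset_closure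
  have hnn : 0 ≤ᵐ[volume.restrict Ω'] fun x : E (m + 1) => R ^ 2 - ‖x‖ ^ 2 := by
    refine ae_restrict_of_forall_mem hΩ'.2.2.1.measurableSet fun x hx => ?_
    have h1 := hle' x hx
    have h2 := norm_nonneg x
    change (0 : ℝ) ≤ R ^ 2 - ‖x‖ ^ 2
    nlinarith
  have h1 := integral_region hm (a := -1) (b := 1 / R) (by
    have : 0 < 1 / R := by positivity
    linarith) (ρ := fun z => √(1 - z ^ 2)) (by fun_prop) (fun z _ => Real.sqrt_nonneg _) R
  have h2 := integral_region hm (a := 1 / R) (b := R) (by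
    rw [div_le_iff₀ hR0]
    nlinarith) (ρ := fun z => (R - z) / √(R ^ 2 - 1)) (by fun_prop) (fun z hz =>
      div_nonneg (by linarith [hz.2]) (Real.sqrt_nonneg _)) R
  have h3 := setIntegral_union hdis hA2m (hfi.mono_set hA1) (hfi.mono_set hA2)
  have h4 := setIntegral_mono_set hfi hnn (union_subset hA1 hA2).eventuallyLE
  rw [h3, h1, h2, ← mul_add] at h4
  exact h4

end BM939
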