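import Pool.Agent.Lib.MP_939ffc_anC.CalcN4
import Pool.Agent.Lib.MP_939ffc_anC.Real3
import Pool.Agent.Lib.MP_939ffc_anC.Calc3

open MeasureTheory Set Metric Filter Topology
open scoped ENNReal NNReal Pointwise
open Pool.Agent.Lib.MP_deb14e_an Pool.Agent.MPdeb14eM

namespace BM939

private theorem key_bern {n : ℕ} {x : ℝ} (hx : 0 ≤ x) : 1 + (n : ℝ) * (x - 1) ≤ x ^ n := by
  have h := one_add_mul_le_pow (a := x - 1) (by linarith) n
  have e : 1 + (x - 1) = x := by ring
  rwa [e] at h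

private theorem key_amgm {m : ℕ} {v w : ℝ} (hv : 0 ≤ v) (hw : 0 < w) :
    ((m : ℝ) + 2) * w ^ (m + 1) * v ≤ v ^ (m + 2) + ((m : ℝ) + 1) * w ^ (m + 2) := by
  have h := key_bern (n := m + 2) (x := v / w) (by positivity)
  have hp : (0 : ℝ) < w ^ (m + 2) := by positivity
  have h2 := mul_le_mul_of_nonneg_right h hp.le
  have e1 : (v / w) ^ (m + 2) * w ^ (m + 2) = v ^ (m + 2) := by
    rw [← mul_pow, div_mul_cancel₀ _ hw.ne']
  have e2 : (1 + ((m + 2 : ℕ) : ℝ) * (v / w - 1)) * w ^ (m + 2) =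
      ((m : ℝ) + 2) * w ^ (m + 1) * v - ((m : ℝ) + 1) * w ^ (m + 2) := by
    push_cast
    field_simp
    ring
  rw [e1, e2] at h2
  linarith

/-- PROOF: `m = 2`: `delta_two`, `J_two`, `real_three`. `m ≥ 3`: if `R^2 ≤ (m+1)(m+2)/(m+3)`, then `delta_eq` gives
`delta m R / J m ≥ R^2 - (m+1)/(m+3)`, and the function `(m+1)/(m+3) v^(m+2) - R^2 v` is increasing on `[1, ∞)` (or
Bernoulli: `v^(m+2) ≥ 1 + (m+2)(v-1)`). Otherwise `delta_ge` and weighted AM-GM:
with `w = (R/R₀)^(2/(m+1))`, `w^(m+1) = R^2/R₀^2`, `v^(m+2) + (m+1) w^(m+2) ≥ (m+2) w^(m+1) v`. -/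
theorem key {m : ℕ} (hm : 2 ≤ m) {R v : ℝ} (hR : 1 < R) (hv : 1 ≤ v) :
    R ^ 2 * v - delta m R / J m ≤ ((m : ℝ) + 1) / (m + 3) * v ^ (m + 2) := by
  have hR0 : (0 : ℝ) < R := by linarith
  have hJ : 0 < J m := J_pos m
  rcases Nat.lt_or_ge 2 m with hm3 | hm2
  · -- `m ≥ 3`
    have hm3' : 3 ≤ m := hm3
    have hmR : (0 : ℝ) ≤ m := Nat.cast_nonneg m
    set c : ℝ := ((m : ℝ) + 1) / (m + 3) with hc
    have hc0 : 0 < c := by positivity
    rcases le_total (R ^ 2) (c * (m + 2)) with hcase | hcase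
    · -- small `R`
      have hint : 0 ≤ ∫ t in (1 : ℝ)..R, (2 * t * hh m t +
          (m : ℝ) * (m + 5) / ((m + 1) * (m + 2) * (m + 3)) * (t ^ 2 - 1) *
            √(1 - 1 / t ^ 2) ^ m) := by
        refine intervalIntegral.integral_nonneg hR.le fun t ht => ?_
        have ht1 : 1 ≤ t := ht.1
        have h1 : 0 ≤ hh m t := hh_nonneg ht1
        have h2 : 0 ≤ t ^ 2 - 1 := by nlinarith
        have h3 : 0 ≤ √(1 - 1 / t ^ 2) ^ m := pow_nonneg (Real.sqrt_nonneg _) m
        have h4 : 0 ≤ (m : ℝ) * (m + 5) / ((m + 1) * (m + 2) * (m + 3)) := by positivity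
        have h5 : 0 ≤ 2 * t * hh m t := mul_nonneg (by linarith) h1
        have h6 := mul_nonneg (mul_nonneg h4 h2) h3
        linarith
      have hd : R ^ 2 - c ≤ delta m R / J m := by
        rw [le_div_iff₀ hJ, delta_eq (by omega) hR]
        nlinarith
      have hb := key_bern (n := m + 2) (x := v) (by linarith)
      push_cast at hb
      have h1 : R ^ 2 * (v - 1) ≤ c * (m + 2) * (v - 1) :=
        mul_le_mul_of_nonneg_right hcase (by linarith)
      have h2 : c * (((m : ℝ) + 2) * (v - 1)) ≤ c * (v ^ (m + 2) - 1) :=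
        mul_le_mul_of_nonneg_left (by linarith) hc0.le
      nlinarith
    · -- large `R`
      have hq : 0 < c * ((m : ℝ) + 2) := by positivity
      set R₀ : ℝ := √(c * ((m : ℝ) + 2)) with hR₀
      have hR₀p : 0 < R₀ := Real.sqrt_pos.mpr hq
      have hR₀s : R₀ ^ 2 = c * ((m : ℝ) + 2) := Real.sq_sqrt hq.le
      have hR₀s' : R₀ ^ 2 = ((m : ℝ) + 1) * (m + 2) / (m + 3) := by
        rw [hR₀s, hc]
        ring
      have hle : R₀ ≤ R := by
        rw [hR₀, Real.sqrt_le_left hR0.le]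
        exact hcase
      have hge := delta_ge hm3' hR₀p hR₀s' hle
      set w : ℝ := (R / R₀) ^ (2 / ((m : ℝ) + 1)) with hw
      have hRR : 0 < R / R₀ := by positivity
      have hwp : 0 < w := Real.rpow_pos_of_pos hRR _
      have hwpow : w ^ (m + 1) = (R / R₀) ^ 2 := by
        rw [hw, ← Real.rpow_natCast, ← Real.rpow_mul hRR.le]
        have : 2 / ((m : ℝ) + 1) * ((m + 1 : ℕ) : ℝ) = ((2 : ℕ) : ℝ) := by
          push_cast
          field_simp
        rw [this, Real.rpow_natCast]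
      have hR2 : R ^ 2 = c * ((m : ℝ) + 2) * w ^ (m + 1) := by
        rw [hwpow, div_pow, hR₀s]
        field_simp
      have hd : ((m : ℝ) + 1) / (m + 2) * R ^ 2 * w ≤ delta m R / J m := by
        rw [le_div_iff₀ hJ]
        linarith
      have ham := key_amgm (m := m) (v := v) (w := w) (by linarith) hwp
      have e : ((m : ℝ) + 1) / (m + 2) * R ^ 2 * w = c * (((m : ℝ) + 1) * w ^ (m + 2)) := by
        rw [hR2, pow_succ w (m + 1)]
        field_simp
      have h2 := mul_le_mul_of_nonneg_left ham hc0.le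
      have e3 : R ^ 2 * v = c * (((m : ℝ) + 2) * w ^ (m + 1) * v) := by
        rw [hR2]
        ring
      rw [e3]
      rw [e] at hd
      nlinarith
  · -- `m = 2`
    obtain rfl : m = 2 := by omega
    rw [delta_two hR, J_two]
    have h3 := real_three hR.le hv
    have e : R ^ 2 * v - (9 * R ^ 4 + 20 * R ^ 3 + 6 * R ^ 2 - 12 * R - 7) / (30 * R) / (4 / 3) =
        (40 * R ^ 3 * v - (9 * R ^ 4 + 20 * R ^ 3 + 6 * R ^ 2 - 12 * R - 7)) / (40 * R) := by
      field_simp
      ring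
    rw [e, div_le_iff₀ (by positivity)]
    push_cast
    nlinarith

end BM939
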