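import Pool.Agent.Lib.MP_939ffc_anC.Defs
import Pool.Agent.Lib.MP_deb14e_anM.Sim

open MeasureTheory Set Metric Filter Topology
open scoped ENNReal NNReal Pointwise
open Pool.Agent.Lib.MP_deb14e_an Pool.Agent.MPdeb14eM

namespace BM939

private theorem scale_haus_image {m : ℕ} (e : E (m + 1) ≃ₗᵢ[ℝ] E (m + 1)) (a : E (m + 1)) {c : ℝ}
    (hc : 0 < c) (A : Set (E (m + 1))) :
    Measure.hausdorffMeasure (m : ℝ) (sim e a c '' A) =
      ENNReal.ofReal (c ^ m) * Measure.hausdorffMeasure (m : ℝ) A := by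
  have himg : sim e a c '' A = IsometryEquiv.vaddConst a '' (c • (e.toIsometryEquiv '' A)) := by
    ext y
    simp only [mem_image, Set.mem_smul_set, sim]
    constructor
    · rintro ⟨x, hx, rfl⟩
      refine ⟨c • e x, ⟨e x, ⟨x, hx, rfl⟩, rfl⟩, ?_⟩
      simp [add_comm]
    · rintro ⟨z, ⟨w, ⟨x, hx, rfl⟩, rfl⟩, rfl⟩
      refine ⟨x, hx, ?_⟩
      simp [add_comm]
  rw [himg, IsometryEquiv.hausdorffMeasure_image,
    Measure.hausdorffMeasure_smul₀ (Nat.cast_nonneg m) hc.ne',
    IsometryEquiv.hausdorffMeasure_image, NNReal.rpow_natCast, ENNReal.smul_def, smul_eq_mul]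
  congr 1
  rw [ENNReal.ofReal, ENNReal.coe_inj]
  ext
  rw [Real.coe_toNNReal _ (by positivity), NNReal.coe_pow, coe_nnnorm, Real.norm_eq_abs,
    abs_of_pos hc]

private theorem scale_haus_map {m : ℕ} (e : E (m + 1) ≃ₗᵢ[ℝ] E (m + 1)) (a : E (m + 1)) {c : ℝ}
    (hc : 0 < c) :
    (Measure.hausdorffMeasure (m : ℝ) : Measure (E (m + 1))) =
      ENNReal.ofReal (c ^ m) • Measure.map (SimH e a hc).toMeasurableEquiv
        (Measure.hausdorffMeasure (m : ℝ) : Measure (E (m + 1))) := by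
  ext s _
  rw [Measure.smul_apply, MeasurableEquiv.map_apply, smul_eq_mul, ← scale_haus_image e a hc]
  congr 1
  have h3 : ((SimH e a hc).toMeasurableEquiv : E (m + 1) → E (m + 1)) = SimH e a hc := rfl
  rw [h3, ← SimH_coe e a hc]
  exact ((SimH e a hc).surjective.image_preimage s).symm

private theorem scale_haus_restrict {m : ℕ} (e : E (m + 1) ≃ₗᵢ[ℝ] E (m + 1)) (a : E (m + 1)) {c : ℝ}
    (hc : 0 < c) (A : Set (E (m + 1))) :
    (Measure.hausdorffMeasure (m : ℝ) : Measure (E (m + 1))).restrict (sim e a c '' A) =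
      ENNReal.ofReal (c ^ m) • Measure.map (SimH e a hc).toMeasurableEquiv
        ((Measure.hausdorffMeasure (m : ℝ) : Measure (E (m + 1))).restrict A) := by
  conv_lhs => rw [scale_haus_map e a hc]
  rw [Measure.restrict_smul]
  congr 1
  have h := MeasurableEquiv.restrict_map (SimH e a hc).toMeasurableEquiv
    (Measure.hausdorffMeasure (m : ℝ) : Measure (E (m + 1))) (sim e a c '' A)
  have h2 : (SimH e a hc).toMeasurableEquiv ⁻¹' (sim e a c '' A) = A := by
    have h3 : ((SimH e a hc).toMeasurableEquiv : E (m + 1) → E (m + 1)) = sim e a c := rfl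
    rw [h3]
    refine preimage_image_eq _ ?_
    rw [← SimH_coe e a hc]
    exact (SimH e a hc).injective
  rw [h2] at h
  exact h

private theorem scale_momentum {m : ℕ} (Ω : Set (E (m + 1))) (c : E (m + 1)) {r : ℝ} (hr : 0 < r)
    (x₀ : E (m + 1)) :
    momentum ((fun x => c + r • x) '' Ω) (c + r • x₀) = r ^ (m + 2) * momentum Ω x₀ := by
  have hs : (fun x : E (m + 1) => c + r • x) = sim (LinearIsometryEquiv.refl ℝ (E (m + 1))) c r := rfl
  have hf : frontier (sim (LinearIsometryEquiv.refl ℝ (E (m + 1))) c r '' Ω) =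
      sim (LinearIsometryEquiv.refl ℝ (E (m + 1))) c r '' frontier Ω := by
    rw [← SimH_coe _ c hr]
    exact ((SimH _ c hr).image_frontier Ω).symm
  have hd : ((m + 1 : ℕ) : ℝ) - 1 = (m : ℝ) := by push_cast; ring
  unfold momentum
  rw [hs, hf, hd, scale_haus_restrict _ c hr, integral_smul_measure, integral_map_equiv,
    ENNReal.toReal_ofReal (by positivity), smul_eq_mul]
  have h1 : ∀ x : E (m + 1), ‖(SimH (LinearIsometryEquiv.refl ℝ (E (m + 1))) c hr).toMeasurableEquiv x -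
      (c + r • x₀)‖ ^ 2 = r ^ 2 * ‖x - x₀‖ ^ 2 := by
    intro x
    have h2 : (SimH (LinearIsometryEquiv.refl ℝ (E (m + 1))) c hr).toMeasurableEquiv x - (c + r • x₀) =
        r • (x - x₀) := by
      change c + r • x - (c + r • x₀) = r • (x - x₀)
      rw [add_sub_add_left_eq_sub, smul_sub]
    rw [h2, norm_smul, mul_pow, Real.norm_eq_abs, sq_abs]
  simp only [h1]
  rw [integral_const_mul]
  ring

private theorem scale_volume {m : ℕ} (Ω : Set (E (m + 1))) (c : E (m + 1)) {r : ℝ} (hr : 0 < r) :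
    (volume ((fun x => c + r • x) '' Ω)).toReal = r ^ (m + 1) * (volume Ω).toReal := by
  have hs : (fun x : E (m + 1) => c + r • x) = sim (LinearIsometryEquiv.refl ℝ (E (m + 1))) c r := rfl
  have h1 := Sim_restrict (LinearIsometryEquiv.refl ℝ (E (m + 1))) c hr Ω
  have h2 := congrArg (fun μ : Measure (E (m + 1)) => μ univ) h1
  simp only [Measure.restrict_apply_univ, Measure.smul_apply, MeasurableEquiv.map_apply,
    preimage_univ, smul_eq_mul] at h2
  rw [hs, h2, ENNReal.toReal_mul, ENNReal.toReal_ofReal (by positivity)]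

/-- The functional is invariant under homotheties. PROOF: for `n = m + 1 ≥ 2` the volume is multiplied by `r^n`, the
perimeter by `r^(n-1)` and the momentum (about `c + r • x₀`) by `r^(n+1)`, and
`n (n-2) (n+1) + (n+1) = (n-1) (n^2-1)`. See Sim.lean for the perimeter (`perimeter_sim`); the infimum over `x₀` is
reindexed by the bijection `x₀ ↦ c + r • x₀` (`Equiv.iInf_congr`, `Real.mul_iInf_of_nonneg`). -/
theorem calF_homothety {m : ℕ} (hm : 1 ≤ m) (Ω : Set (E (m + 1))) (c : E (m + 1)) {r : ℝ} (hr : 0 < r) :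
    calF ((fun x => c + r • x) '' Ω) = calF Ω := by
  have hs : (fun x : E (m + 1) => c + r • x) = sim (LinearIsometryEquiv.refl ℝ (E (m + 1))) c r := rfl
  have hI : (⨅ x₀ : E (m + 1), momentum ((fun x => c + r • x) '' Ω) x₀) =
      r ^ (m + 2) * ⨅ x₀ : E (m + 1), momentum Ω x₀ := by
    rw [Real.mul_iInf_of_nonneg (by positivity)]
    have hsur : Function.Surjective (fun x : E (m + 1) => c + r • x) := by
      rw [hs, ← SimH_coe _ c hr]
      exact (SimH _ c hr).surjective
    rw [← hsur.iInf_comp]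
    refine iInf_congr fun x₀ => ?_
    exact scale_momentum Ω c hr x₀
  have hP : perimeter (m + 1) ((fun x => c + r • x) '' Ω) = r ^ m * perimeter (m + 1) Ω := by
    rw [hs]
    exact perimeter_sim _ c hr Ω
  unfold calF
  rw [hI, hP, scale_volume Ω c hr]
  obtain ⟨k, rfl⟩ : ∃ k, m = k + 1 := ⟨m - 1, by omega⟩
  have e1 : k + 1 + 1 - 2 = k := by omega
  have e2 : (k + 1 + 1) ^ 2 - 1 = (k + 1) * (k + 3) := by
    have : (k + 1 + 1) ^ 2 = (k + 1) * (k + 3) + 1 := by ring
    omega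
  rw [e1, e2, mul_pow, mul_pow, mul_div_mul_comm]
  have key : (r ^ (k + 1 + 1)) ^ (k * (k + 1 + 1 + 1)) / (r ^ (k + 1)) ^ ((k + 1) * (k + 3)) *
      r ^ (k + 1 + 2) = 1 := by
    rw [div_mul_eq_mul_div, ← pow_mul, ← pow_mul, ← pow_add]
    have e3 : (k + 1 + 1) * (k * (k + 1 + 1 + 1)) + (k + 1 + 2) = (k + 1) * ((k + 1) * (k + 3)) := by
      ring
    rw [e3]
    exact div_self (by positivity)
  calc _ = ((r ^ (k + 1 + 1)) ^ (k * (k + 1 + 1 + 1)) / (r ^ (k + 1)) ^ ((k + 1) * (k + 3)) *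
      r ^ (k + 1 + 2)) * (((volume Ω).toReal ^ (k * (k + 1 + 1 + 1)) /
        perimeter (k + 1 + 1) Ω ^ ((k + 1) * (k + 3))) * ⨅ x₀ : E (k + 1 + 1), momentum Ω x₀) := by ring
    _ = _ := by rw [key, one_mul]

end BM939
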