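import Pool.Agent.Lib.MP_939ffc_anC.Geo1
import Pool.Agent.Lib.MP_939ffc_anC.VolJ

open MeasureTheory Set Metric Filter Topology
open scoped ENNReal NNReal Pointwise
open Pool.Agent.Lib.MP_deb14e_an Pool.Agent.MPdeb14eM

namespace BM939

private theorem VolB_vb {d : ℕ} : vb d = √Real.pi ^ d / Real.Gamma ((d : ℝ) / 2 + 1) := by
  rcases Nat.eq_zero_or_pos d with rfl | hd
  · have h1 : (volume : Measure (E 0)) = Measure.dirac 0 :=
      volume_euclideanSpace_eq_dirac (Fin 0)
    unfold vb
    rw [h1, Measure.dirac_apply_of_mem (mem_ball_self one_pos)]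
    simp
  · have : Nonempty (Fin d) := ⟨⟨0, hd⟩⟩
    unfold vb
    rw [EuclideanSpace.volume_ball, ENNReal.ofReal_one, one_pow, one_mul, ENNReal.toReal_ofReal,
      Fintype.card_fin]
    exact div_nonneg (pow_nonneg (Real.sqrt_nonneg _) _)
      (Real.Gamma_pos_of_pos (by positivity)).le

private theorem VolB_two (d : ℕ) : vb (d + 2) = 2 * Real.pi / ((d : ℝ) + 2) * vb d := by
  rw [VolB_vb, VolB_vb, pow_add, Real.sq_sqrt Real.pi_pos.le]
  have h1 : (((d + 2 : ℕ) : ℝ) / 2 + 1) = ((d : ℝ) / 2 + 1) + 1 := by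
    push_cast
    ring
  rw [h1, Real.Gamma_add_one (by positivity)]
  have h2 : Real.Gamma ((d : ℝ) / 2 + 1) ≠ 0 := (Real.Gamma_pos_of_pos (by positivity)).ne'
  field_simp

private theorem VolB_one : vb 1 = 2 := by
  rw [VolB_vb]
  have e : (((1 : ℕ) : ℝ) / 2 + 1) = 1 / 2 + 1 := by norm_num
  rw [e, Real.Gamma_add_one (by norm_num), Real.Gamma_one_half_eq, pow_one]
  have h4 : 0 < √Real.pi := Real.sqrt_pos.2 Real.pi_pos
  field_simp

private theorem VolB_zero : vb 0 = 1 := by
  rw [VolB_vb]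
  simp

private theorem VolB_J0 : J 0 = 2 := by
  rw [J]
  simp
  norm_num

private theorem VolB_J1 : J 1 = Real.pi / 2 := by
  rw [J]
  simp only [pow_one]
  exact integral_sqrt_one_sub_sq

/-- The unit ball of `ℝ^(m+1)` in slices. -/
theorem vb_succ (m : ℕ) : vb (m + 1) = vb m * J m := by
  induction m using Nat.twoStepInduction with
  | zero => rw [VolB_J0, VolB_zero, zero_add, VolB_one, one_mul]
  | one =>
    have h := VolB_two 0
    rw [VolB_J1, VolB_one]
    rw [zero_add, VolB_zero] at h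
    rw [h]
    norm_num
    ring
  | more m ih _ =>
    have e : m + 2 + 1 = (m + 1) + 2 := by ring
    rw [e, VolB_two (m + 1), VolB_two m, J_add_two, ih]
    push_cast
    field_simp
    ring

end BM939
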