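import Pool.Agent.Lib.MP_939ffc_anC.StrictKey
import Pool.Agent.Lib.MP_939ffc_anC.MainA
import Pool.Agent.Lib.MP_939ffc_anC.VolB
import Pool.Agent.Lib.MP_939ffc_anC.Geo2

open MeasureTheory Set Metric Filter Topology
open scoped ENNReal NNReal Pointwise
open Pool.Agent.Lib.MP_deb14e_an Pool.Agent.MPdeb14eM

namespace BM939

private theorem mas_vb_pos (d : ℕ) : 0 < vb d := by
  unfold vb
  refine ENNReal.toReal_pos (measure_ball_pos _ _ one_pos).ne' measure_ball_lt_top.ne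

private theorem mas_int {n : ℕ} {Ω : Set (E n)} (hΩ : ConvexDomain Ω) {f : E n → ℝ}
    (hf : Continuous f) : IntegrableOn f Ω := by
  obtain ⟨-, hbd, ho, -⟩ := hΩ
  have hcpt : IsCompact (closure Ω) := hbd.isCompact_closure
  exact (hf.continuousOn.integrableOn_compact hcpt).mono_set subset_closure

private theorem mas_split {n : ℕ} {Ω : Set (E n)} (hΩ : ConvexDomain Ω) (R : ℝ) :
    ∫ x in Ω, (R ^ 2 - ‖x‖ ^ 2) = R ^ 2 * (volume Ω).toReal - ∫ x in Ω, ‖x‖ ^ 2 := by
  rw [integral_sub (mas_int hΩ (f := fun _ => R ^ 2) continuous_const)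
    (mas_int hΩ (f := fun x => ‖x‖ ^ 2) (by fun_prop))]
  congr 1
  rw [setIntegral_const, smul_eq_mul, mul_comm]
  rfl

/-- PROOF: `R = sup ‖x‖` over `closure Ω` is attained at some `y`. If `R ≤ 1`, `Ω` is the unit ball (up to the
boundary) : equality by `integral_norm_sq_ball` (or `∫ ‖x‖^2 ≤ ...`). If `R > 1`: `∫ ‖x‖^2 = R^2 |Ω| - ∫ (R^2 - ‖x‖^2)
≤ R^2 |Ω| - vb m * delta m R`, `v = |Ω| / vb (m+1) ≥ 1`, `vb (m+1) = vb m * J m`, `key`. -/
theorem mom_two_lt {m : ℕ} (hm : 2 ≤ m) {Ω : Set (E (m + 1))} (hΩ : ConvexDomain Ω) (hb : ball 0 1 ⊆ Ω)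
    (hne : Ω ≠ ball 0 1) :
    ((m : ℝ) + 3) * ∫ x in Ω, ‖x‖ ^ 2 <
      ((m : ℝ) + 1) * vb (m + 1) * ((volume Ω).toReal / vb (m + 1)) ^ (m + 2) := by
  have hbd : Bornology.IsBounded Ω := hΩ.2.1
  have hcpt : IsCompact (closure Ω) := hbd.isCompact_closure
  have hvb := mas_vb_pos (m + 1)
  have hvbm := mas_vb_pos m
  have hm0 : (0 : ℝ) < (m : ℝ) + 3 := by positivity
  have hfin : volume Ω ≠ ⊤ := hbd.measure_lt_top.ne
  obtain ⟨y, hy, hmax⟩ := hcpt.exists_isMaxOn hΩ.1.closure continuous_norm.continuousOn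
  set R := ‖y‖ with hR
  have hle : ∀ x ∈ Ω, ‖x‖ ≤ R := fun x hx => hmax (subset_closure hx)
  have hv1 : 1 ≤ (volume Ω).toReal / vb (m + 1) := by
    rw [one_le_div hvb]
    exact ENNReal.toReal_mono hfin (measure_mono hb)
  rcases le_or_gt R 1 with h1 | h1
  · -- `Ω = ball 0 1` up to the boundary
    have hsub : Ω ⊆ ball 0 1 := by
      have h2 : Ω ⊆ closedBall 0 1 := fun x hx => by
        rw [mem_closedBall_zero_iff]
        exact (hle x hx).trans h1
      have h3 : Ω ⊆ interior (closedBall (0 : E (m + 1)) 1) :=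
        interior_maximal h2 hΩ.2.2.1
      rwa [interior_closedBall _ one_ne_zero] at h3
    have he : Ω = ball 0 1 := Subset.antisymm hsub hb
    exact absurd he hne
  · have hd := delta_le (by omega) hΩ hb h1 hy hR.symm hle
    rw [mas_split hΩ R] at hd
    have hk := key_lt hm h1 hv1
    have hJ := J_pos m
    have hvs := vb_succ m
    set v := (volume Ω).toReal / vb (m + 1) with hv
    have hvol : (volume Ω).toReal = v * vb (m + 1) := by
      rw [hv, div_mul_cancel₀ _ hvb.ne']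
    set I := ∫ x in Ω, ‖x‖ ^ 2 with hI
    have h7 : I ≤ R ^ 2 * (v * vb (m + 1)) - vb m * delta m R := by
      rw [← hvol]; linarith
    have h8 : vb m * delta m R = vb (m + 1) * (delta m R / J m) := by
      rw [hvs]
      field_simp
    have h9 : I ≤ vb (m + 1) * (R ^ 2 * v - delta m R / J m) := by
      rw [h8] at h7
      linarith
    have h10 : I < vb (m + 1) * (((m : ℝ) + 1) / (m + 3) * v ^ (m + 2)) :=
      h9.trans_lt (mul_lt_mul_of_pos_left hk hvb)
    calc ((m : ℝ) + 3) * I < ((m : ℝ) + 3) * (vb (m + 1) * (((m : ℝ) + 1) / (m + 3) * v ^ (m + 2))) :=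
          mul_lt_mul_of_pos_left h10 hm0
      _ = ((m : ℝ) + 1) * vb (m + 1) * v ^ (m + 2) := by
          field_simp

end BM939
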