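import Pool.Agent.Lib.MP_939ffc_anC.Main
import Pool.Agent.Lib.MP_939ffc_anC.StrictA

open MeasureTheory Set Metric Filter Topology
open scoped ENNReal NNReal Pointwise
open Pool.Agent.Lib.MP_deb14e_an Pool.Agent.MPdeb14eM

namespace BM939

/-- The unit ball case, strict form. -/
theorem main_unit_lt {m : ℕ} (hm : 2 ≤ m) {Ω : Set (E (m + 1))} (hΩ : ConvexDomain Ω)
    (hC : Circumscribed Ω 0 1) (hne : Ω ≠ ball 0 1) : calF Ω < calF (ball (0 : E (m + 1)) 1) := by
  have hh : 0 < hausdorffConst (m : ℝ) := hausdorffConst_pos (Nat.cast_nonneg m)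
  have hk : 0 < kap m := kap_pos m
  have hω : 0 < vb (m + 1) := vb_pos (m + 1)
  have hΩfin : volume Ω < ⊤ := hΩ.2.1.measure_lt_top
  have hV : 0 < (volume Ω).toReal :=
    ENNReal.toReal_pos (hΩ.2.2.1.measure_pos _ hΩ.1).ne' hΩfin.ne
  have hfin := frontier_lt_top hΩ
  -- the perimeter
  have hP : hausdorffConst m * kap m * (m + 1) * (volume Ω).toReal ≤ perimeter (m + 1) Ω := by
    have h1 := le_bd hΩ hC
    rw [Main_bd_zero, Main_mom_zero] at h1
    have h2 := ENNReal.toReal_mono hfin.ne h1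
    rw [ENNReal.toReal_mul, ENNReal.toReal_ofReal (by positivity)] at h2
    rw [perimeter_eq]
    calc hausdorffConst m * kap m * (m + 1) * (volume Ω).toReal
        = hausdorffConst m * (kap m * (m + 1) * (volume Ω).toReal) := by ring
      _ ≤ _ := mul_le_mul_of_nonneg_left h2 hh.le
  -- the momentum
  have hM : momentum Ω 0 < hausdorffConst m * kap m * (m + 1) * vb (m + 1) *
      ((volume Ω).toReal / vb (m + 1)) ^ (m + 2) := by
    have h1 := bd_le (p := 2) hΩ hC.1
    have h2 := ENNReal.toReal_mono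
      (ENNReal.mul_lt_top ENNReal.ofReal_lt_top (Main_mom_two_lt hΩ)).ne h1
    rw [ENNReal.toReal_mul, ENNReal.toReal_ofReal (by positivity), Main_mom_two] at h2
    have h3 := mom_two_lt hm hΩ hC.1 hne
    rw [Main_momentum_zero]
    push_cast at h2
    calc hausdorffConst m * (bd 2 Ω).toReal
        ≤ hausdorffConst m * (kap m * (m + 1 + 2) * ∫ x in Ω, ‖x‖ ^ 2) :=
          mul_le_mul_of_nonneg_left h2 hh.le
      _ = hausdorffConst m * kap m * (((m : ℝ) + 3) * ∫ x in Ω, ‖x‖ ^ 2) := by ring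
      _ < hausdorffConst m * kap m * (((m : ℝ) + 1) * vb (m + 1) *
          ((volume Ω).toReal / vb (m + 1)) ^ (m + 2)) :=
          mul_lt_mul_of_pos_left h3 (by positivity)
      _ = _ := by ring
  -- the ball
  have hPb : perimeter (m + 1) (ball (0 : E (m + 1)) 1) =
      hausdorffConst m * kap m * (m + 1) * vb (m + 1) := by
    rw [perimeter_eq, ← Main_bd_zero, bd_ball, ENNReal.toReal_ofReal (by positivity)]
    ring
  have hVb : (volume (ball (0 : E (m + 1)) 1)).toReal = vb (m + 1) := rfl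
  have h0 : ⨅ x₀ : E (m + 1), momentum Ω x₀ ≤ momentum Ω 0 :=
    ciInf_le ⟨0, by rintro _ ⟨x, rfl⟩; exact Main_momentum_nonneg Ω x⟩ 0
  have hb : perimeter (m + 1) (ball (0 : E (m + 1)) 1) ≤
      ⨅ x₀ : E (m + 1), momentum (ball (0 : E (m + 1)) 1) x₀ :=
    le_ciInf fun x₀ => momentum_ball_ge x₀
  unfold calF
  rw [hVb]
  rw [hPb] at hb ⊢
  have hPpos : 0 < perimeter (m + 1) Ω := perimeter_pos hΩ
  calc (volume Ω).toReal ^ ((m + 1 - 2) * (m + 1 + 1)) / perimeter (m + 1) Ω ^ ((m + 1) ^ 2 - 1) *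
        ⨅ x₀ : E (m + 1), momentum Ω x₀
      ≤ (volume Ω).toReal ^ ((m + 1 - 2) * (m + 1 + 1)) /
          perimeter (m + 1) Ω ^ ((m + 1) ^ 2 - 1) * momentum Ω 0 :=
        mul_le_mul_of_nonneg_left h0 (by positivity)
    _ < (volume Ω).toReal ^ ((m + 1 - 2) * (m + 1 + 1)) /
          perimeter (m + 1) Ω ^ ((m + 1) ^ 2 - 1) *
          (hausdorffConst m * kap m * (m + 1) * vb (m + 1) *
            ((volume Ω).toReal / vb (m + 1)) ^ (m + 2)) :=
        mul_lt_mul_of_pos_left hM (by positivity)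
    _ ≤ vb (m + 1) ^ ((m + 1 - 2) * (m + 1 + 1)) /
          (hausdorffConst m * kap m * (m + 1) * vb (m + 1)) ^ ((m + 1) ^ 2 - 1) *
          (hausdorffConst m * kap m * (m + 1) * vb (m + 1)) :=
        Main_arith (by omega) (mul_pos hh hk) hω hV hP le_rfl (by positivity)
    _ ≤ _ := mul_le_mul_of_nonneg_left hb (by positivity)

theorem main_lt {m : ℕ} (hm : 2 ≤ m) {Ω : Set (E (m + 1))} (hΩ : ConvexDomain Ω) {c : E (m + 1)}
    {r : ℝ} (hr : 0 < r) (hC : Circumscribed Ω c r) (hne : Ω ≠ ball c r) {c' : E (m + 1)} {r' : ℝ}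
    (hr' : 0 < r') : calF Ω < calF (ball c' r') := by
  obtain ⟨e, he⟩ : ∃ e : E (m + 1) ≃ₗᵢ[ℝ] E (m + 1), e = LinearIsometryEquiv.refl ℝ _ := ⟨_, rfl⟩
  have hri : 0 < r⁻¹ := inv_pos.2 hr
  obtain ⟨Ω', hΩ'⟩ : ∃ Ω' : Set (E (m + 1)), Ω' = sim e (-(r⁻¹ • c)) r⁻¹ '' Ω := ⟨_, rfl⟩
  have hsim : ∀ x, sim e (-(r⁻¹ • c)) r⁻¹ x = r⁻¹ • (x - c) := by
    intro x
    rw [sim, he, LinearIsometryEquiv.coe_refl, id, smul_sub]
    abel
  have hD : ConvexDomain Ω' := by
    rw [hΩ']
    exact convexDomain_sim e _ hri hΩ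
  have himg : (fun x => c + r • x) '' Ω' = Ω := by
    rw [hΩ', image_image]
    have : ∀ x, c + r • sim e (-(r⁻¹ • c)) r⁻¹ x = x := by
      intro x
      rw [hsim, smul_smul, mul_inv_cancel₀ hr.ne', one_smul, add_sub_cancel]
    simp only [this, image_id']
  have hmem : ∀ x, x ∈ Ω' ↔ c + r • x ∈ Ω := by
    intro x
    constructor
    · intro hx
      rw [← himg]
      exact ⟨x, hx, rfl⟩
    · intro hx
      rw [hΩ']
      refine ⟨_, hx, ?_⟩
      rw [hsim, add_sub_cancel_left, smul_smul, inv_mul_cancel₀ hr.ne', one_smul]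
  have hfr : ∀ x, x ∈ frontier Ω' → c + r • x ∈ frontier Ω := by
    intro x hx
    have h1 : frontier Ω' = sim e (-(r⁻¹ • c)) r⁻¹ '' frontier Ω := by
      rw [hΩ', ← SimH_coe e _ hri]
      exact ((SimH e _ hri).image_frontier Ω).symm
    rw [h1] at hx
    obtain ⟨z, hz, rfl⟩ := hx
    rw [hsim, smul_smul, mul_inv_cancel₀ hr.ne', one_smul, add_sub_cancel]
    exact hz
  have hC' : Circumscribed Ω' 0 1 := by
    refine ⟨fun x hx => ?_, fun x hx => ?_⟩
    · rw [hmem]
      apply hC.1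
      rw [← Main_ball_image c hr]
      exact ⟨x, hx, rfl⟩
    · obtain ⟨u, hu, h1, h2⟩ := hC.2 _ (hfr x hx)
      refine ⟨u, hu, ?_, fun y hy => ?_⟩
      · rw [add_sub_cancel_left, inner_smul_right] at h1
        rw [sub_zero]
        have : r * inner ℝ u x = r * 1 := by rw [h1, mul_one]
        exact mul_left_cancel₀ hr.ne' this
      · have h3 := h2 _ ((hmem y).1 hy)
        rw [add_sub_cancel_left, inner_smul_right] at h3
        rw [sub_zero]
        by_contra hc
        push Not at hc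
        nlinarith
  have hne' : Ω' ≠ ball 0 1 := by
    intro h
    apply hne
    rw [← himg, h]
    exact Main_ball_image c hr
  have h1 := main_unit_lt hm hD hC' hne'
  have h2 := calF_homothety (m := m) (by omega) Ω' c hr
  have h3 := calF_homothety (m := m) (by omega) (ball (0 : E (m + 1)) 1) c' hr'
  rw [himg] at h2
  rw [Main_ball_image c' hr'] at h3
  rw [h2, h3]
  exact h1

/-- All balls have the same value. -/
theorem calF_ball {m : ℕ} (hm : 1 ≤ m) (c c' : E (m + 1)) {r r' : ℝ} (hr : 0 < r) (hr' : 0 < r') :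
    calF (ball c r) = calF (ball c' r') := by
  have h3 := calF_homothety (m := m) hm (ball (0 : E (m + 1)) 1) c' hr'
  have h4 := calF_homothety (m := m) hm (ball (0 : E (m + 1)) 1) c hr
  rw [Main_ball_image c' hr'] at h3
  rw [Main_ball_image c hr] at h4
  rw [h3, h4]

end BM939
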