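import Pool.Agent.Lib.MP_939ffc_anC.Main2
import Pool.Agent.Lib.MP_939ffc_anC.Main3

open MeasureTheory Set Metric Filter Topology
open scoped ENNReal NNReal Pointwise
open Pool.Agent.Lib.MP_deb14e_an Pool.Agent.MPdeb14eM

namespace BM939

theorem main4_unit {m : ℕ} (hm : 2 ≤ m) {Ω : Set (E (m + 1))} (hΩ : ConvexDomain Ω)
    (hC : ball 0 1 ⊆ Ω) (hne : Ω ≠ ball 0 1) : calF Ω <
      ((volume Ω).toReal * perimeter (m + 1) (ball (0 : E (m + 1)) 1) /
        (perimeter (m + 1) Ω * (volume (ball (0 : E (m + 1)) 1)).toReal)) ^ ((m + 1) ^ 2 - 1) *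
      calF (ball (0 : E (m + 1)) 1) := by
  have hh : 0 < hausdorffConst (m : ℝ) := hausdorffConst_pos (Nat.cast_nonneg m)
  have hk : 0 < kap m := kap_pos m
  have hω : 0 < vb (m + 1) := vb_pos (m + 1)
  have hΩfin : volume Ω < ⊤ := hΩ.2.1.measure_lt_top
  have hV : 0 < (volume Ω).toReal :=
    ENNReal.toReal_pos (hΩ.2.2.1.measure_pos _ hΩ.1).ne' hΩfin.ne
  -- the momentum
  have hM : momentum Ω 0 < (hausdorffConst m * kap m * (m + 1)) * vb (m + 1) *
      ((volume Ω).toReal / vb (m + 1)) ^ (m + 2) := by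
    have h1 := bd_le (p := 2) hΩ hC
    have h2 := ENNReal.toReal_mono
      (ENNReal.mul_lt_top ENNReal.ofReal_lt_top (Main_mom_two_lt hΩ)).ne h1
    rw [ENNReal.toReal_mul, ENNReal.toReal_ofReal (by positivity), Main_mom_two] at h2
    have h3 := mom_two_lt hm hΩ hC hne
    rw [Main_momentum_zero]
    push_cast at h2
    calc hausdorffConst m * (bd 2 Ω).toReal
        ≤ hausdorffConst m * (kap m * (m + 1 + 2) * ∫ x in Ω, ‖x‖ ^ 2) :=
          mul_le_mul_of_nonneg_left h2 hh.le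
      _ = hausdorffConst m * kap m * (((m : ℝ) + 3) * ∫ x in Ω, ‖x‖ ^ 2) := by ring
      _ < hausdorffConst m * kap m * (((m : ℝ) + 1) * vb (m + 1) *
          ((volume Ω).toReal / vb (m + 1)) ^ (m + 2)) :=
          mul_lt_mul_of_pos_left h3 (by positivity)
      _ = _ := by ring
  -- the ball
  have hPb : perimeter (m + 1) (ball (0 : E (m + 1)) 1) =
      (hausdorffConst m * kap m * (m + 1)) * vb (m + 1) := by
    rw [perimeter_eq, ← Main_bd_zero, bd_ball, ENNReal.toReal_ofReal (by positivity)]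
    ring
  have hVb : (volume (ball (0 : E (m + 1)) 1)).toReal = vb (m + 1) := rfl
  have h0 : ⨅ x₀ : E (m + 1), momentum Ω x₀ ≤ momentum Ω 0 :=
    ciInf_le ⟨0, by rintro _ ⟨x, rfl⟩; exact Main_momentum_nonneg Ω x⟩ 0
  have hb : perimeter (m + 1) (ball (0 : E (m + 1)) 1) ≤
      ⨅ x₀ : E (m + 1), momentum (ball (0 : E (m + 1)) 1) x₀ :=
    le_ciInf fun x₀ => momentum_ball_ge x₀
  unfold calF
  rw [hVb]
  rw [hPb] at hb ⊢
  have hPpos : 0 < perimeter (m + 1) Ω := perimeter_pos hΩ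
  calc (volume Ω).toReal ^ ((m + 1 - 2) * (m + 1 + 1)) / perimeter (m + 1) Ω ^ ((m + 1) ^ 2 - 1) *
        ⨅ x₀ : E (m + 1), momentum Ω x₀
      ≤ (volume Ω).toReal ^ ((m + 1 - 2) * (m + 1 + 1)) /
          perimeter (m + 1) Ω ^ ((m + 1) ^ 2 - 1) * momentum Ω 0 :=
        mul_le_mul_of_nonneg_left h0 (by positivity)
    _ < (volume Ω).toReal ^ ((m + 1 - 2) * (m + 1 + 1)) /
          perimeter (m + 1) Ω ^ ((m + 1) ^ 2 - 1) *
          ((hausdorffConst m * kap m * (m + 1)) * vb (m + 1) *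
            ((volume Ω).toReal / vb (m + 1)) ^ (m + 2)) :=
        mul_lt_mul_of_pos_left hM (by positivity)
    _ ≤ _ := Main2_arith (by omega) (by positivity) hω hV hPpos le_rfl
    _ ≤ _ := mul_le_mul_of_nonneg_left (mul_le_mul_of_nonneg_left hb (by positivity)) (by positivity)

theorem main4 {m : ℕ} (hm : 2 ≤ m) {Ω : Set (E (m + 1))} (hΩ : ConvexDomain Ω) {c : E (m + 1)} {r : ℝ}
    (hr : 0 < r) (hC : ball c r ⊆ Ω) (hne : Ω ≠ ball c r) : calF Ω <
      ((volume Ω).toReal * perimeter (m + 1) (ball c r) /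
        (perimeter (m + 1) Ω * (volume (ball c r)).toReal)) ^ ((m + 1) ^ 2 - 1) *
      calF (ball c r) := by
  obtain ⟨e, he⟩ : ∃ e : E (m + 1) ≃ₗᵢ[ℝ] E (m + 1), e = LinearIsometryEquiv.refl ℝ _ := ⟨_, rfl⟩
  have hri : 0 < r⁻¹ := inv_pos.2 hr
  obtain ⟨Ω', hΩ'⟩ : ∃ Ω' : Set (E (m + 1)), Ω' = sim e (-(r⁻¹ • c)) r⁻¹ '' Ω := ⟨_, rfl⟩
  have hsim : ∀ x, sim e (-(r⁻¹ • c)) r⁻¹ x = r⁻¹ • (x - c) := by
    intro x
    rw [sim, he, LinearIsometryEquiv.coe_refl, id, smul_sub]
    abel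
  have hD : ConvexDomain Ω' := by
    rw [hΩ']
    exact convexDomain_sim e _ hri hΩ
  have himg : (fun x => c + r • x) '' Ω' = Ω := by
    rw [hΩ', image_image]
    have : ∀ x, c + r • sim e (-(r⁻¹ • c)) r⁻¹ x = x := by
      intro x
      rw [hsim, smul_smul, mul_inv_cancel₀ hr.ne', one_smul, add_sub_cancel]
    simp only [this, image_id']
  have hC' : ball 0 1 ⊆ Ω' := by
    intro x hx
    rw [hΩ']
    refine ⟨c + r • x, hC ?_, ?_⟩
    · rw [← Main_ball_image c hr]
      exact ⟨x, hx, rfl⟩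
    · rw [hsim, add_sub_cancel_left, smul_smul, inv_mul_cancel₀ hr.ne', one_smul]
  have hne' : Ω' ≠ ball 0 1 := by
    intro h
    apply hne
    rw [← himg, h]
    exact Main_ball_image c hr
  have h1 := main4_unit hm hD hC' hne'
  have h2 := calF_homothety (m := m) (by omega) Ω' c hr
  have h3 := calF_homothety (m := m) (by omega) (ball (0 : E (m + 1)) 1) c hr
  have h4 := Main2_volume c hr Ω'
  have h5 := Main2_volume c hr (ball (0 : E (m + 1)) 1)
  have h6 := Main2_perimeter c hr Ω'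
  have h7 := Main2_perimeter c hr (ball (0 : E (m + 1)) 1)
  rw [himg] at h2 h4 h6
  rw [Main_ball_image c hr] at h3 h5 h7
  rw [h2, h3, h4, h5, h6, h7]
  have h8 : r ^ (m + 1) * (volume Ω').toReal * (r ^ m * perimeter (m + 1) (ball (0 : E (m + 1)) 1)) /
      (r ^ m * perimeter (m + 1) Ω' * (r ^ (m + 1) * (volume (ball (0 : E (m + 1)) 1)).toReal)) =
      (volume Ω').toReal * perimeter (m + 1) (ball (0 : E (m + 1)) 1) /
        (perimeter (m + 1) Ω' * (volume (ball (0 : E (m + 1)) 1)).toReal) := by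
    have e1 : r ^ (m + 1) * (volume Ω').toReal *
        (r ^ m * perimeter (m + 1) (ball (0 : E (m + 1)) 1)) =
        (r ^ (m + 1) * r ^ m) *
          ((volume Ω').toReal * perimeter (m + 1) (ball (0 : E (m + 1)) 1)) := by ring
    have e2 : r ^ m * perimeter (m + 1) Ω' *
        (r ^ (m + 1) * (volume (ball (0 : E (m + 1)) 1)).toReal) =
        (r ^ (m + 1) * r ^ m) *
          (perimeter (m + 1) Ω' * (volume (ball (0 : E (m + 1)) 1)).toReal) := by ring
    rw [e1, e2, mul_div_mul_left _ _ (by positivity)]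
  rw [h8]
  exact h1

/-- The bound is an equality for the ball itself. -/
theorem main4_ball {m : ℕ} (c : E (m + 1)) {r : ℝ} (hr : 0 < r) : calF (ball c r) =
      ((volume (ball c r)).toReal * perimeter (m + 1) (ball c r) /
        (perimeter (m + 1) (ball c r) * (volume (ball c r)).toReal)) ^ ((m + 1) ^ 2 - 1) *
      calF (ball c r) := by
  have hD : ConvexDomain (ball c r) :=
    ⟨⟨c, mem_ball_self hr⟩, isBounded_ball, isOpen_ball, convex_ball c r⟩
  have h1 : 0 < perimeter (m + 1) (ball c r) := perimeter_pos hD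
  have h2 : 0 < (volume (ball c r)).toReal :=
    ENNReal.toReal_pos (measure_ball_pos _ _ hr).ne' measure_ball_lt_top.ne
  rw [mul_comm (volume (ball c r)).toReal, div_self (by positivity), one_pow, one_mul]

end BM939
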