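import Pool.Agent.Lib.MP_939ffc_anC.Defs

open MeasureTheory Set Metric Filter Topology
open scoped ENNReal NNReal Pointwise
open Pool.Agent.Lib.MP_deb14e_an Pool.Agent.MPdeb14eM

namespace BM939

private theorem poly1_cont {n : ℕ} (a : E n) : Continuous fun x : E n => (inner ℝ a x : ℝ) :=
  continuous_const.inner continuous_id

theorem isOpen_poly {n : ℕ} (S : Finset (E n)) : IsOpen (poly S) := by
  have h : poly S = ⋂ a ∈ S, {x : E n | (inner ℝ a x : ℝ) < 1} := by
    ext x
    simp [poly]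
  rw [h]
  exact isOpen_biInter_finset fun a _ => isOpen_lt (poly1_cont a) continuous_const

theorem convex_poly {n : ℕ} (S : Finset (E n)) : Convex ℝ (poly S) := by
  have h : poly S = ⋂ a ∈ S, {x : E n | (inner ℝ a x : ℝ) < 1} := by
    ext x
    simp [poly]
  rw [h]
  refine convex_iInter₂ fun a _ => ?_
  exact convex_halfSpace_lt
    ⟨fun x y => inner_add_right a x y, fun c x => real_inner_smul_right a x c⟩ 1

theorem zero_mem_poly {n : ℕ} (S : Finset (E n)) : (0 : E n) ∈ poly S := by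
  intro a _
  rw [inner_zero_right]
  exact one_pos

theorem isClosed_facet {n : ℕ} (S : Finset (E n)) (a : E n) : IsClosed (facet S a) := by
  have h : facet S a = {x : E n | (inner ℝ a x : ℝ) = 1} ∩
      ⋂ b ∈ S, {x : E n | (inner ℝ b x : ℝ) ≤ 1} := by
    ext x
    simp [facet]
  rw [h]
  refine IsClosed.inter (isClosed_eq (poly1_cont a) continuous_const) ?_
  exact isClosed_biInter fun b _ => isClosed_le (poly1_cont b) continuous_const

/-- The cone over a facet. -/
theorem coneOn_facet {n : ℕ} (S : Finset (E n)) (a : E n) : coneOn (facet S a) =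
    {y | 0 < (inner ℝ a y : ℝ) ∧ (inner ℝ a y : ℝ) < 1 ∧ ∀ b ∈ S, (inner ℝ b y : ℝ) ≤ inner ℝ a y} := by
  ext y
  constructor
  · rintro ⟨s, ⟨hs0, hs1⟩, x, ⟨hx1, hx2⟩, rfl⟩
    have e : (inner ℝ a (s • x) : ℝ) = s := by
      rw [real_inner_smul_right, hx1, mul_one]
    refine ⟨by rw [e]; exact hs0, by rw [e]; exact hs1, fun b hb => ?_⟩
    rw [e, real_inner_smul_right]
    exact mul_le_of_le_one_right hs0.le (hx2 b hb)
  · rintro ⟨h0, h1, h2⟩
    refine ⟨inner ℝ a y, ⟨h0, h1⟩, (inner ℝ a y : ℝ)⁻¹ • y, ⟨?_, fun b hb => ?_⟩, ?_⟩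
    · rw [real_inner_smul_right]
      exact inv_mul_cancel₀ h0.ne'
    · rw [real_inner_smul_right, inv_mul_le_iff₀ h0, mul_one]
      exact h2 b hb
    · rw [smul_smul, mul_inv_cancel₀ h0.ne', one_smul]

theorem measurableSet_coneOn_facet {n : ℕ} (S : Finset (E n)) (a : E n) :
    MeasurableSet (coneOn (facet S a)) := by
  have h : coneOn (facet S a) = {y : E n | 0 < (inner ℝ a y : ℝ)} ∩
      ({y : E n | (inner ℝ a y : ℝ) < 1} ∩
        ⋂ b ∈ S, {y : E n | (inner ℝ b y : ℝ) ≤ inner ℝ a y}) := by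
    rw [coneOn_facet]
    ext y
    simp
  rw [h]
  refine (isOpen_lt continuous_const (poly1_cont a)).measurableSet.inter
    ((isOpen_lt (poly1_cont a) continuous_const).measurableSet.inter ?_)
  exact Finset.measurableSet_biInter _ fun b _ =>
    (isClosed_le (poly1_cont b) (poly1_cont a)).measurableSet

theorem frontier_poly_subset {n : ℕ} (S : Finset (E n)) :
    frontier (poly S) ⊆ ⋃ a ∈ S, facet S a := by
  intro x hx
  rw [(isOpen_poly S).frontier_eq] at hx
  obtain ⟨hx1, hx2⟩ := hx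
  have hcl : IsClosed (⋂ b ∈ S, {x : E n | (inner ℝ b x : ℝ) ≤ 1}) :=
    isClosed_biInter fun b _ => isClosed_le (poly1_cont b) continuous_const
  have hsub : poly S ⊆ ⋂ b ∈ S, {x : E n | (inner ℝ b x : ℝ) ≤ 1} := by
    intro z hz
    simp only [mem_iInter]
    intro b hb
    exact (hz b hb).le
  have hle : ∀ b ∈ S, (inner ℝ b x : ℝ) ≤ 1 := by
    have := closure_minimal hsub hcl hx1
    simp only [mem_iInter] at this
    exact this
  have hex : ∃ a ∈ S, ¬ (inner ℝ a x : ℝ) < 1 := by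
    by_contra hcon
    push Not at hcon
    exact hx2 hcon
  obtain ⟨a, ha, hax⟩ := hex
  simp only [mem_iUnion]
  exact ⟨a, ha, le_antisymm (hle a ha) (not_lt.1 hax), hle⟩

private theorem poly1_smul {n : ℕ} {S : Finset (E n)} {x : E n}
    (hx : ∀ b ∈ S, (inner ℝ b x : ℝ) ≤ 1) {t : ℝ} (h0 : 0 < t) (h1 : t < 1) : t • x ∈ poly S := by
  intro b hb
  rw [real_inner_smul_right]
  exact lt_of_le_of_lt (mul_le_of_le_one_right h0.le (hx b hb)) h1

theorem facet_subset_frontier {n : ℕ} {S : Finset (E n)} {a : E n} (ha : a ∈ S) :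
    facet S a ⊆ frontier (poly S) := by
  intro x hx
  rw [(isOpen_poly S).frontier_eq]
  refine ⟨?_, fun h => absurd (h a ha) (by rw [hx.1]; exact lt_irrefl _)⟩
  have ht : Tendsto (fun t : ℝ => t • x) (𝓝[<] (1 : ℝ)) (𝓝 ((1 : ℝ) • x)) :=
    ((continuous_id.smul continuous_const).tendsto (1 : ℝ)).mono_left nhdsWithin_le_nhds
  rw [one_smul] at ht
  refine mem_closure_of_tendsto ht ?_
  have h1 : Ioo (0 : ℝ) 1 ∈ 𝓝[<] (1 : ℝ) := Ioo_mem_nhdsLT one_pos
  filter_upwards [h1] with t ht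
  exact poly1_smul hx.2 ht.1 ht.2

theorem coneOn_facet_subset {n : ℕ} {S : Finset (E n)} {a : E n} (ha : a ∈ S) :
    coneOn (facet S a) ⊆ poly S := by
  rintro y ⟨s, ⟨hs0, hs1⟩, x, hx, rfl⟩
  exact poly1_smul hx.2 hs0 hs1

/-- If the polyhedron is bounded, it is covered by the cones (up to the origin): for `y ≠ 0` in `poly S` the
maximum of `⟨a, y⟩` over `a ∈ S` is positive, since otherwise the ray through `y` is in `poly S`. -/
theorem poly_subset_cones {n : ℕ} {S : Finset (E n)} (hb : Bornology.IsBounded (poly S)) :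
    poly S ⊆ {0} ∪ ⋃ a ∈ S, coneOn (facet S a) := by
  intro y hy
  by_cases hy0 : y = 0
  · exact Or.inl hy0
  · right
    have hpos : ∃ a ∈ S, 0 < (inner ℝ a y : ℝ) := by
      by_contra hcon
      push Not at hcon
      obtain ⟨R, hR⟩ := hb.exists_norm_le
      have hny : 0 < ‖y‖ := norm_pos_iff.2 hy0
      have hR0 : 0 ≤ R := by
        have := hR 0 (zero_mem_poly S)
        rwa [norm_zero] at this
      have hmem : ((R + 1) / ‖y‖) • y ∈ poly S := by
        intro b hbS
        rw [real_inner_smul_right]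
        have h1 : (R + 1) / ‖y‖ * inner ℝ b y ≤ 0 :=
          mul_nonpos_of_nonneg_of_nonpos (by positivity) (hcon b hbS)
        linarith
      have h2 := hR _ hmem
      rw [norm_smul, Real.norm_of_nonneg (by positivity), div_mul_cancel₀ _ hny.ne'] at h2
      linarith
    obtain ⟨a1, ha1, hpos1⟩ := hpos
    obtain ⟨a, ha, hmax⟩ := S.exists_max_image (fun b => (inner ℝ b y : ℝ)) ⟨a1, ha1⟩
    simp only [mem_iUnion]
    refine ⟨a, ha, ?_⟩
    rw [coneOn_facet]
    exact ⟨lt_of_lt_of_le hpos1 (hmax a1 ha1), hy a ha, hmax⟩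

end BM939
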