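import Pool.Agent.Lib.MP_939ffc_anC.Poly1
import Pool.Agent.Lib.MP_939ffc_anC.Cone1
import Pool.Agent.Lib.MP_deb14e_anM.Hyper

open MeasureTheory Set Metric Filter Topology
open scoped ENNReal NNReal Pointwise
open Pool.Agent.Lib.MP_deb14e_an Pool.Agent.MPdeb14eM

namespace BM939

private theorem poly2_ker_null {n : ℕ} {v : E n} (hv : v ≠ 0) :
    volume {w : E n | (inner ℝ v w : ℝ) = 0} = 0 := by
  have h1 : {w : E n | (inner ℝ v w : ℝ) = 0} =
      ((LinearMap.ker (innerSL ℝ v).toLinearMap : Submodule ℝ (E n)) : Set (E n)) := by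
    ext w
    simp
  rw [h1]
  refine Measure.addHaar_submodule _ _ fun htop => hv ?_
  have h2 : v ∈ LinearMap.ker (innerSL ℝ v).toLinearMap := by
    rw [htop]
    exact Submodule.mem_top
  have h3 : (inner ℝ v v : ℝ) = 0 := by simpa using h2
  exact inner_self_eq_zero.1 h3

private theorem poly2_hyper_null {n : ℕ} {v : E n} (hv : v ≠ 0) (c : ℝ) :
    volume {w : E n | (inner ℝ v w : ℝ) = c} = 0 := by
  have hvv : (inner ℝ v v : ℝ) ≠ 0 := fun h => hv (inner_self_eq_zero.1 h)
  have h1 : {w : E n | (inner ℝ v w : ℝ) = c} =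
      (fun w => w + -((c / inner ℝ v v) • v)) ⁻¹' {w : E n | (inner ℝ v w : ℝ) = 0} := by
    ext w
    simp only [mem_ofPred_eq, mem_preimage, inner_add_right, inner_neg_right,
      real_inner_smul_right]
    rw [div_mul_cancel₀ _ hvv, ← sub_eq_add_neg, sub_eq_zero]
  rw [h1, measure_preimage_add_right]
  exact poly2_ker_null hv

/-- The cones over different facets overlap in a set of volume zero: a common point `y` has
`⟨a - b, y⟩ = 0` (`coneOn_facet`), a proper subspace (`Measure.addHaar_submodule`). -/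
theorem aedisjoint_cones {n : ℕ} {S : Finset (E n)} {a b : E n} (ha : a ∈ S) (hb : b ∈ S) (hab : a ≠ b) :
    AEDisjoint volume (coneOn (facet S a)) (coneOn (facet S b)) := by
  refine measure_mono_null ?_ (poly2_ker_null (sub_ne_zero.2 hab))
  rw [coneOn_facet, coneOn_facet]
  rintro y ⟨⟨_, _, h1⟩, _, _, h2⟩
  rw [mem_ofPred_eq, inner_sub_left, sub_eq_zero]
  exact le_antisymm (h2 a ha) (h1 b hb)

/-- Two facets at distance one overlap in a set of `μH[m]`-measure zero. PROOF: `exists_rot a`: the intersection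
is mapped into `cons 1 '' A`, `A = {w | ⟨tl (e b), w⟩ = 1 - (e b) 0}`, and `tl (e b) ≠ 0`, since otherwise
`e b = ± e a`, so that `b = a` (excluded) or `b = - a` (then the intersection is empty). `A` is a proper affine
subspace of `E m`, so it has volume zero; then `lintegral_cons` with `f = 1` (or `hausdorff_eq` and the isometry
`cons 1`). -/
theorem facet_inter_null {m : ℕ} {S : Finset (E (m + 1))} {a b : E (m + 1)} (ha : ‖a‖ = 1) (hb : ‖b‖ = 1)
    (hab : a ≠ b) :
    (Measure.hausdorffMeasure (m : ℝ) : Measure (E (m + 1))) (facet S a ∩ facet S b) = 0 := by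
  obtain ⟨e, he⟩ := exists_rot a ha
  have hA0 : volume {w : E m | (inner ℝ (tl (e b)) w : ℝ) = 1 - (e b) 0} = 0 := by
    by_cases ht : tl (e b) = 0
    · have hn : ‖e b‖ ^ 2 = (e b) 0 ^ 2 := by
        rw [norm_sq_eq, ht, norm_zero]
        ring
      rw [e.norm_map, hb, he] at hn
      have h1 : (inner ℝ a b : ℝ) ≠ 1 := fun h =>
        hab ((inner_eq_one_iff_of_norm_eq_one ha hb).1 h)
      have h2 : {w : E m | (inner ℝ (tl (e b)) w : ℝ) = 1 - (e b) 0} = ∅ := by
        ext w
        simp only [mem_ofPred_eq, mem_empty_iff_false, iff_false]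
        intro h
        rw [ht, inner_zero_left, he] at h
        exact h1 (by linarith)
      rw [h2, measure_empty]
    · exact poly2_hyper_null ht _
  have hAm : MeasurableSet {w : E m | (inner ℝ (tl (e b)) w : ℝ) = 1 - (e b) 0} :=
    (isClosed_eq (continuous_const.inner continuous_id) continuous_const).measurableSet
  have hsub : e '' (facet S a ∩ facet S b) ⊆
      cons 1 '' {w : E m | (inner ℝ (tl (e b)) w : ℝ) = 1 - (e b) 0} := by
    rintro _ ⟨x, ⟨hx1, hx2⟩, rfl⟩
    have h0 : (e x) 0 = 1 := by rw [he]; exact hx1.1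
    refine ⟨tl (e x), ?_, ?_⟩
    · have h3 : (inner ℝ (e b) (e x) : ℝ) = 1 := by
        rw [e.inner_map_map]
        exact hx2.1
      rw [inner_eq, h0, mul_one] at h3
      rw [mem_ofPred_eq]
      linarith
    · rw [← h0]
      exact cons_tl (e x)
  have hiso := e.isometry.hausdorffMeasure_image (d := (m : ℝ)) (Or.inl (Nat.cast_nonneg m))
    (facet S a ∩ facet S b)
  rw [← hiso]
  refine measure_mono_null hsub ?_
  have h4 := lintegral_cons (1 : ℝ) hAm (f := fun _ => 1) measurable_const
  simp only [lintegral_const, one_mul, Measure.restrict_apply_univ, hA0, mul_zero] at h4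
  exact h4

end BM939
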