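import Pool.Agent.Lib.MP_939ffc_anC.Poly2
import Pool.Agent.Lib.MP_939ffc_anC.Cone3

open MeasureTheory Set Metric Filter Topology
open scoped ENNReal NNReal Pointwise
open Pool.Agent.Lib.MP_deb14e_an Pool.Agent.MPdeb14eM

namespace BM939

private theorem Poly3_sub {α β : Type*} [MeasurableSpace α] {μ : Measure α} (S : Finset β)
    (t : β → Set α) (f : α → ℝ≥0∞) :
    ∫⁻ x in ⋃ a ∈ S, t a, f x ∂μ ≤ ∑ a ∈ S, ∫⁻ x in t a, f x ∂μ := by
  classical
  induction S using Finset.induction_on with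
  | empty => simp
  | insert a s ha ih =>
    rw [Finset.set_biUnion_insert, Finset.sum_insert ha]
    exact (lintegral_union_le _ _ _).trans (add_le_add le_rfl ih)

private theorem Poly3_facet {m p : ℕ} (S : Finset (E (m + 1))) (a : E (m + 1)) (ha : ‖a‖ ≤ 1) :
    ∫⁻ x in facet S a, ENNReal.ofReal (‖x‖ ^ p) ∂(Measure.hausdorffMeasure (m : ℝ)) ≤
      ENNReal.ofReal (kap m * (m + 1 + p)) * ∫⁻ x in coneOn (facet S a), ENNReal.ofReal (‖x‖ ^ p) := by
  by_cases h0 : a = 0
  · have h1 : facet S a = ∅ := by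
      ext x
      simp only [mem_empty_iff_false, iff_false]
      rintro ⟨h, -⟩
      rw [h0, inner_zero_left] at h
      exact zero_ne_one h
    rw [h1]
    simp
  · have hn : 0 < ‖a‖ := norm_pos_iff.2 h0
    have hu : ‖(‖a‖⁻¹ • a : E (m + 1))‖ = 1 := by
      rw [norm_smul, norm_inv, norm_norm, inv_mul_cancel₀ hn.ne']
    have hh : 0 < 1 / ‖a‖ := by positivity
    have hF : MeasurableSet (facet S a) := (isClosed_facet S a).measurableSet
    have hFu : ∀ x ∈ facet S a, inner ℝ (‖a‖⁻¹ • a : E (m + 1)) x = 1 / ‖a‖ := by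
      intro x hx
      rw [real_inner_smul_left, hx.1, mul_one, one_div]
    rw [cone_formula p hu hh hF hFu]
    gcongr
    have h1 : 0 ≤ kap m * ((m : ℝ) + 1 + p) := mul_nonneg (kap_pos m).le (by positivity)
    rw [div_div_eq_mul_div, div_one]
    exact mul_le_of_le_one_right h1 ha

/-- PROOF: `frontier_poly_subset`, `lintegral_biUnion_finset_le`-type subadditivity, `cone_formula` for each facet
with `u = a / ‖a‖`, `h = 1 / ‖a‖ ≥ 1` (a facet with `a = 0` is empty), then the cones are a.e. disjoint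
(`aedisjoint_cones`) measurable subsets of `poly S` (`lintegral_biUnion_finset₀` or
`lintegral_iUnion_ae`). -/
theorem bd_poly_le {m p : ℕ} (S : Finset (E (m + 1))) (hS : ∀ a ∈ S, ‖a‖ ≤ 1) :
    bd p (poly S) ≤ ENNReal.ofReal (kap m * (m + 1 + p)) * mom p (poly S) := by
  unfold bd mom
  calc ∫⁻ x in frontier (poly S), ENNReal.ofReal (‖x‖ ^ p) ∂(Measure.hausdorffMeasure (m : ℝ))
      ≤ ∫⁻ x in ⋃ a ∈ S, facet S a, ENNReal.ofReal (‖x‖ ^ p) ∂(Measure.hausdorffMeasure (m : ℝ)) :=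
        lintegral_mono_set (frontier_poly_subset S)
    _ ≤ ∑ a ∈ S, ∫⁻ x in facet S a, ENNReal.ofReal (‖x‖ ^ p) ∂(Measure.hausdorffMeasure (m : ℝ)) :=
        Poly3_sub S _ _
    _ ≤ ∑ a ∈ S, ENNReal.ofReal (kap m * (m + 1 + p)) *
          ∫⁻ x in coneOn (facet S a), ENNReal.ofReal (‖x‖ ^ p) :=
        Finset.sum_le_sum fun a ha => Poly3_facet S a (hS a ha)
    _ = ENNReal.ofReal (kap m * (m + 1 + p)) *
          ∑ a ∈ S, ∫⁻ x in coneOn (facet S a), ENNReal.ofReal (‖x‖ ^ p) := by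
        rw [Finset.mul_sum]
    _ = ENNReal.ofReal (kap m * (m + 1 + p)) *
          ∫⁻ x in ⋃ a ∈ S, coneOn (facet S a), ENNReal.ofReal (‖x‖ ^ p) := by
        congr 1
        refine (lintegral_biUnion_finset₀ ?_ ?_ _).symm
        · intro a ha b hb hab
          exact aedisjoint_cones ha hb hab
        · intro a _
          exact (measurableSet_coneOn_facet S a).nullMeasurableSet
    _ ≤ ENNReal.ofReal (kap m * (m + 1 + p)) * ∫⁻ x in poly S, ENNReal.ofReal (‖x‖ ^ p) := by
        gcongr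
        exact iUnion₂_subset fun a ha => coneOn_facet_subset ha

end BM939
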