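import Pool.Agent.Lib.MP_939ffc_anC.Poly2
import Pool.Agent.Lib.MP_939ffc_anC.Cone3

open MeasureTheory Set Metric Filter Topology
open scoped ENNReal NNReal Pointwise
open Pool.Agent.Lib.MP_deb14e_an Pool.Agent.MPdeb14eM

namespace BM939

private theorem p4_lintegral_biUnion_le {α β : Type*} [MeasurableSpace α] (μ : Measure α)
    (s : Finset β) (t : β → Set α) (f : α → ℝ≥0∞) :
    ∫⁻ x in ⋃ b ∈ s, t b, f x ∂μ ≤ ∑ b ∈ s, ∫⁻ x in t b, f x ∂μ := by
  classical
  induction s using Finset.induction_on with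
  | empty => simp
  | insert a s ha ih =>
    rw [Finset.sum_insert ha, Finset.set_biUnion_insert]
    exact (lintegral_union_le f (t a) (⋃ b ∈ s, t b)).trans (by gcongr)

/-- PROOF: `mom 0 (poly S) = volume (poly S) ≤ ∑ volume (coneOn (facet S a))` (`poly_subset_cones`), `cone_formula`
with `p = 0`, `h = 1`, and the facets are subsets of the frontier with pairwise `μH[m]`-null intersections
(`facet_inter_null`, `measure_biUnion_finset₀`). -/
theorem le_bd_poly {m : ℕ} (S : Finset (E (m + 1))) (hS : ∀ a ∈ S, ‖a‖ = 1)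
    (hb : Bornology.IsBounded (poly S)) :
    ENNReal.ofReal (kap m * (m + 1)) * mom 0 (poly S) ≤ bd 0 (poly S) := by
  have hdisj : Set.Pairwise (↑S : Set (E (m + 1))) (Function.onFun (AEDisjoint
      (Measure.hausdorffMeasure (m : ℝ) : Measure (E (m + 1)))) (fun a => facet S a)) := by
    intro a ha b hb' hab
    exact facet_inter_null (hS a ha) (hS b hb') hab
  have hmeas : ∀ a ∈ S, NullMeasurableSet (facet S a)
      (Measure.hausdorffMeasure (m : ℝ) : Measure (E (m + 1))) := fun a _ =>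
    (isClosed_facet S a).measurableSet.nullMeasurableSet
  have h1 : ∑ a ∈ S, ∫⁻ x in facet S a, ENNReal.ofReal (‖x‖ ^ 0)
      ∂(Measure.hausdorffMeasure (m : ℝ)) ≤ bd 0 (poly S) := by
    rw [← lintegral_biUnion_finset₀ hdisj hmeas, bd]
    exact lintegral_mono_set (Set.iUnion₂_subset fun a ha => facet_subset_frontier ha)
  have h2 : ∀ a ∈ S, ∫⁻ x in facet S a, ENNReal.ofReal (‖x‖ ^ 0)
      ∂(Measure.hausdorffMeasure (m : ℝ)) =
      ENNReal.ofReal (kap m * (m + 1)) * ∫⁻ x in coneOn (facet S a), ENNReal.ofReal (‖x‖ ^ 0) := by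
    intro a ha
    have h := cone_formula 0 (hS a ha) one_pos (isClosed_facet S a).measurableSet
      (fun x hx => hx.1)
    rw [h]
    congr 2
    push_cast
    ring
  have h3 : mom 0 (poly S) ≤ ∑ a ∈ S, ∫⁻ x in coneOn (facet S a), ENNReal.ofReal (‖x‖ ^ 0) := by
    have h4 : mom 0 (poly S) ≤ ∫⁻ x in ({0} ∪ ⋃ a ∈ S, coneOn (facet S a) : Set (E (m + 1))),
        ENNReal.ofReal (‖x‖ ^ 0) := lintegral_mono_set (poly_subset_cones hb)
    have h5 : ∫⁻ x in ({0} : Set (E (m + 1))), ENNReal.ofReal (‖x‖ ^ 0) = 0 := by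
      rw [Measure.restrict_eq_zero.2 (measure_singleton (0 : E (m + 1))), lintegral_zero_measure]
    have h6 := lintegral_union_le (μ := (volume : Measure (E (m + 1))))
      (fun x => ENNReal.ofReal (‖x‖ ^ 0)) {0} (⋃ a ∈ S, coneOn (facet S a))
    rw [h5, zero_add] at h6
    exact h4.trans (h6.trans (p4_lintegral_biUnion_le _ _ _ _))
  calc ENNReal.ofReal (kap m * (m + 1)) * mom 0 (poly S)
      ≤ ENNReal.ofReal (kap m * (m + 1)) *
        ∑ a ∈ S, ∫⁻ x in coneOn (facet S a), ENNReal.ofReal (‖x‖ ^ 0) := by gcongr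
    _ = ∑ a ∈ S, ∫⁻ x in facet S a, ENNReal.ofReal (‖x‖ ^ 0)
        ∂(Measure.hausdorffMeasure (m : ℝ)) := by
      rw [Finset.mul_sum]
      exact Finset.sum_congr rfl fun a ha => (h2 a ha).symm
    _ ≤ bd 0 (poly S) := h1

end BM939
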