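import Pool.Agent.Lib.MP_939ffc_anC.Defs

open MeasureTheory Set Metric Filter Topology
open scoped ENNReal NNReal Pointwise
open Pool.Agent.Lib.MP_deb14e_an Pool.Agent.MPdeb14eM

namespace BM939

private theorem Real3s_poly {R : ℝ} (hR : 7 / 5 ≤ R) :
    11250 * R ^ 11 < (9 * R ^ 4 + 20 * R ^ 3 + 6 * R ^ 2 - 12 * R - 7) ^ 3 := by
  rcases lt_or_ge R (24 / 5) with h | h
  · have h1 : 0 ≤ 5 * R - 7 := by linarith
    have h2 : 0 < 24 - 5 * R := by linarith
    have key : (17 : ℝ) ^ 12 * 5 ^ 12 * ((9 * R ^ 4 + 20 * R ^ 3 + 6 * R ^ 2 - 12 * R - 7) ^ 3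
        - 11250 * R ^ 11) = 2042868993354 * ((5 * R - 7) ^ 0 * (24 - 5 * R) ^ 12) +
        354166424011386 * ((5 * R - 7) ^ 1 * (24 - 5 * R) ^ 11) +
        9684553765941936 * ((5 * R - 7) ^ 2 * (24 - 5 * R) ^ 10) +
        123992593033875840 * ((5 * R - 7) ^ 3 * (24 - 5 * R) ^ 9) +
        930367120577172480 * ((5 * R - 7) ^ 4 * (24 - 5 * R) ^ 8) +
        4467094239842942976 * ((5 * R - 7) ^ 5 * (24 - 5 * R) ^ 7) +
        14194686814736891904 * ((5 * R - 7) ^ 6 * (24 - 5 * R) ^ 6) +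
        29807825492832436224 * ((5 * R - 7) ^ 7 * (24 - 5 * R) ^ 5) +
        39797490414532596480 * ((5 * R - 7) ^ 8 * (24 - 5 * R) ^ 4) +
        30474311252033116160 * ((5 * R - 7) ^ 9 * (24 - 5 * R) ^ 3) +
        10012949322821879136 * ((5 * R - 7) ^ 10 * (24 - 5 * R) ^ 2) +
        75924897034416864 * ((5 * R - 7) ^ 11 * (24 - 5 * R) ^ 1) +
        429053982837819929 * ((5 * R - 7) ^ 12 * (24 - 5 * R) ^ 0) := by
      ring
    have h3 : 0 < (17 : ℝ) ^ 12 * 5 ^ 12 * ((9 * R ^ 4 + 20 * R ^ 3 + 6 * R ^ 2 - 12 * R - 7) ^ 3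
        - 11250 * R ^ 11) := by
      rw [key]
      positivity
    have h4 : (0 : ℝ) < 17 ^ 12 * 5 ^ 12 := by positivity
    linarith [(mul_pos_iff_of_pos_left h4).1 h3]
  · have h1 : 0 ≤ 5 * R - 24 := by linarith
    have key : (5 : ℝ) ^ 12 * ((9 * R ^ 4 + 20 * R ^ 3 + 6 * R ^ 2 - 12 * R - 7) ^ 3
        - 11250 * R ^ 11) = 429053982837819929 * (5 * R - 24) ^ 0 +
        298395464530554252 * (5 * R - 24) ^ 1 +
        129741655095984114 * (5 * R - 24) ^ 2 +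
        32540441454022620 * (5 * R - 24) ^ 3 +
        4980370471704855 * (5 * R - 24) ^ 4 +
        498505377566232 * (5 * R - 24) ^ 5 +
        34142437057596 * (5 * R - 24) ^ 6 +
        1636768996632 * (5 * R - 24) ^ 7 +
        55097712855 * (5 * R - 24) ^ 8 +
        1279910620 * (5 * R - 24) ^ 9 +
        19585314 * (5 * R - 24) ^ 10 +
        178002 * (5 * R - 24) ^ 11 +
        729 * (5 * R - 24) ^ 12 := by
      ring
    have h3 : 0 < (5 : ℝ) ^ 12 * ((9 * R ^ 4 + 20 * R ^ 3 + 6 * R ^ 2 - 12 * R - 7) ^ 3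
        - 11250 * R ^ 11) := by
      rw [key]
      positivity
    have h4 : (0 : ℝ) < 5 ^ 12 := by positivity
    linarith [(mul_pos_iff_of_pos_left h4).1 h3]

private theorem Real3s_amgm {a b c : ℝ} (ha : 0 ≤ a) (hb : 0 ≤ b) (h : c ^ 4 < 256 * a * b ^ 3) :
    c < a + 3 * b := by
  have h1 : 256 * a * b ^ 3 ≤ (a + 3 * b) ^ 4 := by
    have h2 : (a + 3 * b) ^ 4 - 256 * a * b ^ 3 = (a - b) ^ 2 * (a ^ 2 + 14 * a * b + 81 * b ^ 2) := by
      ring
    have h3 : 0 ≤ (a - b) ^ 2 * (a ^ 2 + 14 * a * b + 81 * b ^ 2) := by positivity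
    linarith
  exact lt_of_pow_lt_pow_left₀ 4 (by positivity) (h.trans_le h1)

/-- The strict form of `real_three`: for `R ≥ 7/5`, `Q = 9R⁴+20R³+6R²-12R-7` satisfies `Q³ ≥ 11250 R¹¹` (minimal quotient 1.0043 near 4.6). -/
theorem real_three_lt {R v : ℝ} (hR : 1 < R) (hv : 1 ≤ v) :
    40 * R ^ 3 * v < 24 * R * v ^ 4 + (9 * R ^ 4 + 20 * R ^ 3 + 6 * R ^ 2 - 12 * R - 7) := by
  rcases le_total R (7 / 5) with h | h
  · have h1 : 0 < (R - 1) ^ 3 * (9 * R + 7) := by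
      have : 0 < R - 1 := by linarith
      positivity
    have h2 : 0 ≤ (v - 1) * (R * (24 * (v ^ 3 + v ^ 2 + v + 1) - 40 * R ^ 2)) := by
      have h3 : 1 ≤ v ^ 2 := by nlinarith
      have h4 : 1 ≤ v ^ 3 := by nlinarith
      have h5 : R ^ 2 ≤ 49 / 25 := by nlinarith
      refine mul_nonneg (by linarith) (mul_nonneg (by linarith) ?_)
      linarith
    nlinarith [h1, h2]
  · have hp := Real3s_poly h
    obtain ⟨Q, hQ⟩ : ∃ Q : ℝ, Q = 9 * R ^ 4 + 20 * R ^ 3 + 6 * R ^ 2 - 12 * R - 7 := ⟨_, rfl⟩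
    rw [← hQ] at hp ⊢
    have hR0 : 0 < R := by linarith
    have hv0 : 0 < v := by linarith
    have hQ0 : 0 < Q := by
      by_contra hc
      push Not at hc
      have h1 : Q ^ 3 ≤ 0 := by
        have : Q ^ 3 = Q * Q ^ 2 := by ring
        rw [this]
        exact mul_nonpos_of_nonpos_of_nonneg hc (sq_nonneg Q)
      have h2 : 0 < 11250 * R ^ 11 := by positivity
      linarith
    have h := Real3s_amgm (a := 24 * R * v ^ 4) (b := Q / 3) (c := 40 * R ^ 3 * v) (by positivity)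
      (by positivity) (by
        have h1 : 256 * (24 * R * v ^ 4) * (Q / 3) ^ 3 = (2048 / 9) * (R * v ^ 4) * Q ^ 3 := by ring
        have h2 : (40 * R ^ 3 * v) ^ 4 = (2048 / 9) * (R * v ^ 4) * (11250 * R ^ 11) := by ring
        rw [h1, h2]
        exact mul_lt_mul_of_pos_left hp (by positivity))
    linarith

end BM939
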