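import Pool.Agent.Lib.MP_939ffc_anC.Poly3
import Pool.Agent.Lib.MP_939ffc_anC.Approx
import Pool.Agent.Lib.MP_939ffc_anC.Proj
import Pool.Agent.Lib.MP_939ffc_anC.Scale0

open MeasureTheory Set Metric Filter Topology
open scoped ENNReal NNReal Pointwise
open Pool.Agent.Lib.MP_deb14e_an Pool.Agent.MPdeb14eM

namespace BM939

private theorem upper_norm_le {n : ℕ} {Ω : Set (E n)} (hb : ball (0 : E n) 1 ⊆ Ω) {a : E n}
    (ha : ∀ y ∈ Ω, (inner ℝ a y : ℝ) < 1) : ‖a‖ ≤ 1 := by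
  by_contra hcon
  push Not at hcon
  have ha0 : 0 < ‖a‖ := by linarith
  have h1 : ((‖a‖ ^ 2)⁻¹ • a : E n) ∈ Ω := by
    apply hb
    rw [mem_ball_zero_iff, norm_smul, norm_inv, norm_pow, norm_norm, pow_two, mul_inv, mul_assoc,
      inv_mul_cancel₀ ha0.ne', mul_one]
    exact inv_lt_one_of_one_lt₀ hcon
  have h2 := ha _ h1
  rw [real_inner_smul_right, real_inner_self_eq_norm_sq,
    inv_mul_cancel₀ (pow_ne_zero 2 ha0.ne')] at h2
  exact lt_irrefl _ h2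

private theorem upper_sep {n : ℕ} {Ω : Set (E n)} (hΩ : ConvexDomain Ω) (h0 : (0 : E n) ∈ Ω)
    {x : E n} (hx : x ∈ frontier Ω) :
    ∃ a : E n, (∀ y ∈ Ω, (inner ℝ a y : ℝ) < 1) ∧ 1 ≤ (inner ℝ a x : ℝ) := by
  have hxn : x ∉ Ω := by
    intro h
    rw [hΩ.2.2.1.frontier_eq] at hx
    exact hx.2 h
  obtain ⟨f, hf⟩ := geometric_hahn_banach_open_point hΩ.2.2.2 hΩ.2.2.1 hxn
  have hfx : 0 < f x := by
    have := hf 0 h0
    rwa [map_zero] at this
  have hin : ∀ y : E n, (inner ℝ ((f x)⁻¹ • (InnerProductSpace.toDual ℝ (E n)).symm f) y : ℝ) =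
      (f x)⁻¹ * f y := by
    intro y
    rw [real_inner_smul_left, InnerProductSpace.toDual_symm_apply]
  refine ⟨(f x)⁻¹ • (InnerProductSpace.toDual ℝ (E n)).symm f, fun y hy => ?_, ?_⟩
  · rw [hin, inv_mul_lt_iff₀ hfx, mul_one]
    exact hf y hy
  · rw [hin, inv_mul_cancel₀ hfx.ne']

/-- PROOF: `A = {a | ∀ y ∈ Ω, ⟨a, y⟩ < 1}`; `‖a‖ ≤ 1` for `a ∈ A` since `ball 0 1 ⊆ Ω`; for `x ∈ frontier Ω` the
separation theorem `geometric_hahn_banach_open_point` gives `f` with `f y < f x` on `Ω`, so `f x > f 0 = 0`, and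
`a = f / f x` (`InnerProductSpace.toDual`); so `exists_poly` gives `Ω ⊆ poly S ⊆ (1 + ε) • Ω`, then
`bd_mono`, `bd_poly_le`, `mom` monotone, `mom_smul`, and `ε → 0` (`mom p Ω < ⊤`, Ω is bounded). -/
theorem bd_le {m p : ℕ} {Ω : Set (E (m + 1))} (hΩ : ConvexDomain Ω) (hb : ball 0 1 ⊆ Ω) :
    bd p Ω ≤ ENNReal.ofReal (kap m * (m + 1 + p)) * mom p Ω := by
  have h0 : (0 : E (m + 1)) ∈ Ω := hb (mem_ball_self one_pos)
  have key : ∀ ε : ℝ, 0 < ε → bd p Ω ≤ ENNReal.ofReal (kap m * (m + 1 + p)) *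
      (ENNReal.ofReal ((1 + ε) ^ (m + 1 + p)) * mom p Ω) := by
    intro ε hε
    obtain ⟨S, hSA, hS1, hS2⟩ := exists_poly hΩ h0 (A := {a | ∀ y ∈ Ω, (inner ℝ a y : ℝ) < 1})
      (fun a ha => ha) (fun x hx => upper_sep hΩ h0 hx) hε
    have hΩ2 : Bornology.IsBounded ((1 + ε) • Ω) := hΩ.2.1.smul₀ (1 + ε)
    have hpoly : ConvexDomain (poly S) :=
      ⟨⟨0, zero_mem_poly S⟩, hΩ2.subset hS2, isOpen_poly S, convex_poly S⟩
    calc bd p Ω ≤ bd p (poly S) := bd_mono hΩ hpoly h0 hS1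
      _ ≤ ENNReal.ofReal (kap m * (m + 1 + p)) * mom p (poly S) :=
        bd_poly_le S fun a ha => upper_norm_le hb (hSA a ha)
      _ ≤ ENNReal.ofReal (kap m * (m + 1 + p)) * mom p ((1 + ε) • Ω) := by
        gcongr
        exact lintegral_mono_set hS2
      _ = _ := by rw [mom_smul Ω (by linarith : (0 : ℝ) < 1 + ε)]
  have hlim : Tendsto (fun k : ℕ => ENNReal.ofReal (kap m * (m + 1 + p)) *
      (ENNReal.ofReal ((1 + 1 / ((k : ℝ) + 1)) ^ (m + 1 + p)) * mom p Ω)) atTop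
      (𝓝 (ENNReal.ofReal (kap m * (m + 1 + p)) * mom p Ω)) := by
    have h1 : Tendsto (fun k : ℕ => ENNReal.ofReal ((1 + 1 / ((k : ℝ) + 1)) ^ (m + 1 + p))) atTop
        (𝓝 1) := by
      have h2 : Tendsto (fun k : ℕ => (1 + 1 / ((k : ℝ) + 1)) ^ (m + 1 + p)) atTop (𝓝 1) := by
        have h3 := (tendsto_one_div_add_atTop_nhds_zero_nat (𝕜 := ℝ)).const_add 1
        have h4 := h3.pow (m + 1 + p)
        rwa [add_zero, one_pow] at h4
      have h5 := (ENNReal.continuous_ofReal.tendsto 1).comp h2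
      rw [ENNReal.ofReal_one] at h5
      exact h5
    have h6 := ENNReal.Tendsto.mul_const h1 (b := mom p Ω) (Or.inl one_ne_zero)
    rw [one_mul] at h6
    exact ENNReal.Tendsto.const_mul h6 (Or.inr ENNReal.ofReal_ne_top)
  exact ge_of_tendsto hlim (Eventually.of_forall fun k => key _ (by positivity))

end BM939
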